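import Pool.Agent.Helper42.SH.HFsum
import Pool.Agent.Helper43.CL.LBk
import Pool.Agent.Helper25.SH.MatU
import Pool.Agent.Helper75.SH.HTZ

/-!
# Project RC, SHARP, cell engine: THE END OF A CELL, from the blocks and the matrix check to all arrays
-/

set_option autoImplicit false

open MeasureTheory Set Filter Topology

namespace Helper42.SH

open Helper49.Sharp
open Helper95.SH
open Helper25.SH.Mat
open Helper43.CL (LB LoE sqv_nonneg)
open Pool.Agent.Helper20.RC (lk)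
open Pool.Agent.Helper75.SH (HTok TSc x2 x3 HH SQR FARR)

/-! ### blocks of the matrix -/

/-- the form of a list of blocks -/
noncomputable def BF (b n : ℕ) (Bs : List Blk) (v : ℕ → ℝ) : ℝ := (Bs.map (Blk.val b n v)).sum

theorem BF_nil (b n : ℕ) (v : ℕ → ℝ) : BF b n [] v = 0 := rfl

theorem BF_cons (b n : ℕ) (x : Blk) (Bs : List Blk) (v : ℕ → ℝ) : BF b n (x :: Bs) v = Blk.val b n v x + BF b n Bs v := by
  unfold BF
  rw [List.map_cons, List.sum_cons]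

theorem BF_append (b n : ℕ) (Bs Cs : List Blk) (v : ℕ → ℝ) : BF b n (Bs ++ Cs) v = BF b n Bs v + BF b n Cs v := by
  unfold BF
  rw [List.map_append, List.sum_append]

theorem BF_one (b n : ℕ) (x : Blk) (v : ℕ → ℝ) : BF b n [x] v = Blk.val b n v x := by
  rw [BF_cons, BF_nil, add_zero]

/-- a functional with its list of blocks -/
def LBB (b n : ℕ) (S : ℝ) (g : (ℕ → ℝ) → ℝ) (Bs : List Blk) (E : ℝ) : Prop := LB n S g (BF b n Bs) E

theorem LBB.app {b n : ℕ} {S : ℝ} {g h : (ℕ → ℝ) → ℝ} {Bs Cs : List Blk} {E F : ℝ} (a : LBB b n S g Bs E)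
    (k : LBB b n S h Cs F) : LBB b n S (fun v => g v + h v) (Bs ++ Cs) (E + F) :=
  LB.congr (LB.add a k) (fun _ _ => rfl) (fun v _ => BF_append b n Bs Cs v)

/-- one block -/
theorem LBB.one {b n : ℕ} {S : ℝ} {g : (ℕ → ℝ) → ℝ} {x : Blk} {E : ℝ} (a : LB n S g (fun v => Blk.val b n v x) E) :
    LBB b n S g [x] E := LB.congr a (fun _ _ => rfl) (fun v _ => BF_one b n x v)

theorem LBB.nil (b n : ℕ) (S : ℝ) : LBB b n S (fun _ => 0) [] 0 := LB.zero n S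

/-- a family of functionals with one list each -/
theorem LBB.fam {b n : ℕ} {S : ℝ} {g : ℕ → (ℕ → ℝ) → ℝ} {x : ℕ → List Blk} {E : ℕ → ℝ} : ∀ (m : ℕ),
    (∀ k < m, LBB b n S (g k) (x k) (E k)) →
    LBB b n S (fun v => ∑ k ∈ Finset.range m, g k v) ((List.range m).flatMap x) (∑ k ∈ Finset.range m, E k)
  | 0, _ => by
    simp only [Finset.range_zero, Finset.sum_empty, List.range_zero, List.flatMap_nil]
    exact LBB.nil b n S
  | m + 1, h => by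
    have h1 := LBB.fam m fun k hk => h k (Nat.lt_succ_of_lt hk)
    have h2 := h1.app (h m (Nat.lt_succ_self m))
    rw [List.range_succ, List.flatMap_append, Finset.sum_range_succ]
    simp only [Finset.sum_range_succ, List.flatMap_cons, List.flatMap_nil, List.append_nil]
    exact h2

/-- the negative Cholesky block may be dropped -/
theorem chol_le (b n c m : ℕ) (R : List ℕ) (v : ℕ → ℝ) : Blk.val b n v (.sq true c m R) ≤ 0 := by
  unfold Blk.val sgr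
  have h : (0 : ℝ) ≤ c * ∑ k ∈ Finset.range m, iv n (row b R k) v ^ 2 :=
    mul_nonneg (Nat.cast_nonneg _) (Finset.sum_nonneg fun _ _ => sq_nonneg _)
  simp only [cond_true]
  linarith

/-- **from the matrix check to the sign** -/
theorem mat_pos {b n e T c m : ℕ} {S E F : ℝ} {g gd : (ℕ → ℝ) → ℝ} {Bs : List Blk} {R P D : List ℕ} (hS : 0 < S)
    (hs : ∀ v, ((T : ℝ) - n * (e + 1)) * sqv n v ≤ BF b n (.sq true c m R :: Bs) v + dgv n P D v)
    (hb : LBB b n S g Bs E) (hd : LB n S gd (dgv n P D) F) (hE : E + F ≤ (T : ℝ) - n * (e + 1)) (v : ℕ → ℝ)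
    (hv : v 0 = 1) : 0 ≤ g v + gd v := by
  refine LB.nonneg (g := fun v => g v + gd v) (LB.add hb hd) hS (fun v _ => ?_) v hv
  have h1 := hs v
  rw [BF_cons] at h1
  have h2 := chol_le b n c m R v
  have h3 := mul_le_mul_of_nonneg_right hE (sqv_nonneg n v)
  linarith

/-- the diagonal part: `D_i ≥ S d_i` -/
theorem LB_dgv {n : ℕ} {S : ℝ} {d : ℕ → ℝ} {P D : List ℕ} (hP : ∀ i < n, P.getD i 0 = 0)
    (hd : ∀ i < n, S * d i ≤ (D.getD i 0 : ℝ)) :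
    LB n S (fun v => -∑ i ∈ Finset.range n, d i * v i ^ 2) (dgv n P D) 0 := by
  intro v _
  unfold dgv
  rw [zero_mul, sub_zero, mul_neg, Finset.mul_sum, ← Finset.sum_neg_distrib]
  refine Finset.sum_le_sum fun i hi => ?_
  have hi' := Finset.mem_range.1 hi
  rw [hP i hi']
  have h := mul_le_mul_of_nonneg_right (hd i hi') (sq_nonneg (v i))
  push_cast
  linarith

/-! ### the sum of the pieces -/

/-- the blocks of all pieces, `n` coordinates, digits of `b` bits, scale `S` -/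
structure Pieces (c : CD) (K H kD J1 J2 : ℕ) (al : ℕ → ℝ) (tz t2 t3 : ℝ) (b n : ℕ) (S : ℝ)
    (B : ℕ → List Blk) (E : ℕ → ℝ) : Prop where
  nf : LBB b n S (fun v => gNF c K H (max K (2 * H)) v) (B 0) (E 0)
  o1 : LBB b n S (fun v => gO1 c K H (max K (2 * H)) v) (B 1) (E 1)
  pr : LBB b n S (fun v => gPR c K H (max K (2 * H)) v) (B 2) (E 2)
  lin : LBB b n S (fun v => gLIN c K H (max K (2 * H)) v) (B 3) (E 3)
  lo : LBB b n S (fun v => gLO c K v) (B 4) (E 4)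
  bp : LBB b n S (fun v => gBP c K H v) (B 5) (E 5)
  br : LBB b n S (fun v => gBR c K H v) (B 6) (E 6)
  zp : LBB b n S (fun v => gZP c K H v) (B 7) (E 7)
  zr : LBB b n S (fun v => gZR c K H v) (B 8) (E 8)
  q : LBB b n S (fun v => gQ c K v) (B 9) (E 9)
  x : LBB b n S (fun v => gX c K H (max K (2 * H)) v J1 tz) (B 10) (E 10)
  y : LBB b n S (fun v => gY c K H (max K (2 * H)) v J2 t2) (B 11) (E 11)
  z : LBB b n S (fun v => gZ c K H (max K (2 * H)) v J2 t3) (B 12) (E 12)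
  d2 : LBB b n S (fun v => gD2 c K H (max K (2 * H)) v kD al) (B 13) (E 13)

/-- all blocks (the small blocks of (D2) at the end) -/
def allB (B : ℕ → List Blk) : List Blk := (List.range 14).flatMap B

theorem Pieces.sum {c : CD} {K H kD J1 J2 : ℕ} {al : ℕ → ℝ} {tz t2 t3 : ℝ} {b n : ℕ} {S : ℝ}
    {B : ℕ → List Blk} {E : ℕ → ℝ} (p : Pieces c K H kD J1 J2 al tz t2 t3 b n S B E) :
    LBB b n S (fun v => gNF c K H (max K (2 * H)) v + (gO1 c K H (max K (2 * H)) v + (gPR c K H (max K (2 * H)) v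
      + (gLIN c K H (max K (2 * H)) v + (gLO c K v + (gBP c K H v + (gBR c K H v + (gZP c K H v + (gZR c K H v
      + (gQ c K v + (gX c K H (max K (2 * H)) v J1 tz
      + (gY c K H (max K (2 * H)) v J2 t2 + (gZ c K H (max K (2 * H)) v J2 t3
      + gD2 c K H (max K (2 * H)) v kD al))))))))))))) (allB B)
      (∑ i ∈ Finset.range 14, E i) := by
  have h := p.nf.app (p.o1.app (p.pr.app (p.lin.app (p.lo.app (p.bp.app (p.br.app (p.zp.app (p.zr.app (p.q.app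
    (p.x.app (p.y.app (p.z.app p.d2))))))))))))
  have e1 : allB B = B 0 ++ (B 1 ++ (B 2 ++ (B 3 ++ (B 4 ++ (B 5 ++ (B 6 ++ (B 7 ++ (B 8 ++ (B 9 ++ (B 10 ++ (B 11 ++
    (B 12 ++ B 13)))))))))))) := by
    have : List.range 14 = [0, 1, 2, 3, 4, 5, 6, 7, 8, 9, 10, 11, 12, 13] := by decide
    unfold allB
    rw [this]
    simp only [List.flatMap_cons, List.flatMap_nil, List.append_nil]
  have e2 : ∑ i ∈ Finset.range 14, E i = E 0 + (E 1 + (E 2 + (E 3 + (E 4 + (E 5 + (E 6 + (E 7 + (E 8 + (E 9 + (E 10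
    + (E 11 + (E 12 + E 13)))))))))))) := by
    simp only [Finset.sum_range_succ, Finset.sum_range_zero]
    ring
  rw [e1, e2]
  exact h

/-- **THE FINITE FORM OF A CELL IS NONNEGATIVE** -/
theorem HFv_pos {c : CD} (ok : c.OK) (h0 : c.P.a0 = fun _ => 0) (e : LoE c) {K H : ℕ} (hK : ¬ Even K)
    (k1 : c.K0 ≤ K) (k2 : c.K0 ≤ 2 * H) {kD J1 J2 : ℕ} {al : ℕ → ℝ} {alI tz t2 t3 : ℝ} {PT FR : (ℕ → ℝ) → ℝ}
    {b n eM T cc m : ℕ} {S : ℝ} {B : ℕ → List Blk} {E : ℕ → ℝ} {R Pd Dd : List ℕ} {F : ℝ} (hS : 0 < S)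
    (p : Pieces c K H kD J1 J2 al tz t2 t3 b n S B E)
    (hd : LB n S (fun v => gDG c.P.nu alI PT FR v) (dgv n Pd Dd) F)
    (hs : ∀ v, ((T : ℝ) - n * (eM + 1)) * sqv n v ≤ BF b n (.sq true cc m R :: allB B) v + dgv n Pd Dd v)
    (hE : ∑ i ∈ Finset.range 14, E i + F ≤ (T : ℝ) - n * (eM + 1)) (v : ℕ → ℝ) (hv : v 0 = 1) :
    0 ≤ HFv c K (2 * H) kD J1 J2 al alI tz t2 t3 PT FR v := by
  have h := mat_pos hS hs p.sum hd hE v hv
  rw [HFv_split ok h0 e hK k1 k2]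
  refine h.trans (le_of_eq ?_)
  ring

/-- **THE CELL**: all arrays -/
theorem cell_GI {c : CD} (ok : c.OK) (h0 : c.P.a0 = fun _ => 0) (e : LoE c) {ts : TSc} {kd : ℝ → ℝ}
    {al be ga wl : ℕ → ℝ} {A alI bL d k ph del : ℝ} {k0 kD M0 : ℕ}
    (o : HTok c ts kd al be ga wl A alI bL d k ph del k0 kD M0) {H J1 J2 : ℕ} (hL : ts.L = 2 * H)
    (k1 : c.K0 ≤ ts.K) (k2 : c.K0 ≤ 2 * H) {PT FR : (ℕ → ℝ) → ℝ}
    (hPT : ∀ v : ℕ → ℝ, v 0 = 1 → ∑' j : ℕ, (lk (j + kD) ^ 2 - 1) *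
      ‖qk c (max ts.K ts.L) (pV ts.K ts.L v) (rV ts.K ts.L v) (sV ts.K v) (j + kD)‖ ^ 2 ≤ PT v)
    (hFR : ∀ (N : ℕ) (v : ℕ → ℝ), v 0 = 1 →
      FARR c ts bL J1 J2 N (max ts.K ts.L) (pV ts.K ts.L v) (rV ts.K ts.L v) (sV ts.K v) ≤ FR v)
    {b n eM T cc m : ℕ} {S : ℝ} {B : ℕ → List Blk} {E : ℕ → ℝ} {R Pd Dd : List ℕ} {F : ℝ} (hS : 0 < S)
    (p : Pieces c ts.K H kD J1 J2 al ts.tz (ts.t2 - x2 ts c bL) (ts.t3 - x3 ts c bL) b n S B E)
    (hd : LB n S (fun v => gDG c.P.nu alI PT FR v) (dgv n Pd Dd) F)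
    (hs : ∀ v, ((T : ℝ) - n * (eM + 1)) * sqv n v ≤ BF b n (.sq true cc m R :: allB B) v + dgv n Pd Dd v)
    (hE : ∑ i ∈ Finset.range 14, E i + F ≤ (T : ℝ) - n * (eM + 1)) :
    ∀ N, max ts.K ts.L ≤ N → ∀ p r s, Arr N p r s → 0 ≤ GI c N p r s := by
  refine o.nonneg J1 J2 (k1.trans (le_max_left _ _)) hPT hFR
    (HF := HFv c ts.K ts.L kD J1 J2 al alI ts.tz (ts.t2 - x2 ts c bL) (ts.t3 - x3 ts c bL) PT FR) (fun v _ => ?_)
    fun v hv => ?_
  · unfold HFv HH SQR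
    linarith
  · rw [hL]
    exact HFv_pos ok h0 e (Nat.not_even_iff_odd.2 o.oK) k1 k2 hS p hd hs hE v hv

/-- **THE CELL, with helper25's check and natural errors** -/
theorem cell_ok {c : CD} (ok : c.OK) (h0 : c.P.a0 = fun _ => 0) (e : LoE c) {ts : TSc} {kd : ℝ → ℝ}
    {al be ga wl : ℕ → ℝ} {A alI bL d k ph del : ℝ} {k0 kD M0 : ℕ}
    (o : HTok c ts kd al be ga wl A alI bL d k ph del k0 kD M0) {H J1 J2 : ℕ} (hL : ts.L = 2 * H)
    (k1 : c.K0 ≤ ts.K) (k2 : c.K0 ≤ 2 * H) {PT FR : (ℕ → ℝ) → ℝ}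
    (hPT : ∀ v : ℕ → ℝ, v 0 = 1 → ∑' j : ℕ, (lk (j + kD) ^ 2 - 1) *
      ‖qk c (max ts.K ts.L) (pV ts.K ts.L v) (rV ts.K ts.L v) (sV ts.K v) (j + kD)‖ ^ 2 ≤ PT v)
    (hFR : ∀ (N : ℕ) (v : ℕ → ℝ), v 0 = 1 →
      FARR c ts bL J1 J2 N (max ts.K ts.L) (pV ts.K ts.L v) (rV ts.K ts.L v) (sV ts.K v) ≤ FR v)
    {b r mm n eM T cc m : ℕ} {S : ℝ} {B : ℕ → List Blk} {E : ℕ → ℕ} {R Pd Dd : List ℕ} {F : ℕ} (hS : 0 < S)
    (p : Pieces c ts.K H kD J1 J2 al ts.tz (ts.t2 - x2 ts c bL) (ts.t3 - x3 ts c bL) b n S B (fun i => (E i : ℝ)))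
    (hd : LB n S (fun v => gDG c.P.nu alI PT FR v) (dgv n Pd Dd) (F : ℝ))
    (hs : Helper25.SH.Mat.ok b r mm n eM T (.sq true cc m R :: allB B) Pd Dd = true)
    (hE : ∑ i ∈ Finset.range 14, E i + F + n * (eM + 1) ≤ T) :
    ∀ N, max ts.K ts.L ≤ N → ∀ p r s, Arr N p r s → 0 ≤ GI c N p r s := by
  refine cell_GI ok h0 e o hL k1 k2 hPT hFR hS p hd (fun v => sound hs v) ?_
  have h : ((∑ i ∈ Finset.range 14, E i + F + n * (eM + 1) : ℕ) : ℝ) ≤ (T : ℝ) := Nat.cast_le.2 hE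
  push_cast at h
  push_cast
  linarith

end Helper42.SH
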