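import Pool.Agent.Helper60.SH.MatP
import Pool.Agent.Helper42.SH.HFend
import Pool.Agent.Helper25.SH.Wid

/-!
# Project RC, SHARP, cell engine: columns as literals, checked once

`eqL`, `eqBs`: equality of lists of numbers, of blocks, as kernel checks. `lit`: a check of a literal serves the
computed list. `sound_lit`: the row checks of `Helper60.SH.MatP` for the literal blocks.
-/

set_option autoImplicit false

namespace Helper42.SH

open Helper95.SH
open Helper25.SH.Mat

def eqL : List ℕ → List ℕ → Bool
  | [], [] => true
  | a :: A, b :: B => bif Nat.beq a b then eqL A B else false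
  | _, _ => false

theorem eqL_sound : ∀ {A B : List ℕ}, eqL A B = true → A = B
  | [], [], _ => rfl
  | a :: A, b :: B, h => by
    unfold eqL at h
    cases e : Nat.beq a b with
    | false => rw [e] at h; exact absurd h (by simp)
    | true =>
      rw [e] at h
      rw [Nat.eq_of_beq_eq_true e, eqL_sound h]
  | [], b :: B, h => absurd h (by simp [eqL])
  | a :: A, [], h => absurd h (by simp [eqL])

def eqb (s t : Bool) : Bool := bif s then t else (bif t then false else true)

theorem eqb_sound {s t : Bool} (h : eqb s t = true) : s = t := by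
  cases s <;> cases t <;> simp_all [eqb]

def eqBk : Blk → Blk → Bool
  | .sq s c m A, .sq s' c' m' A' =>
    bif eqb s s' then bif Nat.beq c c' then bif Nat.beq m m' then eqL A A' else false else false else false
  | .bl s c m A B, .bl s' c' m' A' B' =>
    bif eqb s s' then bif Nat.beq c c' then bif Nat.beq m m' then bif eqL A A' then eqL B B' else false
      else false else false else false
  | _, _ => false

theorem bift {x y : Bool} (h : (bif x then y else false) = true) : x = true ∧ y = true := by
  cases x <;> simp_all

theorem eqBk_sound {x y : Blk} (h : eqBk x y = true) : x = y := by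
  cases x with
  | sq s c m A =>
    cases y with
    | sq s' c' m' A' =>
      obtain ⟨h1, h⟩ := bift h
      obtain ⟨h2, h⟩ := bift h
      obtain ⟨h3, h⟩ := bift h
      rw [eqb_sound h1, Nat.eq_of_beq_eq_true h2, Nat.eq_of_beq_eq_true h3, eqL_sound h]
    | bl s' c' m' A' B' => exact absurd h (by simp [eqBk])
  | bl s c m A B =>
    cases y with
    | sq s' c' m' A' => exact absurd h (by simp [eqBk])
    | bl s' c' m' A' B' =>
      obtain ⟨h1, h⟩ := bift h
      obtain ⟨h2, h⟩ := bift h
      obtain ⟨h3, h⟩ := bift h
      obtain ⟨h4, h⟩ := bift h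
      rw [eqb_sound h1, Nat.eq_of_beq_eq_true h2, Nat.eq_of_beq_eq_true h3, eqL_sound h4, eqL_sound h]

def eqBs : List Blk → List Blk → Bool
  | [], [] => true
  | a :: A, b :: B => bif eqBk a b then eqBs A B else false
  | _, _ => false

theorem eqBs_sound : ∀ {A B : List Blk}, eqBs A B = true → A = B
  | [], [], _ => rfl
  | a :: A, b :: B, h => by
    unfold eqBs at h
    obtain ⟨h1, h2⟩ := bift h
    rw [eqBk_sound h1, eqBs_sound h2]
  | [], b :: B, h => absurd h (by simp [eqBs])
  | a :: A, [], h => absurd h (by simp [eqBs])

/-- a check of the literal is a check of the computed list -/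
theorem lit {X A : List ℕ} (e : X = A) {f : List ℕ → Bool} (h : f X = true) : f A = true := e ▸ h

/-- the same for two lists -/
theorem lit2 {X A Y B : List ℕ} (e : X = A) (e' : Y = B) {f : List ℕ → List ℕ → Bool} (h : f X Y = true) :
    f A B = true := e ▸ e' ▸ h

theorem allB_congr {BL B : ℕ → List Blk} (h : ∀ i < 14, BL i = B i) : allB BL = allB B := by
  unfold allB
  have : List.range 14 = [0, 1, 2, 3, 4, 5, 6, 7, 8, 9, 10, 11, 12, 13] := by decide
  rw [this]
  simp only [List.flatMap_cons, List.flatMap_nil]
  rw [h 0 (by norm_num), h 1 (by norm_num), h 2 (by norm_num), h 3 (by norm_num), h 4 (by norm_num),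
    h 5 (by norm_num), h 6 (by norm_num), h 7 (by norm_num), h 8 (by norm_num), h 9 (by norm_num),
    h 10 (by norm_num), h 11 (by norm_num), h 12 (by norm_num), h 13 (by norm_num)]

/-- **the matrix check on the literal blocks** -/
theorem sound_lit {b r mm N e T : ℕ} {C : Blk} {BL B : ℕ → List Blk} {P D : List ℕ} (hB : allB BL = allB B)
    (h0 : Helper60.SH.ok0 b r mm N e (C :: allB BL) = true)
    (hR : Helper60.SH.Rows b mm N e T (C :: allB BL) P D 0 N) (v : ℕ → ℝ) :
    ((T : ℝ) - N * (e + 1)) * sqv N v ≤ ((C :: allB B).map (Blk.val b N v)).sum + dgv N P D v := by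
  rw [← hB]
  exact Helper60.SH.sound_parts h0 hR v

end Helper42.SH
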