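import Pool.Agent.Helper25.SH.Defs2

/-!
# MP_506470_co, finite clique number: module L1 (hereditary homogeneity)
-/

namespace SetHom

variable {V : Type}

theorem wsh_iso {V W : Type} {G : SimpleGraph V} {H : SimpleGraph W} (e : G ≃g H)
    (h : WSH G) : WSH H := by
  classical
  intro A B hA hAB
  have hpre : ∀ S : Finset W, ((S.image e.symm : Finset V) : Set V) = e.symm '' (S : Set W) := by
    intro S; simp
  have hiso : ∀ S : Finset W, Nonempty (H.induce (S : Set W) ≃g
      G.induce ((S.image e.symm : Finset V) : Set V)) := by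
    intro S
    let F : {x // x ∈ (S : Set W)} → {x // x ∈ ((S.image e.symm : Finset V) : Set V)} :=
      fun x => ⟨e.symm x.1, by rw [hpre]; exact Set.mem_image_of_mem _ x.2⟩
    have hF : Function.Bijective F := by
      constructor
      · intro x y hxy
        exact Subtype.ext (e.symm.injective (congrArg Subtype.val hxy))
      · rintro ⟨y, hy⟩
        rw [hpre] at hy
        obtain ⟨x, hx, rfl⟩ := hy
        exact ⟨⟨x, hx⟩, rfl⟩
    refine ⟨⟨Equiv.ofBijective F hF, ?_⟩⟩
    intro x y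
    exact e.symm.map_adj_iff
  obtain ⟨iA⟩ := hiso A
  obtain ⟨iB⟩ := hiso B
  obtain ⟨iAB⟩ := hAB
  have hND : NonDom G (A.image e.symm) := by
    intro s hs
    obtain ⟨a, ha, rfl⟩ := Finset.mem_image.1 hs
    obtain ⟨t, ht, hta, hn⟩ := hA a ha
    refine ⟨e.symm t, Finset.mem_image_of_mem _ ht, fun h => hta (e.symm.injective h), ?_⟩
    rwa [e.symm.map_adj_iff]
  obtain ⟨φ, hφ⟩ := h (A.image e.symm) (B.image e.symm) hND ⟨(iA.symm.trans iAB).trans iB⟩
  refine ⟨(e.symm.trans φ).trans e, ?_⟩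
  rw [hpre, hpre] at hφ
  have h1 : (((e.symm.trans φ).trans e) : H ≃g H) '' (A : Set W) =
      e '' (φ '' (e.symm '' (A : Set W))) := by
    rw [Set.image_image, Set.image_image]
    rfl
  rw [h1, hφ, Set.image_image]
  simp

/-- the isomorphism of links induced by an isomorphism -/
noncomputable def linkMap {V W : Type} {G : SimpleGraph V} {H : SimpleGraph W} (e : G ≃g H)
    (v : V) : Link G v ≃g Link H (e v) where
  toEquiv := e.toEquiv.subtypeEquiv (fun x => by
    show G.Adj v x ↔ H.Adj (e v) (e x)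
    exact e.map_adj_iff.symm)
  map_rel_iff' := by
    intro x y
    exact e.map_adj_iff

-- Module L1
theorem hh_iso (n : ℕ) {V W : Type} {G : SimpleGraph V} {H : SimpleGraph W} (e : G ≃g H)
    (h : HH n G) : HH n H := by
  induction n generalizing V W with
  | zero => trivial
  | succ n ih =>
    obtain ⟨h1, h2, h3⟩ := h
    refine ⟨wsh_iso e h1, ?_, ?_⟩
    · intro v w
      obtain ⟨f⟩ := h2 (e.symm v) (e.symm w)
      have a := linkMap e (e.symm v)
      have b := linkMap e (e.symm w)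
      rw [e.apply_symm_apply] at a b
      exact ⟨(a.symm.trans f).trans b⟩
    · intro v
      have a := linkMap e (e.symm v)
      rw [e.apply_symm_apply] at a
      exact ih a (h3 _)

/-- the common neighbourhood -/
def CN (G : SimpleGraph V) (R : Finset V) : Set V := {x | ∀ r ∈ R, G.Adj r x}

/-- the link in a common neighbourhood -/
def linkCN [DecidableEq V] (G : SimpleGraph V) (R : Finset V) (v : CN G R) :
    Link (G.induce (CN G R)) v ≃g G.induce (CN G (insert v.1 R)) where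
  toFun x := ⟨x.1.1, by
    intro r hr
    rcases Finset.mem_insert.1 hr with rfl | hr
    · exact x.2
    · exact x.1.2 r hr⟩
  invFun x := ⟨⟨x.1, fun r hr => x.2 r (Finset.mem_insert_of_mem hr)⟩,
    x.2 v.1 (Finset.mem_insert_self _ _)⟩
  left_inv _ := rfl
  right_inv _ := rfl
  map_rel_iff' := Iff.rfl

/-- restriction of an automorphism to common neighbourhoods -/
theorem restrict {G : SimpleGraph V} (R S : Finset V) (φ : G ≃g G)
    (hφ : φ '' (R : Set V) = (S : Set V)) :
    ∃ ψ : G.induce (CN G R) ≃g G.induce (CN G S), ∀ x, (ψ x).1 = φ x.1 := by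
  have h1 : ∀ x, x ∈ CN G R ↔ φ x ∈ CN G S := by
    intro x
    constructor
    · intro hx s hs
      have : s ∈ φ '' (R : Set V) := by rw [hφ]; exact hs
      obtain ⟨r, hr, rfl⟩ := this
      exact φ.map_adj_iff.2 (hx r hr)
    · intro hx r hr
      have : φ r ∈ (S : Set V) := by rw [← hφ]; exact Set.mem_image_of_mem _ hr
      exact φ.map_adj_iff.1 (hx (φ r) this)
  refine ⟨⟨φ.toEquiv.subtypeEquiv h1, ?_⟩, fun x => rfl⟩
  intro x y
  exact φ.map_adj_iff

/-- the dominating vertices of a clique joined to a non-dominated set -/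
theorem dom_iff {G : SimpleGraph V} [DecidableEq V] {R U : Finset V} (hR : G.IsClique (R : Set V))
    (hU : ∀ x ∈ U, x ∈ CN G R) (hND : NonDom G U) {x : V} (hx : x ∈ R ∪ U) :
    x ∈ R ↔ ∀ y ∈ R ∪ U, y ≠ x → G.Adj x y := by
  constructor
  · intro hxR y hy hyx
    rcases Finset.mem_union.1 hy with hy | hy
    · exact hR hxR hy hyx.symm
    · exact hU y hy x hxR
  · intro h
    by_contra hxR
    have hxU : x ∈ U := (Finset.mem_union.1 hx).resolve_left hxR
    obtain ⟨t, ht, htx, hn⟩ := hND x hxU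
    exact hn (h t (Finset.mem_union_right _ ht) htx)

theorem wsh_CN {G : SimpleGraph V} (h : SetHomogeneous G) (R : Finset V)
    (hR : G.IsClique (R : Set V)) : WSH (G.induce (CN G R)) := by
  classical
  intro A B hA hAB
  obtain ⟨f⟩ := hAB
  have hB : NonDom (G.induce (CN G R)) B := by
    intro s hs
    obtain ⟨t, ht, hts, hn⟩ := hA (f.symm ⟨s, hs⟩).1 (f.symm ⟨s, hs⟩).2
    have e1 : f ⟨t, ht⟩ ≠ ⟨s, hs⟩ := by
      intro h
      apply hts
      rw [← h, f.symm_apply_apply]
    refine ⟨(f ⟨t, ht⟩).1, (f ⟨t, ht⟩).2, fun h => e1 (Subtype.ext h), ?_⟩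
    intro hadj
    apply hn
    have h2 : ((G.induce (CN G R)).induce (B : Set (CN G R))).Adj ⟨s, hs⟩ (f ⟨t, ht⟩) := hadj
    have h3 : f (f.symm ⟨s, hs⟩) = ⟨s, hs⟩ := f.apply_symm_apply _
    rw [← h3, f.map_adj_iff] at h2
    exact h2
  set A' : Finset V := A.image Subtype.val with hA'
  set B' : Finset V := B.image Subtype.val with hB'
  have mA : ∀ x ∈ A', x ∈ CN G R := by
    intro x hx
    obtain ⟨a, -, rfl⟩ := Finset.mem_image.1 hx
    exact a.2
  have mB : ∀ x ∈ B', x ∈ CN G R := by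
    intro x hx
    obtain ⟨a, -, rfl⟩ := Finset.mem_image.1 hx
    exact a.2
  have nd : ∀ S : Finset (CN G R), NonDom (G.induce (CN G R)) S →
      NonDom G (S.image Subtype.val) := by
    intro S hS s hs
    obtain ⟨a, ha, rfl⟩ := Finset.mem_image.1 hs
    obtain ⟨t, ht, hta, hn⟩ := hS a ha
    exact ⟨t.1, Finset.mem_image_of_mem _ ht, fun h => hta (Subtype.ext h), hn⟩
  have ndA := nd A hA
  have ndB := nd B hB
  have hdisjA : ∀ x ∈ A', x ∉ R := fun x hx hxR => G.loopless.irrefl x (mA x hx x hxR)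
  have hdisjB : ∀ x ∈ B', x ∉ R := fun x hx hxR => G.loopless.irrefl x (mB x hx x hxR)
  -- the map
  have hAmem : ∀ x (hx : x ∈ A'), (⟨x, mA x hx⟩ : CN G R) ∈ A := by
    intro x hx
    obtain ⟨a, ha, rfl⟩ := Finset.mem_image.1 hx
    exact ha
  let g : V → V := fun x => if hx : x ∈ A' then (f ⟨⟨x, mA x hx⟩, hAmem x hx⟩).1.1 else x
  have gA : ∀ x (hx : x ∈ A'), g x = (f ⟨⟨x, mA x hx⟩, hAmem x hx⟩).1.1 := fun x hx => dif_pos hx
  have gR : ∀ x, x ∈ R → g x = x := fun x hx => dif_neg fun h => hdisjA x h hx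
  have gA' : ∀ x (hx : x ∈ A'), g x ∈ B' := by
    intro x hx
    rw [gA x hx]
    exact Finset.mem_image_of_mem _ (f ⟨⟨x, mA x hx⟩, hAmem x hx⟩).2
  have ginj : Set.InjOn g ((R ∪ A' : Finset V) : Set V) := by
    intro x hx y hy hxy
    rw [Finset.mem_coe, Finset.mem_union] at hx hy
    rcases hx with hx | hx <;> rcases hy with hy | hy
    · rwa [gR x hx, gR y hy] at hxy
    · rw [gR x hx] at hxy
      exact absurd hx (hdisjB x (hxy ▸ gA' y hy))
    · rw [gR y hy] at hxy
      exact absurd hy (hdisjB y (hxy ▸ gA' x hx))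
    · rw [gA x hx, gA y hy] at hxy
      have h1 := f.injective (Subtype.ext (Subtype.ext hxy))
      exact congrArg (fun z => z.1.1) h1
  have gadj : ∀ x ∈ R ∪ A', ∀ y ∈ R ∪ A', (G.Adj (g x) (g y) ↔ G.Adj x y) := by
    intro x hx y hy
    rw [Finset.mem_union] at hx hy
    rcases hx with hx | hx <;> rcases hy with hy | hy
    · rw [gR x hx, gR y hy]
    · rw [gR x hx]
      exact ⟨fun _ => mA y hy x hx, fun _ => mB _ (gA' y hy) x hx⟩
    · rw [gR y hy]
      exact ⟨fun _ => (mA x hx y hy).symm, fun _ => (mB _ (gA' x hx) y hy).symm⟩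
    · rw [gA x hx, gA y hy]
      exact f.map_adj_iff (v := ⟨⟨x, mA x hx⟩, hAmem x hx⟩) (w := ⟨⟨y, mA y hy⟩, hAmem y hy⟩)
  have gimg : (R ∪ A').image g = R ∪ B' := by
    ext y
    rw [Finset.mem_image, Finset.mem_union]
    constructor
    · rintro ⟨x, hx, rfl⟩
      rcases Finset.mem_union.1 hx with hx | hx
      · left; rwa [gR x hx]
      · right; exact gA' x hx
    · rintro (hy | hy)
      · exact ⟨y, Finset.mem_union_left _ hy, gR y hy⟩
      · obtain ⟨b, hb, rfl⟩ := Finset.mem_image.1 hy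
        have hx : (f.symm ⟨b, hb⟩).1.1 ∈ A' := Finset.mem_image_of_mem _ (f.symm ⟨b, hb⟩).2
        refine ⟨(f.symm ⟨b, hb⟩).1.1, Finset.mem_union_right _ hx, ?_⟩
        rw [gA _ hx]
        have : (⟨⟨(f.symm ⟨b, hb⟩).1.1, mA _ hx⟩, hAmem _ hx⟩ : (A : Set (CN G R))) =
          f.symm ⟨b, hb⟩ := rfl
        rw [this, f.apply_symm_apply]
  obtain ⟨φ, hφ⟩ := h (R ∪ A') (R ∪ B') (by
    have := iso_of_map (G := G) (R ∪ A') g ginj gadj
    rwa [gimg] at this)
  have hmem : ∀ x, x ∈ R ∪ A' ↔ φ x ∈ R ∪ B' := by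
    intro x
    rw [← Finset.mem_coe, ← Finset.mem_coe, ← hφ]
    exact (φ.injective.mem_set_image).symm
  have hsurj : ∀ y ∈ R ∪ B', ∃ x ∈ R ∪ A', φ x = y := by
    intro y hy
    rw [← Finset.mem_coe, ← hφ] at hy
    obtain ⟨x, hx, rfl⟩ := hy
    exact ⟨x, hx, rfl⟩
  have hRR : ∀ x ∈ R ∪ A', (x ∈ R ↔ φ x ∈ R) := by
    intro x hx
    rw [dom_iff hR mA ndA hx, dom_iff hR mB ndB ((hmem x).1 hx)]
    constructor
    · intro h1 y hy hyx
      obtain ⟨z, hz, rfl⟩ := hsurj y hy
      exact φ.map_adj_iff.2 (h1 z hz fun e => hyx (by rw [e]))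
    · intro h1 y hy hyx
      exact φ.map_adj_iff.1 (h1 (φ y) ((hmem y).1 hy) fun e => hyx (φ.injective e))
  have hφR : φ '' (R : Set V) = (R : Set V) := by
    ext y
    constructor
    · rintro ⟨x, hx, rfl⟩
      exact (hRR x (Finset.mem_union_left _ hx)).1 hx
    · intro hy
      obtain ⟨x, hx, rfl⟩ := hsurj y (Finset.mem_union_left _ hy)
      exact ⟨x, (hRR x hx).2 hy, rfl⟩
  obtain ⟨ψ, hψ⟩ := restrict R R φ hφR
  refine ⟨ψ, ?_⟩
  ext y
  constructor
  · rintro ⟨x, hx, rfl⟩
    have hxA : x.1 ∈ A' := Finset.mem_image_of_mem _ hx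
    have h1 : φ x.1 ∈ R ∪ B' := (hmem x.1).1 (Finset.mem_union_right _ hxA)
    have h2 : φ x.1 ∉ R := fun h => hdisjA _ hxA ((hRR _ (Finset.mem_union_right _ hxA)).2 h)
    have h3 : φ x.1 ∈ B' := (Finset.mem_union.1 h1).resolve_left h2
    rw [← hψ] at h3
    obtain ⟨b, hb, e⟩ := Finset.mem_image.1 h3
    rwa [← Subtype.ext e]
  · intro hy
    have hyB : y.1 ∈ B' := Finset.mem_image_of_mem _ hy
    obtain ⟨x, hx, e⟩ := hsurj y.1 (Finset.mem_union_right _ hyB)
    have h2 : x ∉ R := fun h => hdisjB _ hyB (e ▸ (hRR _ hx).1 h)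
    have h3 : x ∈ A' := (Finset.mem_union.1 hx).resolve_left h2
    refine ⟨⟨x, mA x h3⟩, hAmem x h3, ?_⟩
    apply Subtype.ext
    rw [hψ]
    exact e

theorem hh_CN {G : SimpleGraph V} (h : SetHomogeneous G) (n : ℕ) : ∀ (R : Finset V),
    G.IsClique (R : Set V) → HH n (G.induce (CN G R)) := by
  classical
  induction n with
  | zero => intro R hR; trivial
  | succ n ih =>
    intro R hR
    have hins : ∀ v : CN G R, G.IsClique ((insert v.1 R : Finset V) : Set V) := by
      intro v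
      rw [Finset.coe_insert]
      rw [SimpleGraph.isClique_insert]
      exact ⟨hR, fun b hb _ => (v.2 b hb).symm⟩
    refine ⟨wsh_CN h R hR, ?_, ?_⟩
    · intro v w
      have hcard : (insert v.1 R : Finset V).card = (insert w.1 R : Finset V).card := by
        rw [Finset.card_insert_of_notMem, Finset.card_insert_of_notMem]
        · exact fun hw => G.loopless.irrefl _ (w.2 _ hw)
        · exact fun hv => G.loopless.irrefl _ (v.2 _ hv)
      obtain ⟨φ, hφ⟩ := h (insert v.1 R) (insert w.1 R) (by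
        let e : (insert v.1 R : Finset V) ≃ (insert w.1 R : Finset V) :=
          Finset.equivOfCardEq hcard
        refine ⟨⟨e, ?_⟩⟩
        intro x y
        have h1 : ∀ a b : (insert v.1 R : Finset V), G.Adj a.1 b.1 ↔ a ≠ b := fun a b =>
          ⟨fun h e => h.ne (by rw [e]), fun hne => hins v a.2 b.2 fun e => hne (Subtype.ext e)⟩
        have h2 : ∀ a b : (insert w.1 R : Finset V), G.Adj a.1 b.1 ↔ a ≠ b := fun a b =>
          ⟨fun h e => h.ne (by rw [e]), fun hne => hins w a.2 b.2 fun e => hne (Subtype.ext e)⟩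
        show G.Adj (e x).1 (e y).1 ↔ G.Adj x.1 y.1
        rw [h1, h2]
        exact e.injective.ne_iff)
      obtain ⟨ψ, -⟩ := restrict _ _ φ hφ
      exact ⟨((linkCN G R v).trans ψ).trans (linkCN G R w).symm⟩
    · intro v
      exact hh_iso n (linkCN G R v).symm (ih _ (hins v))

-- Module L1
theorem hh_of_sh (n : ℕ) {G : SimpleGraph V} (h : SetHomogeneous G) : HH n G := by
  have h1 := hh_CN h n ∅ (by simp)
  have hu : ∀ x : V, x ∈ CN G ∅ := fun x r hr => absurd hr (Finset.notMem_empty r)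
  refine hh_iso n ?_ h1
  exact ⟨Equiv.subtypeUnivEquiv hu, Iff.rfl⟩

end SetHom
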