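import Pool.Agent.Helper42.SH.El3

/-!
# Project RC, SHARP: the aligned moment `e_2` of the base (generated)
-/

set_option autoImplicit false
set_option maxRecDepth 1000000

namespace Helper42.SH

open Pool.Agent.Helper35.Cas
open Pool.Agent.Helper27.SH (evR)
open Pool.Agent.Helper33.SH (PI z0I b0I ZC)
open Pool.Agent.Helper20.RC (eM)

def L1_2 : Po :=
  [((0, 0, 0, 0), (-1, -1)), ((0, 1, 1, 0), (2, 2)), ((1, 0, 0, 1), (2, 2))]

def Q1_2 : Po :=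
  [((1, 0, 0, 1), (13421772800, 10200547328)), ((1, 0, 1, 2), (-6794772480, 150994944)), ((2, 1, 0, 1), (-10670309376, -4630511616)), ((0, 4, 2, 0), (-911212544, 229638144)), ((1, 0, 2, 3), (-13311148032, -2725773312)), ((2, 1, 1, 2), (509607936, -17949523968)), ((3, 2, 0, 1), (1837105152, 75497472)), ((0, 4, 3, 1), (-843055104, 1195376640)), ((1, 0, 3, 4), (12980846592, -1313341440)), ((1, 5, 2, 0), (-427819008, 125829120)), ((2, 1, 2, 3), (71678558208, 8902410240)), ((3, 2, 1, 2), (10343153664, 11198791680)), ((4, 3, 0, 1), (167772160, 167772160))]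

def M1_2 : List Mo :=
  [(1, 0, 0, 1), (1, 0, 1, 2), (2, 1, 0, 1), (0, 4, 2, 0), (1, 0, 2, 3), (2, 1, 1, 2), (3, 2, 0, 1), (0, 4, 3, 1), (1, 0, 3, 4), (1, 5, 2, 0), (2, 1, 2, 3), (3, 2, 1, 2), (4, 3, 0, 1)]

def L2_2 : Po :=
  [((1, 0, 0, 3), (-116, 224)), ((1, 0, 1, 2), (360, -360)), ((1, 0, 2, 1), (-44, -64)), ((1, 1, 0, 2), (-48, -1176)), ((1, 1, 1, 1), (992, -992)), ((1, 2, 0, 1), (-136, 808)), ((2, 0, 0, 2), (192, 720)), ((2, 0, 1, 1), (-864, 2088)), ((2, 1, 0, 1), (-264, 264)), ((3, 0, 0, 1), (312, -984)), ((0, 1, 1, 2), (-116, 224)), ((0, 1, 2, 1), (360, -360)), ((0, 1, 3, 0), (-44, -64)), ((0, 2, 1, 1), (-48, -1176)), ((0, 2, 2, 0), (800, -1712)), ((0, 3, 1, 0), (-136, 808)), ((1, 1, 2, 0), (-864, 2088)), ((1, 2, 1, 0), (-264, 264)), ((2, 1, 1, 0), (312, -984)), ((0, 0, 0, 2), (58, -112)), ((0, 0, 1, 1), (-180, 180)), ((0, 0, 2, 0), (22, 32)), ((0, 1, 0, 1), (24, 588)), ((0,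 1, 1, 0), (-400, 856)), ((0, 2, 0, 0), (68, -404)), ((1, 0, 0, 1), (-96, -360)), ((1, 0, 1, 0), (432, -1044)), ((1, 1, 0, 0), (132, -132)), ((2, 0, 0, 0), (-156, 492))]

def Q2_2 : Po :=
  [((1, 0, 0, 1), (-412316860416, -1546188226560)), ((1, 0, 1, 2), (2342636224512, -4331742953472)), ((2, 1, 0, 1), (4770634924032, 4757750022144)), ((0, 4, 2, 0), (5680329129984, -6572004605952)), ((1, 0, 2, 3), (24403601522688, -3102342119424)), ((2, 1, 1, 2), (-18609422204928, 39044876599296)), ((3, 2, 0, 1), (-5747471548416, -11019007033344)), ((0, 4, 3, 1), (31331494920192, 610541764608)), ((1, 0, 3, 4), (52355476094976, 29438221615104)), ((1, 5, 2, 0), (-314006568960, 4574278582272)), ((2, 1, 2, 3), (-259909538021376, 75122359664640)), ((3, 2, 1, 2), (80803849568256, -81183123701760)), ((4, 3, 0, 1), (6917455872000, 15079940554752)), ((0, 4, 4, 2), (24554839736320, 33840567418880)), ((1, 0,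 4, 5), (-36654612480000, -10976424099840)), ((1, 5, 3, 1), (-21283358113792, 17495599611904)), ((2, 1, 3, 4), (-52316586639360, -260972158648320)), ((2, 6, 2, 0), (520529903616, 1804792233984)), ((3, 2, 2, 3), (235219147816960, 9914474823680)), ((4, 3, 1, 2), (-161581954498560, -22329132318720)), ((5, 4, 0, 1), (5167550300160, -1054448025600)), ((6, 0, 0, 4), (-83328623443968, 14681590726656))]

def M2_2 : List Mo :=
  [(1, 0, 0, 1), (1, 0, 1, 2), (2, 1, 0, 1), (0, 4, 2, 0), (1, 0, 2, 3), (2, 1, 1, 2), (3, 2, 0, 1), (0, 4, 3, 1), (1, 0, 3, 4), (1, 5, 2, 0), (2, 1, 2, 3), (3, 2, 1, 2), (4, 3, 0, 1), (0, 4, 4, 2), (1, 0, 4, 5), (1, 5, 3, 1), (2, 1, 3, 4), (2, 6, 2, 0), (3, 2, 2, 3), (4, 3, 1, 2), (5, 4, 0, 1), (6, 0, 0, 4)]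

def L3_2 : Po :=
  [((1, 0, 2, 1), (-1182, -162)), ((1, 0, 1, 2), (2160, 0)), ((1, 0, 0, 3), (222, 162)), ((2, 0, 1, 1), (5220, 1836)), ((2, 0, 0, 2), (8904, 1368)), ((3, 0, 0, 1), (-3840, -1008)), ((1, 1, 1, 1), (5952, 0)), ((1, 1, 0, 2), (-10692, -1836)), ((2, 1, 0, 1), (-1584, 0)), ((1, 2, 0, 1), (4896, 1008)), ((0, 1, 3, 0), (-1182, -162)), ((0, 1, 2, 1), (2160, 0)), ((0, 1, 1, 2), (222, 162)), ((1, 1, 2, 0), (5220, 1836)), ((2, 1, 1, 0), (-3840, -1008)), ((0, 2, 2, 0), (-2952, -1368)), ((0, 2, 1, 1), (-10692, -1836)), ((1, 2, 1, 0), (-1584, 0)), ((0, 3, 1, 0), (4896, 1008)), ((0, 0, 2, 0), (591, 81)), ((0, 0, 1, 1), (-1080, 0)), ((0, 0, 0, 2), (-111, -81)), ((1, 0, 1, 0), (-2610, -918)), ((1, 0, 0, 1), (-4452, -684)), ((2, 0, 0, 0), (1920, 504)), ((0, 1, 1, 0), (1476, 684)), ((0, 1, 0, 1), (5346, 918)), ((1, 1, 0, 0), (792, 0)), ((0, 2, 0, 0), (-2448, -504))]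

def Q3_2 : Po :=
  [((1, 0, 0, 1), (-19121194401792, -2937757630464)), ((1, 0, 1, 2), (12213276377088, -4161823309824)), ((2, 1, 0, 1), (-1449551462400, -4161823309824)), ((0, 4, 2, 0), (-8140842074112, -438287990784)), ((1, 0, 2, 3), (7732803403776, 714860396544)), ((2, 1, 1, 2), (27865814925312, 19117771849728)), ((3, 2, 0, 1), (-4487972388864, -1044482359296)), ((0, 4, 3, 1), (-4404837089280, -3305153495040)), ((1, 0, 3, 4), (9358607646720, 7554206269440)), ((1, 5, 2, 0), (-2767032680448, 103456702464)), ((2, 1, 2, 3), (-27608299339776, 61819594997760)), ((3, 2, 1, 2), (-36065519861760, -13756394373120)), ((4, 3, 0, 1), (3886559526912, 739673899008)), ((0, 4, 4, 2), (-1238787686400, -3614567301120)), ((1, 0, 4, 5), (-4697895075840, -1618954813440)), ((1, 5, 3, 1), (-1962380623872, 3294357356544)), ((2, 1, 3, 4), (-156861585162240, -91736003051520)), ((2, 6, 2, 0), (-2982854787072,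 55163486208)), ((3, 2, 2, 3), (8468740177920, -66944174653440)), ((4, 3, 1, 2), (-5591091118080, 12606819532800)), ((5, 4, 0, 1), (54358179840, 522442506240)), ((6, 0, 0, 4), (28860871606272, 15324577529856))]

def M3_2 : List Mo :=
  [(1, 0, 0, 1), (1, 0, 1, 2), (2, 1, 0, 1), (0, 4, 2, 0), (1, 0, 2, 3), (2, 1, 1, 2), (3, 2, 0, 1), (0, 4, 3, 1), (1, 0, 3, 4), (1, 5, 2, 0), (2, 1, 2, 3), (3, 2, 1, 2), (4, 3, 0, 1), (0, 4, 4, 2), (1, 0, 4, 5), (1, 5, 3, 1), (2, 1, 3, 4), (2, 6, 2, 0), (3, 2, 2, 3), (4, 3, 1, 2), (5, 4, 0, 1), (6, 0, 0, 4)]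

theorem e1_2 : P1 ((2 : ℕ) : ℤ) = L1_2 := by decide +kernel

theorem e2_2 : P2 ((2 : ℕ) : ℤ) = L2_2 := by decide +kernel

theorem e3_2 : P3 ((2 : ℕ) : ℤ) = L3_2 := by decide +kernel

theorem c1_2 : chkF L1_2 Z1 zs zcs (1 - (2 : ℕ)) (1 + (2 : ℕ)) ((2 : ℕ) : ℤ) 0 0 8 1 M1_2 Q1_2 = true := by
  decide +kernel

theorem c2_2 : chkF L2_2 Z1 zs zcs (-((2 : ℕ) + 1)) ((2 : ℕ) + 1) ((2 : ℕ) : ℤ) 0 0 8 12 M2_2 Q2_2 = true := by
  decide +kernel

theorem c3_2 : chkF L3_2 Z1 zs zcs (-((2 : ℕ) - 1)) ((2 : ℕ) - 1) ((2 : ℕ) : ℤ) 0 0 8 1 M3_2 Q3_2 = true := by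
  decide +kernel

theorem row_2 : RowC 2 8 1 12 1 M1_2 M2_2 M3_2 L1_2 L2_2 L3_2 Q1_2 Q2_2 Q3_2 where
  e1 := e1_2
  e2 := e2_2
  e3 := e3_2
  c1 := c1_2
  c2 := c2_2
  c3 := c3_2

/-- numbers of the row -/
def v_2 : List ℚ := [1541148798267, 29364996748094, 60159801383172, 136869301786847, 117030986868401, 94493527372178, 17554648030261]

/-- bound of the error, coefficients of `A^(6-k) |B|^k` -/
def w_2 : List ℚ := [3 / 25, 107 / 50, 219 / 50, 249 / 25, 213 / 25, 172 / 25, 32 / 25]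

theorem d_2 : chkD (1 / 5) (1 / 8) 1541148798267 (addP (addP (Qs Q1_2 Q2_2 Q3_2) (twP (Qs Q1_2 Q2_2 Q3_2)))
    (smP (-536870912, 0) (Pool.Agent.Helper33.GM.eP 1))) v_2 = true := by
  decide +kernel

/-- **row `l = 2`** -/
theorem el_2 {A : ℝ} {B : ℂ} (c : ZC) (hR : |A| + 8 / 5 * ‖B‖ ≤ 1 / 5) :
    ‖eM ((PI c A B).F1 (b0I A B) (z0I A B)) ((PI c A B).F2 (b0I A B) (z0I A B)) (PI c A B).ph1 (PI c A B).ph2
      ((2 : ℕ) : ℝ) - evP A B (Pool.Agent.Helper33.GM.eP 1) / 25600‖ ≤ evR |A| ‖B‖ (hom6 w_2) := by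
  refine row_fin row_2 (by decide) (by norm_num) (by norm_num) (by norm_num) (by norm_num) _ v_2 536870912 (by norm_num) 1541148798267 ?_
    d_2 c hR w_2 (by decide +kernel)
  norm_num

end Helper42.SH
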