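import Pool.Agent.Helper42.SH.El3

/-!
# Project RC, SHARP: the aligned moment `e_4` of the base (generated)
-/

set_option autoImplicit false
set_option maxRecDepth 1000000

namespace Helper42.SH

open Pool.Agent.Helper35.Cas
open Pool.Agent.Helper27.SH (evR)
open Pool.Agent.Helper33.SH (PI z0I b0I ZC)
open Pool.Agent.Helper20.RC (eM)

def L1_4 : Po :=
  [((0, 0, 0, 0), (-1, 1)), ((0, 1, 1, 0), (2, -2)), ((1, 0, 0, 1), (2, -2))]

def Q1_4 : Po :=
  [((0, 3, 1, 0), (18790481920, 18119393280)), ((2, 0, 0, 2), (39510343680, 31457280000)), ((0, 3, 2, 1), (-49828331520, 21076377600)), ((1, 4, 1, 0), (-3019898880, -3397386240)), ((2, 0, 1, 3), (-108889374720, 104516812800)), ((3, 1, 0, 2), (-157600972800, 3460300800)), ((0, 3, 3, 2), (-100270080000, -39872102400)), ((1, 4, 2, 1), (6763315200, -24379392000)), ((2, 0, 2, 4), (-17364418560, -268928286720)), ((2, 5, 1, 0), (-629145600, -629145600)), ((3,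 1, 1, 3), (503043850240, -429433815040)), ((4, 2, 0, 2), (140928614400, 17616076800))]

def M1_4 : List Mo :=
  [(0, 3, 1, 0), (2, 0, 0, 2), (0, 3, 2, 1), (1, 4, 1, 0), (2, 0, 1, 3), (3, 1, 0, 2), (0, 3, 3, 2), (1, 4, 2, 1), (2, 0, 2, 4), (2, 5, 1, 0), (3, 1, 1, 3), (4, 2, 0, 2)]

def L2_4 : Po :=
  [((1, 0, 0, 3), (1182, -162)), ((1, 0, 1, 2), (-2160, 0)), ((1, 0, 2, 1), (-222, 162)), ((1, 1, 0, 2), (-5220, 1836)), ((1, 1, 1, 1), (-5952, 0)), ((1, 2, 0, 1), (3840, -1008)), ((2, 0, 0, 2), (2952, -1368)), ((2, 0, 1, 1), (10692, -1836)), ((2, 1, 0, 1), (1584, 0)), ((3, 0, 0, 1), (-4896, 1008)), ((0, 1, 1, 2), (1182, -162)), ((0, 1, 2, 1), (-2160, 0)), ((0, 1, 3, 0), (-222, 162)), ((0, 2, 1, 1), (-5220, 1836)), ((0, 2, 2, 0), (-8904, 1368)), ((0, 3, 1, 0), (3840, -1008)), ((1, 1, 2, 0), (10692, -1836)), ((1, 2, 1, 0), (1584, 0)), ((2, 1, 1, 0), (-4896, 1008)), ((0, 0, 0, 2), (-591, 81)), ((0, 0,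 1, 1), (1080, 0)), ((0, 0, 2, 0), (111, -81)), ((0, 1, 0, 1), (2610, -918)), ((0, 1, 1, 0), (4452, -684)), ((0, 2, 0, 0), (-1920, 504)), ((1, 0, 0, 1), (-1476, 684)), ((1, 0, 1, 0), (-5346, 918)), ((1, 1, 0, 0), (-792, 0)), ((2, 0, 0, 0), (2448, -504))]

def Q2_4 : Po :=
  [((0, 3, 1, 0), (56725780561920, 12582106693632)), ((2, 0, 0, 2), (46775415078912, -26330297008128)), ((0, 3, 2, 1), (-62236592701440, 25816612208640)), ((1, 4, 1, 0), (-241570771107840, 55323540848640)), ((2, 0, 1, 3), (79271338967040, -13461702574080)), ((3, 1, 0, 2), (153564877946880, 135209932554240)), ((0, 3, 3, 2), (-209713889280000, -25422546862080)), ((1, 4, 2, 1), (-534942119362560, -735370794762240)), ((2, 0, 2, 4), (864214866984960, -153883689615360)), ((2, 5, 1, 0), (188635970273280, -54961656299520)), ((3, 1, 1, 3), (-377690259456000, 1566203927592960)), ((4, 2, 0, 2), (-963806956093440, -303628371886080)), ((0,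 3, 4, 3), (146399349964800, 386699939020800)), ((1, 4, 3, 2), (2502120230092800, -305540156620800)), ((2, 0, 3, 5), (-1397297597644800, 956294686310400)), ((2, 5, 2, 1), (1069018031063040, 744489379430400)), ((3, 1, 2, 4), (-7319754296524800, -2900291774054400)), ((3, 6, 1, 0), (-33739820236800, 8052560363520)), ((4, 2, 1, 3), (5562160172236800, -1596581845401600)), ((5, 3, 0, 2), (-257661547315200, 829585096704000))]

def M2_4 : List Mo :=
  [(0, 3, 1, 0), (2, 0, 0, 2), (0, 3, 2, 1), (1, 4, 1, 0), (2, 0, 1, 3), (3, 1, 0, 2), (0, 3, 3, 2), (1, 4, 2, 1), (2, 0, 2, 4), (2, 5, 1, 0), (3, 1, 1, 3), (4, 2, 0, 2), (0, 3, 4, 3), (1, 4, 3, 2), (2, 0, 3, 5), (2, 5, 2, 1), (3, 1, 2, 4), (3, 6, 1, 0), (4, 2, 1, 3), (5, 3, 0, 2)]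

def L3_4 : Po :=
  [((1, 0, 2, 1), (580, 1120)), ((1, 0, 1, 2), (-1800, -1800)), ((1, 0, 0, 3), (220, -320)), ((2, 0, 1, 1), (240, -5880)), ((2, 0, 0, 2), (-4000, -8560)), ((3, 0, 0, 1), (680, 4040)), ((1, 1, 1, 1), (-4960, -4960)), ((1, 1, 0, 2), (4320, 10440)), ((2, 1, 0, 1), (1320, 1320)), ((1, 2, 0, 1), (-1560, -4920)), ((0, 1, 3, 0), (580, 1120)), ((0, 1, 2, 1), (-1800, -1800)), ((0, 1, 1, 2), (220, -320)), ((1, 1, 2, 0), (240, -5880)), ((2, 1, 1, 0), (680, 4040)), ((0, 2, 2, 0), (-960, 3600)), ((0, 2, 1, 1), (4320, 10440)), ((1, 2, 1, 0), (1320, 1320)), ((0, 3, 1, 0), (-1560, -4920)), ((0, 0, 2, 0), (-290, -560)), ((0, 0, 1, 1), (900, 900)), ((0, 0, 0, 2), (-110, 160)), ((1, 0, 1, 0), (-120, 2940)), ((1, 0, 0, 1), (2000, 4280)), ((2, 0, 0, 0), (-340, -2020)), ((0, 1, 1, 0), (480, -1800)), ((0, 1, 0, 1), (-2160, -5220)), ((1, 1, 0, 0), (-660, -660)), ((0, 2, 0, 0), (780, 2460))]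

def Q3_4 : Po :=
  [((0, 3, 1, 0), (-3704409292800, -41714869862400)), ((2, 0, 0, 2), (-80025978142720, -59071906447360)), ((0, 3, 2, 1), (104217213665280, -75629844234240)), ((1, 4, 1, 0), (20103466844160, 63094747299840)), ((2, 0, 1, 3), (161434231111680, -115909255495680)), ((3, 1, 0, 2), (177058684600320, -76546383544320)), ((0, 3, 3, 2), (373377791426560, 62052641013760)), ((1, 4, 2, 1), (-360807074365440, 146437287444480)), ((2, 0, 2, 4), (748823661772800, 9238189178880)), ((2, 5, 1, 0), (-1045388328960, -10193668669440)), ((3, 1, 1, 3), (1624331507466240, 584676079042560)), ((4, 2, 0, 2), (-147730307481600, 165936774512640)), ((0, 3, 4, 3), (203748016128000, 276202940006400)), ((1, 4, 3, 2), (-844480433356800, -294003828326400)), ((2, 0, 3, 5), (-679666758451200, 178420993228800)), ((2, 5, 2, 1), (133179679703040, -109419366973440)), ((3, 1, 2, 4), (-6245445481267200, 1169771357798400)),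 ((3, 6, 1, 0), (-982473768960, -3067210629120)), ((4, 2, 1, 3), (-1818415752806400, -1377927639859200)), ((5, 3, 0, 2), (341045149696000, 72616404582400))]

def M3_4 : List Mo :=
  [(0, 3, 1, 0), (2, 0, 0, 2), (0, 3, 2, 1), (1, 4, 1, 0), (2, 0, 1, 3), (3, 1, 0, 2), (0, 3, 3, 2), (1, 4, 2, 1), (2, 0, 2, 4), (2, 5, 1, 0), (3, 1, 1, 3), (4, 2, 0, 2), (0, 3, 4, 3), (1, 4, 3, 2), (2, 0, 3, 5), (2, 5, 2, 1), (3, 1, 2, 4), (3, 6, 1, 0), (4, 2, 1, 3), (5, 3, 0, 2)]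

theorem e1_4 : P1 ((4 : ℕ) : ℤ) = L1_4 := by decide +kernel

theorem e2_4 : P2 ((4 : ℕ) : ℤ) = L2_4 := by decide +kernel

theorem e3_4 : P3 ((4 : ℕ) : ℤ) = L3_4 := by decide +kernel

theorem c1_4 : chkF L1_4 Z1 zs zcs (1 - (4 : ℕ)) (1 + (4 : ℕ)) ((4 : ℕ) : ℤ) 0 0 8 22 M1_4 Q1_4 = true := by
  decide +kernel

theorem c2_4 : chkF L2_4 Z1 zs zcs (-((4 : ℕ) + 1)) ((4 : ℕ) + 1) ((4 : ℕ) : ℤ) 0 0 8 126 M2_4 Q2_4 = true := by
  decide +kernel

theorem c3_4 : chkF L3_4 Z1 zs zcs (-((4 : ℕ) - 1)) ((4 : ℕ) - 1) ((4 : ℕ) : ℤ) 0 0 8 12 M3_4 Q3_4 = true := by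
  decide +kernel

theorem row_4 : RowC 4 8 22 126 12 M1_4 M2_4 M3_4 L1_4 L2_4 L3_4 Q1_4 Q2_4 Q3_4 where
  e1 := e1_4
  e2 := e2_4
  e3 := e3_4
  c1 := c1_4
  c2 := c2_4
  c3 := c3_4

/-- numbers of the row -/
def v_4 : List ℚ := [36755207701048, 798432981512358, 1468563218015193, 2754112087250726, 2974617101699454, 1674659150879000, 418664787719750]

/-- bound of the error, coefficients of `A^(6-k) |B|^k` -/
def w_4 : List ℚ := [67 / 25, 581 / 10, 5343 / 50, 20039 / 100, 5411 / 25, 2437 / 20, 3047 / 100]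

theorem d_4 : chkD (1 / 5) (1 / 8) 36755207701048 (addP (addP (Qs Q1_4 Q2_4 Q3_4) (twP (Qs Q1_4 Q2_4 Q3_4)))
    (smP (-536870912, 0) (Pool.Agent.Helper33.GM.eP 2))) v_4 = true := by
  decide +kernel

/-- **row `l = 4`** -/
theorem el_4 {A : ℝ} {B : ℂ} (c : ZC) (hR : |A| + 8 / 5 * ‖B‖ ≤ 1 / 5) :
    ‖eM ((PI c A B).F1 (b0I A B) (z0I A B)) ((PI c A B).F2 (b0I A B) (z0I A B)) (PI c A B).ph1 (PI c A B).ph2
      ((4 : ℕ) : ℝ) - evP A B (Pool.Agent.Helper33.GM.eP 2) / 25600‖ ≤ evR |A| ‖B‖ (hom6 w_4) := by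
  refine row_fin row_4 (by decide) (by norm_num) (by norm_num) (by norm_num) (by norm_num) _ v_4 536870912 (by norm_num) 36755207701048 ?_
    d_4 c hR w_4 (by decide +kernel)
  norm_num

end Helper42.SH
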