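import Pool.Agent.Helper42.SH.R0
import Pool.Agent.Helper42.SH.R1
import Pool.Agent.Helper42.SH.R2
import Pool.Agent.Helper42.SH.R3
import Pool.Agent.Helper42.SH.R4
import Pool.Agent.Helper42.SH.R5

/-!
# Project RC, SHARP: **the moments at the base of zone I** (structure `EH` of helper33)
-/

set_option autoImplicit false

namespace Helper42.SH

open Pool.Agent.Helper35.Cas
open Pool.Agent.Helper27.SH (evR)
open Pool.Agent.Helper33.SH (PI z0I b0I ZC)
open Pool.Agent.Helper33.GM (EH eP)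
open Helper49.Sharp
open Pool.Agent.Helper20.RC (eM lk)

/-- bounds of the errors, homogeneous of degree 6 -/
def dP : ℕ → List (ℕ × ℕ × ℚ)
  | 0 => [(6, 0, 3 / 20), (5, 1, 79 / 100), (4, 2, 111 / 25), (3, 3, 601 / 100), (2, 4, 161 / 20), (1, 5, 199 / 50), (0, 6, 111 / 100)]
  | 1 => [(6, 0, 3 / 25), (5, 1, 107 / 50), (4, 2, 219 / 50), (3, 3, 249 / 25), (2, 4, 213 / 25), (1, 5, 172 / 25), (0, 6, 32 / 25)]
  | 2 => [(6, 0, 67 / 25), (5, 1, 581 / 10), (4, 2, 5343 / 50), (3, 3, 20039 / 100), (2, 4, 5411 / 25), (1, 5, 2437 / 20), (0, 6, 3047 / 100)]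
  | 3 => [(6, 0, 2373 / 25), (5, 1, 1549 / 100), (4, 2, 15083 / 100), (3, 3, 27483 / 100), (2, 4, 21493 / 100), (1, 5, 7839 / 100), (0, 6, 98 / 5)]
  | 4 => [(6, 0, 29 / 2), (5, 1, 21763 / 25), (4, 2, 12456 / 25), (3, 3, 70852 / 25), (2, 4, 110053 / 100), (1, 5, 75443 / 100), (0, 6, 4127 / 25)]
  | 5 => [(6, 0, 8999 / 100), (5, 1, 82799 / 100), (4, 2, 189413 / 50), (3, 3, 147149 / 20), (2, 4, 526873 / 50), (1, 5, 409991 / 100), (0, 6, 118873 / 100)]
  | _ => []

theorem h6_0 : hom6 w_0 = dP 0 := by decide +kernel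
theorem h6_1 : hom6 w_2 = dP 1 := by decide +kernel
theorem h6_2 : hom6 w_4 = dP 2 := by decide +kernel
theorem h6_3 : hom6 w_6 = dP 3 := by decide +kernel
theorem h6_4 : hom6 w_8 = dP 4 := by decide +kernel
theorem h6_5 : hom6 w_10 = dP 5 := by decide +kernel

/-- **the moments at the base**: `e_l(s)` through the degree 4, with errors homogeneous of degree 6 -/
theorem hEH (c : ZC) {A : ℝ} {B : ℂ} (hA : 0 ≤ A) (hR : A + 8 / 5 * ‖B‖ ≤ 1 / 5) :
    EH (PI c A B) A B (fun j => evR A ‖B‖ (dP j)) := by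
  have hR' : |A| + 8 / 5 * ‖B‖ ≤ 1 / 5 := by rwa [abs_of_nonneg hA]
  refine ⟨?_, ?_⟩
  · have h := el_0 c hR'
    rw [h6_0, abs_of_nonneg hA] at h
    refine le_trans ?_ h
    have e : (PI c A B).e00 (b0I A B) (z0I A B) - (evP A B (eP 0) / 25600).re =
        (eM ((PI c A B).F1 (b0I A B) (z0I A B)) ((PI c A B).F2 (b0I A B) (z0I A B)) (PI c A B).ph1 (PI c A B).ph2
          ((0 : ℕ) : ℝ) - evP A B (eP 0) / 25600).re := by
      rw [Complex.sub_re, Nat.cast_zero]
      rfl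
    rw [e]
    exact Complex.abs_re_le_norm _
  · intro k hk
    have key : ∀ j : ℕ, (PI c A B).eA (b0I A B) (z0I A B) j =
        eM ((PI c A B).F1 (b0I A B) (z0I A B)) ((PI c A B).F2 (b0I A B) (z0I A B)) (PI c A B).ph1 (PI c A B).ph2
          ((2 * j + 2 : ℕ) : ℝ) := by
      intro j
      show eM _ _ _ _ (lk j) = _
      unfold lk
      push_cast
      rfl
    rw [key]
    interval_cases k
    · have h := el_2 c hR'
      rwa [h6_1, abs_of_nonneg hA] at h
    · have h := el_4 c hR'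
      rwa [h6_2, abs_of_nonneg hA] at h
    · have h := el_6 c hR'
      rwa [h6_3, abs_of_nonneg hA] at h
    · have h := el_8 c hR'
      rwa [h6_4, abs_of_nonneg hA] at h
    · have h := el_10 c hR'
      rwa [h6_5, abs_of_nonneg hA] at h

end Helper42.SH
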