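import Pool.Agent.Helper42.SH.HFend
import Pool.Agent.Helper57.SH.PTail

/-!
# Project RC, SHARP, cell engine: the diagonal part `gDG` of a cell as the list of helper25's matrix
-/

set_option autoImplicit false

namespace Helper42.SH

open Helper95.SH
open Helper25.SH.Mat
open Helper43.CL (LB)
open Pool.Agent.Helper57.SH (PTd PTd_eq okDg)

/-- `f i, f (i + 1), …` -/
def mkd (f : ℕ → ℕ) : ℕ → ℕ → List ℕ
  | 0, _ => []
  | n + 1, i => f i :: mkd f n (Nat.succ i)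

theorem mkd_getD (f : ℕ → ℕ) : ∀ (n i j : ℕ), j < n → (mkd f n i).getD j 0 = f (i + j)
  | 0, _, _, h => absurd h (by omega)
  | n + 1, i, 0, _ => rfl
  | n + 1, i, j + 1, h => by
    show (mkd f n (i + 1)).getD j 0 = _
    rw [mkd_getD f n (i + 1) j (by omega), show i + 1 + j = i + (j + 1) by ring]

/-- zeros -/
def zrs (n : ℕ) : List ℕ := mkd (fun _ => 0) n 0

theorem zrs_getD {n i : ℕ} (h : i < n) : (zrs n).getD i 0 = 0 := mkd_getD _ n 0 i h

/-- the diagonal of a cell -/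
def dgL (Dp Df : ℕ → ℕ) (n : ℕ) : List ℕ := mkd (fun i => Nat.add (Dp i) (Df i)) n 0

/-- **the diagonal part** -/
theorem LB_DG {nu alI : ℝ} (h1 : 0 < nu) (h2 : 0 < alI) (Dp Df : ℕ → ℕ) (n : ℕ) :
    LB n (10 ^ 9 * 2 ^ 112) (fun v => gDG nu alI (PTd nu alI ((10 ^ 9 * 2 ^ 112 : ℕ) : ℝ) Dp n)
      (fun v => ∑ i ∈ Finset.range n, (Df i : ℝ) / (10 ^ 9 * 2 ^ 112) * v i ^ 2) v)
      (dgv n (zrs n) (dgL Dp Df n)) ((0 : ℕ) : ℝ) := by
  intro v _
  unfold gDG dgv
  beta_reduce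
  rw [PTd_eq h1 h2]
  push_cast
  refine le_of_eq ?_
  rw [zero_mul, sub_zero]
  have e : ∑ i ∈ Finset.range n, (((zrs n).getD i 0 : ℝ) - ((dgL Dp Df n).getD i 0 : ℝ)) * v i ^ 2 =
      ∑ i ∈ Finset.range n, (-((Dp i : ℝ) * v i ^ 2) - (Df i : ℝ) * v i ^ 2) := by
    refine Finset.sum_congr rfl fun i hi => ?_
    have hi' := Finset.mem_range.1 hi
    have e1 : (dgL Dp Df n).getD i 0 = Dp i + Df i := by
      unfold dgL
      rw [mkd_getD _ n 0 i hi', zero_add]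
      rfl
    rw [zrs_getD hi', e1]
    push_cast
    ring
  rw [e, Finset.sum_sub_distrib, Finset.sum_neg_distrib]
  have e2 : ∑ i ∈ Finset.range n, (Df i : ℝ) / (10 ^ 9 * 2 ^ 112) * v i ^ 2 =
      (∑ i ∈ Finset.range n, (Df i : ℝ) * v i ^ 2) / (10 ^ 9 * 2 ^ 112) := by
    rw [Finset.sum_div]
    refine Finset.sum_congr rfl fun i _ => ?_
    ring
  rw [e2]
  norm_num
  ring

/-! ### the weights of `PT`, computed -/

/-- the least weight, rounded up -/
def dgP (num den : ℕ) (τ : ℕ → ℕ) (i : ℕ) : ℕ := Nat.succ (Nat.div (Nat.mul num (τ i)) den)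

theorem okDg_dgP {num den : ℕ} (hd : 0 < den) (τ : ℕ → ℕ) : ∀ n, okDg num den τ (dgP num den τ) n = true
  | 0 => rfl
  | n + 1 => by
    unfold okDg
    rw [okDg_dgP hd τ n]
    have h : Nat.ble (Nat.mul num (τ n)) (Nat.mul den (dgP num den τ n)) = true := by
      refine Nat.ble_eq_true_of_le ?_
      show num * τ n ≤ den * (num * τ n / den + 1)
      exact (Nat.lt_mul_div_succ _ hd).le
    rw [h]
    rfl

/-! ### the end: one comparison -/

/-- the sum of the errors of the 14 pieces -/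
def errS (E : ℕ → ℕ) : ℕ := Nat.add (E 0) (Nat.add (E 1) (Nat.add (E 2) (Nat.add (E 3) (Nat.add (E 4) (Nat.add (E 5)
  (Nat.add (E 6) (Nat.add (E 7) (Nat.add (E 8) (Nat.add (E 9) (Nat.add (E 10) (Nat.add (E 11) (Nat.add (E 12) (E 13)))))))))))))

theorem errS_eq (E : ℕ → ℕ) : ∑ i ∈ Finset.range 14, E i = errS E := by
  simp only [Finset.sum_range_succ, Finset.sum_range_zero, errS, Nat.add_eq]
  ring

/-- `∑ E + F + n (e + 1) ≤ T` -/
def okE (E : ℕ → ℕ) (F n e T : ℕ) : Bool := Nat.ble (Nat.add (Nat.add (errS E) F) (Nat.mul n (Nat.succ e))) T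

theorem okE_sound {E : ℕ → ℕ} {F n e T : ℕ} (h : okE E F n e T = true) :
    ∑ i ∈ Finset.range 14, E i + F + n * (e + 1) ≤ T := by
  rw [errS_eq]
  exact Nat.le_of_ble_eq_true h

end Helper42.SH
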