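import Pool.Agent.Helper42.SH.Wts
import Pool.Agent.Helper42.SH.DGk

/-!
# Project RC, SHARP, cell engine: the diagonal part of a record
-/

set_option autoImplicit false

namespace Helper42.SH

open Helper49.Sharp Helper49.Cell
open Helper95.SH
open Helper25.SH.Mat (dgv)
open Helper43.CL (LB)
open Helper70.SH (cd Len)
open Pool.Agent.Helper56.TS (TI)
open Pool.Agent.Helper75.SH (WtR okW)
open Pool.Agent.Helper57.SH (PTd)

variable {R : Rec} {C : Crt} (h : R.ok C = true) {K0 : ℕ} (len : Len R K0) (s : ℕ) {T : TI} {W : WtR}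

theorem alI_pos (hW : okW R T W = true) : (0 : ℝ) < (W.alI : ℝ) / 1000 := by
  have hW' := hW
  unfold okW at hW'
  rw [bif_iff] at hW'
  obtain ⟨-, h2⟩ := hW'
  have g1 := (of_decide_eq_true h2).1
  have : (0 : ℝ) < W.alI := by exact_mod_cast g1
  positivity

include h in
theorem cnu_pos : (0 : ℝ) < (cd R h len s).P.nu := by
  show (0 : ℝ) < (R.nu : ℝ) / 100000
  have : (0 : ℝ) < R.nu := by exact_mod_cast nu_pos h
  positivity

/-- **the field `hd` of a record** -/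
theorem LB_DGr (hW : okW R T W = true) (Dp Df : ℕ → ℕ) (n : ℕ) :
    LB n (10 ^ 9 * 2 ^ 112) (fun v => gDG (cd R h len s).P.nu ((W.alI : ℝ) / 1000)
      (PTd (cd R h len s).P.nu ((W.alI : ℝ) / 1000) ((10 ^ 9 * 2 ^ 112 : ℕ) : ℝ) Dp n)
      (fun v => ∑ i ∈ Finset.range n, (Df i : ℝ) / (10 ^ 9 * 2 ^ 112) * v i ^ 2) v)
      (dgv n (zrs n) (dgL Dp Df n)) ((0 : ℕ) : ℝ) :=
  LB_DG (cnu_pos h len s) (alI_pos hW) Dp Df n

end Helper42.SH
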