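import Mathlib

/-!
# Project RC, track B (SHARP), link (4)/(6): Taylor bounds for the length of one edge

`√((1+s)² + n²)` is the norm of `1 + ξ`, `ξ = s + i n`, `|ξ| ≤ 1/2`.
-/

set_option autoImplicit false

namespace Helper42.SH

/-- Taylor polynomial of degree 5 of `|1 + s + i n|` -/
noncomputable def T5 (s n : ℝ) : ℝ :=
  1 + s + n ^ 2 / 2 - n ^ 2 * s / 2 + (n ^ 2 * s ^ 2 / 2 - n ^ 4 / 8) +
    (-(n ^ 2 * s ^ 3) / 2 + 3 * n ^ 4 * s / 8)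

/-- Taylor polynomial of degree 7 of `|1 + s + i n|` -/
noncomputable def T7 (s n : ℝ) : ℝ :=
  T5 s n + (n ^ 2 * s ^ 4 / 2 - 3 * n ^ 4 * s ^ 2 / 4 + n ^ 6 / 16) +
    (-(n ^ 2 * s ^ 5) / 2 + 5 * n ^ 4 * s ^ 3 / 4 - 5 * n ^ 6 * s / 16)

theorem sqrt_ge4 {x : ℝ} (h0 : 0 ≤ x) (h1 : x ≤ 1) :
    1 + x / 2 - x ^ 2 / 8 + x ^ 3 / 16 - 5 * x ^ 4 / 128 ≤ √(1 + x) := by
  refine le_trans (le_abs_self _) (Real.abs_le_sqrt ?_)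
  have h2 : 1 + x - (1 + x / 2 - x ^ 2 / 8 + x ^ 3 / 16 - 5 * x ^ 4 / 128) ^ 2 =
      x ^ 5 * (7 / 128 - 7 / 512 * x + 5 / 1024 * x ^ 2 - 25 / 16384 * x ^ 3) := by ring
  have h3 : x ^ 3 ≤ 1 := pow_le_one₀ h0 h1
  have h4 : 0 ≤ 7 / 128 - 7 / 512 * x + 5 / 1024 * x ^ 2 - 25 / 16384 * x ^ 3 := by
    nlinarith [sq_nonneg x]
  have h5 := mul_nonneg (pow_nonneg h0 5) h4
  linarith

/-- `A`, `u = 1/A`: expansion in `n²` -/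
theorem sqrt_AB {A u n : ℝ} (hA : 0 < A) (hu : u * A = 1) (hn : n ^ 2 * u ^ 2 ≤ 1) :
    A + n ^ 2 * u / 2 - n ^ 4 * u ^ 3 / 8 + n ^ 6 * u ^ 5 / 16 - 5 * (n ^ 8 * u ^ 7) / 128 ≤
      √(A ^ 2 + n ^ 2) := by
  have h0 : 0 ≤ n ^ 2 * u ^ 2 := by positivity
  have h1 := sqrt_ge4 h0 hn
  have h2 : √(A ^ 2 + n ^ 2) = A * √(1 + n ^ 2 * u ^ 2) := by
    have e1 : A ^ 2 + n ^ 2 = A ^ 2 * (1 + n ^ 2 * u ^ 2) := by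
      have : A ^ 2 * (1 + n ^ 2 * u ^ 2) = A ^ 2 + n ^ 2 * (u * A) ^ 2 := by ring
      rw [this, hu]
      ring
    rw [e1, Real.sqrt_mul (sq_nonneg A), Real.sqrt_sq hA.le]
  rw [h2]
  have h3 := mul_le_mul_of_nonneg_left h1 hA.le
  refine le_trans (le_of_eq ?_) h3
  have e2 : A * (1 + n ^ 2 * u ^ 2 / 2 - (n ^ 2 * u ^ 2) ^ 2 / 8 + (n ^ 2 * u ^ 2) ^ 3 / 16 -
      5 * (n ^ 2 * u ^ 2) ^ 4 / 128) =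
      A + n ^ 2 * u / 2 * (u * A) - n ^ 4 * u ^ 3 / 8 * (u * A) + n ^ 6 * u ^ 5 / 16 * (u * A) -
      5 * (n ^ 8 * u ^ 7) / 128 * (u * A) := by ring
  rw [e2, hu]
  ring

section

variable {s n u : ℝ}

theorem s_bd (h : s ^ 2 + n ^ 2 ≤ 1 / 4) : -(1 / 2) ≤ s ∧ s ≤ 1 / 2 := by
  constructor <;> nlinarith [sq_nonneg n]

theorem n_le (h : s ^ 2 + n ^ 2 ≤ 1 / 4) : n ^ 2 ≤ (1 - 4 * s ^ 2) * (s ^ 2 + n ^ 2) := by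
  nlinarith [mul_nonneg (sq_nonneg s) (sub_nonneg.2 h)]

theorem u_pos (hs : -(1 / 2) ≤ s) (hu : u * (1 + s) = 1) : 0 < u := by
  by_contra hc
  push Not at hc
  nlinarith

/-- `n² u² ≤ (4/3) |ξ|²` -/
theorem nu_le (h : s ^ 2 + n ^ 2 ≤ 1 / 4) (hu : u * (1 + s) = 1) :
    n ^ 2 * u ^ 2 ≤ 4 / 3 * (s ^ 2 + n ^ 2) := by
  have h1 := n_le h
  have hr : 0 ≤ s ^ 2 + n ^ 2 := by positivity
  have h2 : 1 - 4 * s ^ 2 ≤ 4 / 3 * (1 + s) ^ 2 := by nlinarith [sq_nonneg (1 + 4 * s)]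
  have h3 : n ^ 2 ≤ 4 / 3 * (1 + s) ^ 2 * (s ^ 2 + n ^ 2) :=
    h1.trans (mul_le_mul_of_nonneg_right h2 hr)
  have h4 := mul_le_mul_of_nonneg_right h3 (sq_nonneg u)
  have h5 : 4 / 3 * (1 + s) ^ 2 * (s ^ 2 + n ^ 2) * u ^ 2 =
      4 / 3 * (s ^ 2 + n ^ 2) * (u * (1 + s)) ^ 2 := by ring
  rw [h5, hu] at h4
  linarith

/-- `n⁸ u⁷ ≤ 2.5411 |ξ|⁸` -/
theorem n8_le (h : s ^ 2 + n ^ 2 ≤ 1 / 4) (hu : u * (1 + s) = 1) :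
    n ^ 8 * u ^ 7 ≤ 64 / 27 * (134 / 125) * (s ^ 2 + n ^ 2) ^ 4 := by
  obtain ⟨hs1, hs2⟩ := s_bd h
  have hup := u_pos hs1 hu
  have h1 := n_le h
  have hr : 0 ≤ s ^ 2 + n ^ 2 := by positivity
  have h2 := nu_le h hu
  have h3 : 1 - 4 * s ^ 2 ≤ 134 / 125 * (1 + s) := by nlinarith [sq_nonneg (s + 134 / 1000)]
  have h4 : n ^ 2 ≤ 134 / 125 * (1 + s) * (s ^ 2 + n ^ 2) :=
    h1.trans (mul_le_mul_of_nonneg_right h3 hr)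
  have h5 : n ^ 2 * u ≤ 134 / 125 * (s ^ 2 + n ^ 2) := by
    have h6 := mul_le_mul_of_nonneg_right h4 hup.le
    have h7 : 134 / 125 * (1 + s) * (s ^ 2 + n ^ 2) * u =
        134 / 125 * (s ^ 2 + n ^ 2) * (u * (1 + s)) := by ring
    rw [h7, hu, mul_one] at h6
    exact h6
  have h8 : (n ^ 2 * u ^ 2) ^ 3 ≤ (4 / 3 * (s ^ 2 + n ^ 2)) ^ 3 :=
    pow_le_pow_left₀ (by positivity) h2 3
  have h9 : (n ^ 2 * u ^ 2) ^ 3 * (n ^ 2 * u) ≤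
      (4 / 3 * (s ^ 2 + n ^ 2)) ^ 3 * (134 / 125 * (s ^ 2 + n ^ 2)) :=
    mul_le_mul h8 h5 (by positivity) (by positivity)
  have e1 : n ^ 8 * u ^ 7 = (n ^ 2 * u ^ 2) ^ 3 * (n ^ 2 * u) := by ring
  have e2 : 64 / 27 * (134 / 125) * (s ^ 2 + n ^ 2) ^ 4 =
      (4 / 3 * (s ^ 2 + n ^ 2)) ^ 3 * (134 / 125 * (s ^ 2 + n ^ 2)) := by ring
  rw [e1, e2]
  exact h9

theorem u1_ge (hs : -(1 / 2) ≤ s) (hu : u * (1 + s) = 1) :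
    1 - s + s ^ 2 - s ^ 3 + s ^ 4 - s ^ 5 ≤ u := by
  have hA : 0 < 1 + s := by linarith
  refine le_of_mul_le_mul_right ?_ hA
  rw [hu]
  have h1 : (1 - s + s ^ 2 - s ^ 3 + s ^ 4 - s ^ 5) * (1 + s) = 1 - (s ^ 3) ^ 2 := by ring
  rw [h1]
  linarith [sq_nonneg (s ^ 3)]

theorem u3_le (hs : -(1 / 2) ≤ s) (hu : u * (1 + s) = 1) :
    u ^ 3 ≤ 1 - 3 * s + 6 * s ^ 2 - 10 * s ^ 3 + s ^ 4 * (15 - 21 * s + 74 * s ^ 2) := by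
  have hA : 0 < 1 + s := by linarith
  refine le_of_mul_le_mul_right ?_ (pow_pos hA 3)
  rw [← mul_pow, hu, one_pow]
  have h1 : (1 - 3 * s + 6 * s ^ 2 - 10 * s ^ 3 + s ^ 4 * (15 - 21 * s + 74 * s ^ 2)) * (1 + s) ^ 3 =
      1 + s ^ 6 * ((1 + 2 * s) * (46 + 82 * s + 37 * s ^ 2)) := by ring
  rw [h1]
  have h2 : 0 ≤ (1 + 2 * s) * (46 + 82 * s + 37 * s ^ 2) :=
    mul_nonneg (by linarith) (by nlinarith [sq_nonneg s])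
  have h3 : 0 ≤ s ^ 6 * ((1 + 2 * s) * (46 + 82 * s + 37 * s ^ 2)) :=
    mul_nonneg (by positivity) h2
  linarith

theorem u5_ge (hs : -(1 / 2) ≤ s) (hu : u * (1 + s) = 1) : 1 - 5 * s ≤ u ^ 5 := by
  have hA : 0 < 1 + s := by linarith
  refine le_of_mul_le_mul_right ?_ (pow_pos hA 5)
  rw [← mul_pow, hu, one_pow]
  have h1 : (1 - 5 * s) * (1 + s) ^ 5 =
      1 - s ^ 2 * (15 + 40 * s + 45 * s ^ 2 + 24 * s ^ 3 + 5 * s ^ 4) := by ring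
  rw [h1]
  have h2 : 0 ≤ 15 + 40 * s + 45 * s ^ 2 + 24 * s ^ 3 + 5 * s ^ 4 := by
    nlinarith [sq_nonneg (s + 1 / 2), sq_nonneg (s * (s + 1 / 2)), sq_nonneg s, sq_nonneg (s ^ 2)]
  have h3 : 0 ≤ s ^ 2 * (15 + 40 * s + 45 * s ^ 2 + 24 * s ^ 3 + 5 * s ^ 4) :=
    mul_nonneg (sq_nonneg s) h2
  linarith

theorem amgm23 {x y : ℝ} (hx : 0 ≤ x) (hy : 0 ≤ y) : x ^ 2 * y ^ 3 ≤ 108 / 3125 * (x + y) ^ 5 := by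
  have h1 : 108 / 3125 * (x + y) ^ 5 - x ^ 2 * y ^ 3 =
      (3 * x - 2 * y) ^ 2 * (12 * x ^ 3 + 76 * x ^ 2 * y + 216 * x * y ^ 2 + 27 * y ^ 3) / 3125 := by
    ring
  have h2 : 0 ≤ (3 * x - 2 * y) ^ 2 * (12 * x ^ 3 + 76 * x ^ 2 * y + 216 * x * y ^ 2 + 27 * y ^ 3) / 3125 := by
    positivity
  linarith

/-- the remainder of order 8 -/
theorem rem8 (h : s ^ 2 + n ^ 2 ≤ 1 / 4) :
    n ^ 4 * (s ^ 4 * (15 - 21 * s + 74 * s ^ 2)) ≤ 2068 / 1000 * (s ^ 2 + n ^ 2) ^ 4 := by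
  have hr : 0 ≤ s ^ 2 + n ^ 2 := by positivity
  have h1 : 15 - 21 * s + 74 * s ^ 2 ≤ 1889 / 100 + 1024 / 10 * s ^ 2 := by
    nlinarith [sq_nonneg (s + 37 / 100)]
  have h2 : n ^ 4 * s ^ 4 ≤ (s ^ 2 + n ^ 2) ^ 4 / 16 := by
    have h3 : n ^ 2 * s ^ 2 ≤ (s ^ 2 + n ^ 2) ^ 2 / 4 := by nlinarith [sq_nonneg (s ^ 2 - n ^ 2)]
    have h4 := pow_le_pow_left₀ (by positivity) h3 2
    calc n ^ 4 * s ^ 4 = (n ^ 2 * s ^ 2) ^ 2 := by ring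
      _ ≤ ((s ^ 2 + n ^ 2) ^ 2 / 4) ^ 2 := h4
      _ = _ := by ring
  have h5 : n ^ 4 * s ^ 6 ≤ 27 / 3125 * (s ^ 2 + n ^ 2) ^ 4 := by
    have h6 := amgm23 (sq_nonneg n) (sq_nonneg s)
    have h7 : (s ^ 2 + n ^ 2) ^ 5 ≤ (s ^ 2 + n ^ 2) ^ 4 * (1 / 4) := by
      calc (s ^ 2 + n ^ 2) ^ 5 = (s ^ 2 + n ^ 2) ^ 4 * (s ^ 2 + n ^ 2) := by ring
        _ ≤ _ := mul_le_mul_of_nonneg_left h (by positivity)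
    calc n ^ 4 * s ^ 6 = (n ^ 2) ^ 2 * (s ^ 2) ^ 3 := by ring
      _ ≤ 108 / 3125 * (n ^ 2 + s ^ 2) ^ 5 := h6
      _ = 108 / 3125 * (s ^ 2 + n ^ 2) ^ 5 := by ring
      _ ≤ 108 / 3125 * ((s ^ 2 + n ^ 2) ^ 4 * (1 / 4)) := by gcongr
      _ = _ := by ring
  have h8 : n ^ 4 * (s ^ 4 * (15 - 21 * s + 74 * s ^ 2)) ≤
      n ^ 4 * (s ^ 4 * (1889 / 100 + 1024 / 10 * s ^ 2)) := by gcongr
  have h9 : n ^ 4 * (s ^ 4 * (1889 / 100 + 1024 / 10 * s ^ 2)) =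
      1889 / 100 * (n ^ 4 * s ^ 4) + 1024 / 10 * (n ^ 4 * s ^ 6) := by ring
  have h10 : 0 ≤ (s ^ 2 + n ^ 2) ^ 4 := by positivity
  linarith

/-- VALUE, degree 7: `|1 + ξ| ≥ T7 - 0.36 |ξ|⁸` for `|ξ| ≤ 1/2` -/
theorem edge_T7 (h : s ^ 2 + n ^ 2 ≤ 1 / 4) :
    T7 s n - 9 / 25 * (s ^ 2 + n ^ 2) ^ 4 ≤ √((1 + s) ^ 2 + n ^ 2) := by
  obtain ⟨hs1, hs2⟩ := s_bd h
  have hA : 0 < 1 + s := by linarith
  have hu : (1 + s)⁻¹ * (1 + s) = 1 := inv_mul_cancel₀ hA.ne'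
  set u := (1 + s)⁻¹ with hudef
  have hup := u_pos hs1 hu
  have hr : 0 ≤ s ^ 2 + n ^ 2 := by positivity
  have h0 := nu_le h hu
  have h1 := sqrt_AB (n := n) hA hu (by linarith)
  have h2 := u1_ge hs1 hu
  have h3 := u3_le hs1 hu
  have h5 := u5_ge hs1 hu
  have h7 := n8_le h hu
  have h8 := rem8 h
  have g2 := mul_le_mul_of_nonneg_left h2 (by positivity : (0 : ℝ) ≤ n ^ 2)
  have g3 := mul_le_mul_of_nonneg_left h3 (by positivity : (0 : ℝ) ≤ n ^ 4)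
  have g5 := mul_le_mul_of_nonneg_left h5 (by positivity : (0 : ℝ) ≤ n ^ 6)
  have h10 : 0 ≤ (s ^ 2 + n ^ 2) ^ 4 := by positivity
  unfold T7 T5
  nlinarith [h1, g2, g3, g5, h7, h8, h10]

end

end Helper42.SH
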