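import Pool.Agent.Helper42.SH.Fam

/-!
# Project RC, SHARP: the aligned moments `e_l(b0, z0)` of the base of zone I

`el_gen`: `e_N = evP A B E / (3200 * 16^K) + error`, from three runs of the fast moment program.
-/

set_option autoImplicit false

open MeasureTheory Set Filter Metric

namespace Helper42.SH

open Helper49.LT hiding sg s3
open Helper49.RC (om)
open Helper44.GQ Helper49.Sharp
open Helper56.RC (fc)
open Pool.Agent.Helper35.RC
open Pool.Agent.Helper35.Cas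
open Pool.Agent.Helper33.SH (PI z0I b0I ζ1 ζ2 om2 ZC cI om2_eq)
open Pool.Agent.Helper20.RC (wR eM eD lk)

/-- the weight -/
def Wl : Po := [((0, 0, 0, 0), (1, 0)), ((0, 1, 1, 0), (-2, 0)), ((1, 0, 0, 1), (-2, 0))]
/-- `200 b2_0` -/
def B2l : Po := [((0, 0, 0, 2), (10, 0)), ((0, 0, 1, 1), (-45, 0)), ((0, 0, 2, 0), (10, 0)), ((0, 1, 0, 1), (57, 0)), ((0, 1, 1, 0), (-62, 0)), ((0, 2, 0, 0), (-11, 0)), ((1, 0, 0, 1), (-62, 0)), ((1, 0, 1, 0), (57, 0)), ((1, 1, 0, 0), (33, 0)), ((2, 0, 0, 0), (-11, 0))]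
/-- `200 b3_0 = i X3` -/
def X3l : Po := [((0, 0, 0, 2), (-9, 0)), ((0, 0, 2, 0), (9, 0)), ((0, 1, 0, 1), (102, 0)), ((0, 1, 1, 0), (76, 0)), ((0, 2, 0, 0), (-56, 0)), ((1, 0, 0, 1), (-76, 0)), ((1, 0, 1, 0), (-102, 0)), ((2, 0, 0, 0), (56, 0))]
/-- `800 β` -/
def BTl : Po := [((0, 0, 0, 2), (29, -56)), ((0, 0, 1, 1), (-90, 90)), ((0, 0, 2, 0), (11, 16)), ((0, 1, 0, 1), (12, 294)), ((0, 1, 1, 0), (-200, 428)), ((0, 2, 0, 0), (34, -202)), ((1, 0, 0, 1), (-48, -180)), ((1, 0, 1, 0), (216, -522)), ((1, 1, 0, 0), (66, -66)), ((2, 0, 0, 0), (-78, 246))]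

/-- the lists of the three pieces -/
def P1 (N : ℤ) : Po := smP (om2 (-N)) Wl
def P2 (N : ℤ) : Po := smP (mulC (1 - N, 0) (om2 (-(N + 1)))) (mulP Wl BTl)
def P3 (N : ℤ) : Po := smP (mulC (1 + N, 0) (om2 (-(N - 1)))) (mulP Wl (cjP BTl))

theorem Wl_eq (A : ℝ) (B : ℂ) (c : ZC) (t : ℝ) : evP (uu A t) (vv B t) Wl = ((PI c A B).w t : ℂ) := by
  have h1 : (PI c A B).w t = wR (-2 * A * (starRingEnd ℂ) B) 0 0 t := rfl
  rw [h1]
  unfold wR Wl
  simp only [evP_cons, evP_nil, evC, evM, zero_mul, add_zero, pow_zero, pow_one, mul_one, one_mul]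
  have e1 : uu A t * (starRingEnd ℂ) (vv B t) = A * (starRingEnd ℂ) B * ee (2 * t) := by
    unfold uu vv
    rw [map_mul, Pool.Agent.Helper35.Cas.conj_ee]
    have : ee (2 * t) = ee (-3 * t) * ee (-(-5 * t)) := by rw [← ee_add]; congr 1; ring
    rw [this]
    ring
  have e2 : (starRingEnd ℂ) (uu A t) * vv B t = (starRingEnd ℂ) (A * (starRingEnd ℂ) B * ee (2 * t)) := by
    rw [← e1, map_mul, Complex.conj_conj]
  set x : ℂ := A * (starRingEnd ℂ) B * ee (2 * t) with hx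
  have e3 : (-2 * (A : ℂ) * (starRingEnd ℂ) B * ee (2 * t)) = -2 * x := by rw [hx]; ring
  rw [e3]
  have h2 : ((starRingEnd ℂ) x + x : ℂ) = ((2 * x.re : ℝ) : ℂ) := by
    rw [add_comm, Complex.add_conj]
  have h3 : (-2 * x : ℂ).re = -2 * x.re := by simp
  rw [h3]
  push_cast at h2 ⊢
  linear_combination (-2 : ℂ) * h2 + (-2 : ℂ) * e1 + (-2 : ℂ) * e2

theorem two_re (x : ℂ) : ((2 * x.re : ℝ) : ℂ) = x + (starRingEnd ℂ) x := by
  rw [Complex.add_conj]

theorem nsq (x : ℂ) : ((‖x‖ ^ 2 : ℝ) : ℂ) = x * (starRingEnd ℂ) x := by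
  rw [Complex.mul_conj, Complex.normSq_eq_norm_sq]

theorem b2_eq (A : ℝ) (B : ℂ) (t : ℝ) : evP (uu A t) (vv B t) B2l = 200 * (((b0I A B t).re : ℝ) : ℂ) := by
  have h : (b0I A B t).re = Pool.Agent.Helper43.SH.b2p cI (uu A t) (vv B t) := by
    show (Pool.Agent.Helper43.SH.bB cI A B t).re = _
    rw [Pool.Agent.Helper43.SH.bB_re]
    rfl
  rw [h]
  unfold Pool.Agent.Helper43.SH.b2p cI
  rw [Complex.ofReal_add, Complex.ofReal_add, two_re, Complex.ofReal_mul, Complex.ofReal_mul, nsq, nsq]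
  unfold B2l
  simp only [evP_cons, evP_nil, evC, evM, map_add, map_mul, Complex.conj_ofReal, Complex.conj_conj]
  push_cast
  ring

theorem b3_eq (A : ℝ) (B : ℂ) (t : ℝ) :
    Complex.I * evP (uu A t) (vv B t) X3l = 200 * (((b0I A B t).im : ℝ) : ℂ) := by
  have h : (b0I A B t).im = Pool.Agent.Helper43.SH.b3p cI (uu A t) (vv B t) := by
    show (Pool.Agent.Helper43.SH.bB cI A B t).im = _
    rw [Pool.Agent.Helper43.SH.bB_im]
    rfl
  rw [h]
  unfold Pool.Agent.Helper43.SH.b3p cI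
  rw [two_re]
  unfold X3l
  simp only [evP_cons, evP_nil, evC, evM, map_add, map_mul, Complex.conj_ofReal, Complex.conj_conj, Complex.conj_I]
  push_cast
  ring

/-- `β_1 = g1(b0, z0) - g1(0, z0)` -/
theorem g1_BT (A : ℝ) (B : ℂ) (t : ℝ) :
    g1 (b0I A B t) (z0I A B t) = om * (1 + ζ1 A B t) + evP (uu A t) (vv B t) BTl / 800 := by
  rw [← Pool.Agent.Helper33.SH.e1_eq]
  have h2 := b2_eq A B t
  have h3 := b3_eq A B t
  have hl : evP (uu A t) (vv B t) BTl = (2 - 2 * s3) * evP (uu A t) (vv B t) B2l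
      + (4 * s3 - 1) * evP (uu A t) (vv B t) X3l := by
    unfold BTl B2l X3l
    simp only [evP_cons, evP_nil, evC]
    push_cast
    ring
  rw [hl, h2]
  unfold g1 cQ aQ
  rw [Pool.Agent.Helper33.SH.om_val]
  set b2 : ℂ := (((b0I A B t).re : ℝ) : ℂ)
  have h4 : ((((2 : ℝ) * (b0I A B t).im : ℝ)) : ℂ) = 2 * (((b0I A B t).im : ℝ) : ℂ) := by push_cast; ring
  have h5 : (((b0I A B t).im / (2 : ℝ) : ℝ) : ℂ) = (((b0I A B t).im : ℝ) : ℂ) / 2 := by push_cast; ring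
  rw [h4, h5]
  set b3 : ℂ := (((b0I A B t).im : ℝ) : ℂ)
  set X := evP (uu A t) (vv B t) X3l
  have hX : X = -Complex.I * (200 * b3) := by
    linear_combination (-Complex.I) * h3 + X * Complex.I_mul_I
  rw [hX]
  unfold s3
  linear_combination (((Real.sqrt 3 : ℝ) : ℂ) * b3) * Complex.I_mul_I

/-- the conjugation rule -/
theorem evP_tw (u v : ℂ) : ∀ p : Po, evP u v (twP p) =
    (starRingEnd ℂ) (evP ((starRingEnd ℂ) u) ((starRingEnd ℂ) v) p)
  | [] => by simp [twP]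
  | x :: p => by
    rw [twP, evP_cons, evP_cons, evP_tw u v p, map_add, map_mul]
    have h1 : evC (x.2.1, -x.2.2) = (starRingEnd ℂ) (evC x.2) := by
      unfold evC
      rw [map_add, map_mul, s3_conj]
      simp only [map_intCast]
      push_cast
      ring
    have h2 : evM u v x.1 = (starRingEnd ℂ) (evM ((starRingEnd ℂ) u) ((starRingEnd ℂ) v) x.1) := by
      unfold evM
      simp only [map_mul, map_pow, Complex.conj_conj]
    rw [h1, h2]

theorem uu_conj (A : ℝ) (t : ℝ) : (starRingEnd ℂ) (uu A t) = uu A (-t) := by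
  unfold uu
  rw [map_mul, Complex.conj_ofReal, Pool.Agent.Helper35.Cas.conj_ee]
  congr 2
  ring

theorem vv_conj (B : ℂ) (t : ℝ) : (starRingEnd ℂ) (vv B t) = vv ((starRingEnd ℂ) B) (-t) := by
  unfold vv
  rw [map_mul, Pool.Agent.Helper35.Cas.conj_ee]
  congr 2
  ring

theorem g2_BT (A : ℝ) (B : ℂ) (t : ℝ) :
    g2 (b0I A B t) (z0I A B t) = om ^ 2 * (1 + ζ2 A B t) - evP (uu A t) (vv B t) (twP BTl) / 800 := by
  rw [← Pool.Agent.Helper33.SH.e2_eq]
  have h2 := b2_eq A B t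
  have h3 := b3_eq A B t
  have hl : evP (uu A t) (vv B t) (twP BTl) = (2 + 2 * s3) * evP (uu A t) (vv B t) B2l
      + (-4 * s3 - 1) * evP (uu A t) (vv B t) X3l := by
    unfold BTl B2l X3l twP twP twP twP twP twP twP twP twP twP twP
    simp only [evP_cons, evP_nil, evC]
    push_cast
    ring
  rw [hl, h2]
  unfold g2 cQ aQ
  have hom2 : om ^ 2 = (-1 + s3) / 2 := by rw [Pool.Agent.Helper33.SH.om_sq, Pool.Agent.Helper33.SH.om_val]; ring
  rw [hom2]
  set b2 : ℂ := (((b0I A B t).re : ℝ) : ℂ)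
  have h4 : ((((2 : ℝ) * (b0I A B t).im : ℝ)) : ℂ) = 2 * (((b0I A B t).im : ℝ) : ℂ) := by push_cast; ring
  have h5 : (((b0I A B t).im / (2 : ℝ) : ℝ) : ℂ) = (((b0I A B t).im : ℝ) : ℂ) / 2 := by push_cast; ring
  rw [h4, h5]
  set b3 : ℂ := (((b0I A B t).im : ℝ) : ℂ)
  set X := evP (uu A t) (vv B t) X3l
  have hX : X = -Complex.I * (200 * b3) := by
    linear_combination (-Complex.I) * h3 + X * Complex.I_mul_I
  rw [hX]
  unfold s3
  linear_combination (((Real.sqrt 3 : ℝ) : ℂ) * b3) * Complex.I_mul_I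

/-- one piece -/
noncomputable def Tm (A B : ℂ) (P : Po) (p q L : ℤ) (t : ℝ) : ℂ :=
  ee (((-L : ℤ) : ℝ) * t) * evP (uu A t) (vv B t) P
    * Ph ((p : ℝ) / 2) ((q : ℝ) / 2) (evP (uu A t) (vv B t) Z1 / 4)

/-- the density of the first family -/
noncomputable def J1 (N : ℤ) (A B : ℂ) (t : ℝ) : ℂ :=
  1 / 2 * Tm A B (P1 N) (1 - N) (1 + N) N t + 1 / 3200 * Tm A B (P2 N) (-(N + 1)) (N + 1) N t
    + 1 / 3200 * Tm A B (P3 N) (-(N - 1)) (N - 1) N t

theorem Z1_eq' (A : ℝ) (B : ℂ) (t : ℝ) : evP (uu A t) (vv B t) Z1 / 4 = ζ1 A B t := by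
  have : evP (uu A t) (vv B t) Z1 = 4 * ζ1 A B t := Pool.Agent.Helper33.SH.Z1_eq A B t
  rw [this]; ring

theorem Z2_eq' (A : ℝ) (B : ℂ) (t : ℝ) : evP (uu A t) (vv B t) (twP Z1) / 4 = ζ2 A B t := by
  have h1 : twP Z1 = Pool.Agent.Helper33.SH.Z2 := by decide
  rw [h1, Pool.Agent.Helper33.SH.Z2_eq]; ring

theorem hom1 : om * (starRingEnd ℂ) om = 1 := Pool.Agent.Helper33.SH.om_mul

theorem ev1 (N : ℕ) (u v : ℂ) : evP u v (P1 N) = 2 * (starRingEnd ℂ) om ^ N * evP u v Wl := by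
  unfold P1
  rw [evP_sm, om2_eq, zpow_neg, zpow_natCast]
  have h : (om ^ N)⁻¹ = (starRingEnd ℂ) om ^ N := by
    rw [inv_eq_one_div, div_eq_iff (pow_ne_zero _ Pool.Agent.Helper33.SH.om_ne), ← mul_pow, mul_comm, hom1, one_pow]
  rw [h]

theorem om_neg (k : ℕ) : om ^ (-(k : ℤ)) = (starRingEnd ℂ) om ^ k := by
  rw [zpow_neg, zpow_natCast, inv_eq_one_div, div_eq_iff (pow_ne_zero _ Pool.Agent.Helper33.SH.om_ne), ← mul_pow,
    mul_comm, hom1, one_pow]

theorem ev2 (N : ℕ) (u v : ℂ) : evP u v (P2 N) =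
    (1 - N) * (2 * (starRingEnd ℂ) om ^ (N + 1)) * (evP u v Wl * evP u v BTl) := by
  unfold P2
  rw [evP_sm, evC_mul, om2_eq, evP_mul, evC_int]
  have := om_neg (N + 1)
  push_cast at this ⊢
  rw [this]

theorem ev3 (N : ℕ) (u v : ℂ) : evP u v (P3 N) =
    (1 + N) * (2 * ((starRingEnd ℂ) om ^ N * om)) * (evP u v Wl * (starRingEnd ℂ) (evP u v BTl)) := by
  unfold P3
  rw [evP_sm, evC_mul, om2_eq, evP_mul, evC_int, evP_cj]
  have h1 : om ^ (-((N : ℤ) - 1)) = (starRingEnd ℂ) om ^ N * om := by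
    rw [show -((N : ℤ) - 1) = -(N : ℤ) + 1 by ring, zpow_add₀ Pool.Agent.Helper33.SH.om_ne, zpow_one, om_neg]
  rw [h1]
  push_cast
  ring

theorem z_lt {A : ℝ} {B : ℂ} {X : ℝ} (hX : |A| + 3 / 2 * ‖B‖ ≤ X) (hX1 : X ≤ 1 / 4) (t : ℝ) :
    ‖z0I A B t‖ < 1 := (Pool.Agent.Helper33.SH.norm_z0I A B t).trans_lt (by linarith)

theorem F1_at (A : ℝ) (B : ℂ) (c : ZC) (b z : ℝ → ℂ) (t : ℝ) :
    (PI c A B).F1 b z (t + Real.pi / 3) = ((PI c A B).w t : ℂ) * (ee t * g1 (b t) (z t)) := by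
  show F1Q _ 2 b z _ = _
  unfold F1Q Helper44.RCG.G1 AAQ Helper49.RC.vvS g1
  rw [show t + Real.pi / 3 - Real.pi / 3 = t by ring]
  ring

theorem F2_at (A : ℝ) (B : ℂ) (c : ZC) (b z : ℝ → ℂ) (t : ℝ) :
    (PI c A B).F2 b z (t + 2 * Real.pi / 3) = ((PI c A B).w t : ℂ) * (ee t * g2 (b t) (z t)) := by
  show F2Q _ 2 b z _ = _
  unfold F2Q Helper44.RCG.G2 BBQ Helper49.RC.vvS g2
  rw [show t + 2 * Real.pi / 3 - 2 * Real.pi / 3 = t by ring]
  ring

theorem dens1 (A : ℝ) (B : ℂ) (c : ZC) (N : ℕ) (t : ℝ) (hz : ‖z0I A B t‖ < 1) :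
    eD ((PI c A B).F1 (b0I A B) (z0I A B)) (PI c A B).ph1 N (t + Real.pi / 3) = J1 N A B t := by
  have hζ : ‖ζ1 A B t‖ < 1 := by rwa [Pool.Agent.Helper33.SH.norm_ζ1]
  have hu := Pool.Agent.Helper33.SH.u1_eq c A B t hz
  have h := eD_form N ((PI c A B).w t) (ω := om) (β := evP (uu A t) (vv B t) BTl / 800) (ζ := ζ1 A B t) (t := t)
    (φ := t + (PI c A B).a1 t) (θ := t + Real.pi / 3) (g := (PI c A B).F1 (b0I A B) (z0I A B))
    (ph := (PI c A B).ph1) hom1 hζ (by rw [F1_at, g1_BT]) (by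
      show t + Real.pi / 3 - Real.pi / 3 + (om + z0I A B (t + Real.pi / 3 - Real.pi / 3)).arg = _
      rw [show t + Real.pi / 3 - Real.pi / 3 = t by ring]
      rfl) (by
      rw [ee_add]
      congr 1)
  rw [h]
  unfold J1 Tm
  rw [Z1_eq', ev1, ev2, ev3, Wl_eq A B c t, map_div₀]
  have h8 : (starRingEnd ℂ) (800 : ℂ) = 800 := by
    have := Complex.conj_ofReal 800
    push_cast at this
    exact this
  rw [h8]
  push_cast
  have e1 : ee (-((N : ℝ) * t)) = ee (-(N : ℝ) * t) := by congr 1; ring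
  rw [e1]
  have a1 : (-((N : ℝ) + 1) / 2) = -(((N : ℝ) + 1) / 2) := by ring
  have a2 : (-((N : ℝ) - 1) / 2) = -(((N : ℝ) - 1) / 2) := by ring
  rw [a1, a2]
  ring

theorem cj8 : (starRingEnd ℂ) (800 : ℂ) = 800 := by
  have := Complex.conj_ofReal 800
  push_cast at this
  exact this

theorem om2c : om ^ 2 * (starRingEnd ℂ) (om ^ 2) = 1 := by
  rw [map_pow, ← mul_pow, hom1, one_pow]

theorem pw_even {N : ℕ} (hN : Even N) : (starRingEnd ℂ) (om ^ 2) ^ N = om ^ N := by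
  obtain ⟨k, rfl⟩ := hN
  have h3 : (starRingEnd ℂ) om ^ 3 = -1 := by
    rw [← map_pow, Pool.Agent.Helper33.SH.om_cube]; simp
  have h1 : (starRingEnd ℂ) (om ^ 2) = -om := by
    rw [map_pow]
    linear_combination (-(starRingEnd ℂ) om ^ 2) * hom1 + om * h3
  rw [h1, ← two_mul, pow_mul, pow_mul, neg_sq]

theorem dens2 (A : ℝ) (B : ℂ) (c : ZC) (N : ℕ) (hN : Even N) (t : ℝ) (hz : ‖z0I A B t‖ < 1) :
    eD ((PI c A B).F2 (b0I A B) (z0I A B)) (PI c A B).ph2 N (t + 2 * Real.pi / 3) =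
      (starRingEnd ℂ) (J1 N A ((starRingEnd ℂ) B) (-t)) := by
  have hζ : ‖ζ2 A B t‖ < 1 := by rwa [Pool.Agent.Helper33.SH.norm_ζ2]
  have hu := Pool.Agent.Helper33.SH.u2_eq c A B t hz
  have h := eD_form N ((PI c A B).w t) (ω := om ^ 2) (β := -(evP (uu A t) (vv B t) (twP BTl) / 800)) (ζ := ζ2 A B t)
    (t := t) (φ := t + (PI c A B).a2 t) (θ := t + 2 * Real.pi / 3) (g := (PI c A B).F2 (b0I A B) (z0I A B))
    (ph := (PI c A B).ph2) om2c hζ (by rw [F2_at, g2_BT]; ring) (by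
      show t + 2 * Real.pi / 3 - 2 * Real.pi / 3 +
        (om ^ 2 - z0I A B (t + 2 * Real.pi / 3 - 2 * Real.pi / 3)).arg = _
      rw [show t + 2 * Real.pi / 3 - 2 * Real.pi / 3 = t by ring]
      rfl) (by
      rw [ee_add]
      congr 1)
  rw [h]
  -- the other side
  have huv : ∀ P : Po, (starRingEnd ℂ) (evP (uu A (-t)) (vv ((starRingEnd ℂ) B) (-t)) P) =
      evP (uu A t) (vv B t) (twP P) := by
    intro P
    rw [evP_tw, uu_conj, vv_conj]
  have hZ : (starRingEnd ℂ) (evP (uu A (-t)) (vv ((starRingEnd ℂ) B) (-t)) Z1 / 4) = ζ2 A B t := by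
    have e4 : (starRingEnd ℂ) 4 = 4 := by
      have := Complex.conj_ofReal 4
      push_cast at this
      exact this
    rw [map_div₀, huv, e4, Z2_eq']
  have hZ' : evP (uu A (-t)) (vv ((starRingEnd ℂ) B) (-t)) Z1 / 4 = (starRingEnd ℂ) (ζ2 A B t) := by
    rw [← hZ, Complex.conj_conj]
  have hPh : ∀ a b : ℝ, (starRingEnd ℂ) (Ph a b (evP (uu A (-t)) (vv ((starRingEnd ℂ) B) (-t)) Z1 / 4)) =
      Ph a b (ζ2 A B t) := by
    intro a b
    rw [hZ', Ph_carg a b hζ, Complex.conj_conj]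
  have hW : (starRingEnd ℂ) (evP (uu A (-t)) (vv ((starRingEnd ℂ) B) (-t)) Wl) = ((PI c A B).w t : ℂ) := by
    rw [huv, ← Wl_eq A B c t]
    rfl
  have hBT : (starRingEnd ℂ) (evP (uu A (-t)) (vv ((starRingEnd ℂ) B) (-t)) BTl) =
      evP (uu A t) (vv B t) (twP BTl) := huv BTl
  have hcc : ∀ (a : ℂ), (starRingEnd ℂ) ((starRingEnd ℂ) a) = a := Complex.conj_conj
  have hd1 : (starRingEnd ℂ) (om ^ 2) ^ N = om ^ N := pw_even hN
  have hd2 : (starRingEnd ℂ) (om ^ 2) ^ (N + 1) = -(om ^ (N + 1)) := by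
    have h3 : (starRingEnd ℂ) om ^ 3 = -1 := by
      rw [← map_pow, Pool.Agent.Helper33.SH.om_cube]; simp
    have h1 : (starRingEnd ℂ) (om ^ 2) = -om := by
      rw [map_pow]
      linear_combination (-(starRingEnd ℂ) om ^ 2) * hom1 + om * h3
    rw [pow_succ, hd1, h1]
    ring
  have hd3 : (starRingEnd ℂ) (om ^ 2) ^ N * om ^ 2 = -(om ^ N * (starRingEnd ℂ) om) := by
    rw [hd1]
    have h3 := Pool.Agent.Helper33.SH.om_cube
    linear_combination (om ^ N * (starRingEnd ℂ) om) * h3 - (om ^ N * om ^ 2) * hom1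
  unfold J1 Tm
  have n2 : (starRingEnd ℂ) (2 : ℂ) = 2 := Complex.conj_ofReal 2
  have n3 : (starRingEnd ℂ) (3200 : ℂ) = 3200 := by
    have := Complex.conj_ofReal 3200
    push_cast at this
    exact this
  simp only [map_add, map_mul, map_div₀, map_one, n2, n3, hPh, ev1, ev2, ev3, map_pow, Complex.conj_conj, hW, hBT,
    map_sub, map_natCast, map_neg, cj8] at hd1 hd2 hd3 ⊢
  have hBTc : (starRingEnd ℂ) ((starRingEnd ℂ) (evP (uu A (-t)) (vv ((starRingEnd ℂ) B) (-t)) BTl)) =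
      (starRingEnd ℂ) (evP (uu A t) (vv B t) (twP BTl)) := by rw [hBT]
  rw [Complex.conj_conj] at hBTc
  rw [← ee_neg]
  push_cast
  have e1 : ee (-((N : ℝ) * t)) = ee (-(-(N : ℝ) * -t)) := by congr 1; ring
  rw [← e1]
  have a1 : (-((N : ℝ) + 1) / 2) = -(((N : ℝ) + 1) / 2) := by ring
  have a2 : (-((N : ℝ) - 1) / 2) = -(((N : ℝ) - 1) / 2) := by ring
  rw [a1, a2, hd2, hd3, hd1]
  ring

theorem Tm_cont (A B : ℂ) (P : Po) (p q L : ℤ) (hz : ∀ t, ‖evP (uu A t) (vv B t) Z1 / 4‖ < 1) :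
    Continuous (Tm A B P p q L) := by
  unfold Tm
  have c0 : Continuous fun t : ℝ => ee (((-L : ℤ) : ℝ) * t) := continuous_ee.comp (by fun_prop)
  exact (c0.mul (cont_evP A B P)).mul (cont_Ph _ _ ((cont_evP A B Z1).div_const 4) hz)

theorem Tm_per (A B : ℂ) (P : Po) (p q L : ℤ) (t : ℝ) : Tm A B P p q L (t + 2 * Real.pi) = Tm A B P p q L t := by
  unfold Tm
  rw [Pool.Agent.Helper35.Cas.ee_per, uu_per, vv_per]

theorem J1_cont (N : ℤ) (A B : ℂ) (hz : ∀ t, ‖evP (uu A t) (vv B t) Z1 / 4‖ < 1) : Continuous (J1 N A B) := by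
  unfold J1
  exact ((continuous_const.mul (Tm_cont A B _ _ _ _ hz)).add (continuous_const.mul (Tm_cont A B _ _ _ _ hz))).add
    (continuous_const.mul (Tm_cont A B _ _ _ _ hz))

theorem J1_per (N : ℤ) (A B : ℂ) (t : ℝ) : J1 N A B (t + 2 * Real.pi) = J1 N A B t := by
  unfold J1
  rw [Tm_per, Tm_per, Tm_per]

theorem J1_mean (N : ℤ) (A B : ℂ) (hz : ∀ t, ‖evP (uu A t) (vv B t) Z1 / 4‖ < 1) :
    mean (J1 N A B) = 1 / 2 * mean (Tm A B (P1 N) (1 - N) (1 + N) N)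
      + 1 / 3200 * mean (Tm A B (P2 N) (-(N + 1)) (N + 1) N)
      + 1 / 3200 * mean (Tm A B (P3 N) (-(N - 1)) (N - 1) N) := by
  have c1 := Tm_cont A B (P1 N) (1 - N) (1 + N) N hz
  have c2 := Tm_cont A B (P2 N) (-(N + 1)) (N + 1) N hz
  have c3 := Tm_cont A B (P3 N) (-(N - 1)) (N - 1) N hz
  unfold J1
  have h1 := mean_add (F := fun t => 1 / 2 * Tm A B (P1 N) (1 - N) (1 + N) N t
    + 1 / 3200 * Tm A B (P2 N) (-(N + 1)) (N + 1) N t)
    (G := fun t => 1 / 3200 * Tm A B (P3 N) (-(N - 1)) (N - 1) N t)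
    ((continuous_const.mul c1).add (continuous_const.mul c2)) (continuous_const.mul c3)
  have h2 := mean_add (F := fun t => 1 / 2 * Tm A B (P1 N) (1 - N) (1 + N) N t)
    (G := fun t => 1 / 3200 * Tm A B (P2 N) (-(N + 1)) (N + 1) N t)
    (continuous_const.mul c1) (continuous_const.mul c2)
  rw [h1, h2, mean_const_mul, mean_const_mul, mean_const_mul]

/-- **the exact formula** -/
theorem eM_form (A : ℝ) (B : ℂ) (c : ZC) (N : ℕ) (hN : Even N) {X : ℝ} (hX : |A| + 3 / 2 * ‖B‖ ≤ X) (hX1 : X ≤ 1 / 4) :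
    eM ((PI c A B).F1 (b0I A B) (z0I A B)) ((PI c A B).F2 (b0I A B) (z0I A B)) (PI c A B).ph1 (PI c A B).ph2 N =
      mean (J1 N A B) + (starRingEnd ℂ) (mean (J1 N A ((starRingEnd ℂ) B))) := by
  have hz := z_lt hX hX1
  have hX' : |A| + 3 / 2 * ‖(starRingEnd ℂ) B‖ ≤ X := by rwa [Complex.norm_conj]
  have hz' := z_lt hX' hX1
  have hZ : ∀ t, ‖evP (uu A t) (vv B t) Z1 / 4‖ < 1 := fun t => by
    rw [Z1_eq', Pool.Agent.Helper33.SH.norm_ζ1]; exact hz t
  have hZ' : ∀ t, ‖evP (uu A t) (vv ((starRingEnd ℂ) B) t) Z1 / 4‖ < 1 := fun t => by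
    rw [Z1_eq', Pool.Agent.Helper33.SH.norm_ζ1]; exact hz' t
  have c1 := J1_cont N A B hZ
  have c2 := J1_cont N A ((starRingEnd ℂ) B) hZ'
  have e1 : ∀ θ, eD ((PI c A B).F1 (b0I A B) (z0I A B)) (PI c A B).ph1 N θ = J1 N A B (θ - Real.pi / 3) := by
    intro θ
    have := dens1 A B c N (θ - Real.pi / 3) (hz _)
    rwa [show θ - Real.pi / 3 + Real.pi / 3 = θ by ring] at this
  have e2 : ∀ θ, eD ((PI c A B).F2 (b0I A B) (z0I A B)) (PI c A B).ph2 N θ =
      (starRingEnd ℂ) (J1 N A ((starRingEnd ℂ) B) (-(θ - 2 * Real.pi / 3))) := by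
    intro θ
    have := dens2 A B c N hN (θ - 2 * Real.pi / 3) (hz _)
    rwa [show θ - 2 * Real.pi / 3 + 2 * Real.pi / 3 = θ by ring] at this
  unfold eM
  simp_rw [e1, e2]
  have i1 : IntervalIntegrable (fun θ => J1 N A B (θ - Real.pi / 3)) volume 0 (2 * Real.pi) :=
    (c1.comp (continuous_id.sub continuous_const)).intervalIntegrable _ _
  have i2 : IntervalIntegrable (fun θ => (starRingEnd ℂ) (J1 N A ((starRingEnd ℂ) B) (-(θ - 2 * Real.pi / 3))))
      volume 0 (2 * Real.pi) :=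
    (Complex.continuous_conj.comp (c2.comp (continuous_id.sub continuous_const).neg)).intervalIntegrable _ _
  rw [intervalIntegral.integral_add i1 i2, mul_add]
  congr 1
  · have h := per_shift (J1 N A B) (J1_per N A B) (-(Real.pi / 3))
    have h' : (fun θ => J1 N A B (θ - Real.pi / 3)) = fun θ => J1 N A B (θ + -(Real.pi / 3)) := by
      funext θ; rw [sub_eq_add_neg]
    rw [h', h]
    rfl
  · set F : ℝ → ℂ := fun t => (starRingEnd ℂ) (J1 N A ((starRingEnd ℂ) B) (-t)) with hF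
    have hFp : ∀ t, F (t + 2 * Real.pi) = F t := by
      intro t
      simp only [hF]
      congr 1
      have := J1_per N A ((starRingEnd ℂ) B) (-(t + 2 * Real.pi))
      rw [← this]
      congr 1
      ring
    have h := per_shift F hFp (-(2 * Real.pi / 3))
    have h' : (fun θ => (starRingEnd ℂ) (J1 N A ((starRingEnd ℂ) B) (-(θ - 2 * Real.pi / 3)))) =
        fun θ => F (θ + -(2 * Real.pi / 3)) := by
      funext θ; simp only [hF]; rw [← sub_eq_add_neg]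
    rw [h', h]
    have h3 : ∫ t in (0 : ℝ)..(2 * Real.pi), F t =
        (starRingEnd ℂ) (∫ t in (0 : ℝ)..(2 * Real.pi), J1 N A ((starRingEnd ℂ) B) t) := by
      have h4 : ∫ t in (0 : ℝ)..(2 * Real.pi), J1 N A ((starRingEnd ℂ) B) (-t) =
          ∫ t in (0 : ℝ)..(2 * Real.pi), J1 N A ((starRingEnd ℂ) B) t := by
        rw [intervalIntegral.integral_comp_neg (fun t => J1 N A ((starRingEnd ℂ) B) t)]
        have hper : Function.Periodic (J1 N A ((starRingEnd ℂ) B)) (2 * Real.pi) := J1_per N A _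
        have := hper.intervalIntegral_add_eq (-(2 * Real.pi)) 0
        rw [neg_zero]
        rw [zero_add, neg_add_cancel] at this
        exact this
      rw [← h4, intervalIntegral.integral_of_le (by positivity), intervalIntegral.integral_of_le (by positivity),
        ← integral_conj]
    rw [h3]
    unfold Pool.Agent.Helper35.Cas.mean
    rw [map_mul]
    have n1 : (starRingEnd ℂ) (1 / (2 * Real.pi) : ℂ) = 1 / (2 * Real.pi) := by
      have := Complex.conj_ofReal (1 / (2 * Real.pi))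
      push_cast at this
      exact this
    rw [n1]

end Helper42.SH
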