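import Pool.Agent.Helper42.SH.El
import Pool.Agent.Helper33.SH.GLists
import Pool.Agent.Helper27.SH.Num

/-!
# Project RC, SHARP: the aligned moments of the base: assembly of the three pieces, errors
-/

set_option autoImplicit false

open MeasureTheory Set Filter Metric

namespace Helper42.SH

open Helper49.LT hiding sg s3
open Helper49.RC (om)
open Helper44.GQ Helper49.Sharp
open Helper56.RC (fc)
open Pool.Agent.Helper35.RC
open Pool.Agent.Helper35.Cas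
open Pool.Agent.Helper33.SH (PI z0I b0I ζ1 ζ2 om2 ZC cI om2_eq)
open Pool.Agent.Helper20.RC (wR eM eD lk)
open Pool.Agent.Helper27.SH (evR)

/-- integer bound of the norm of a coefficient -/
def nbC (c : Co) : ℕ := if c = (0, 0) then 0 else Nat.sqrt (c.1 ^ 2 + 3 * c.2 ^ 2).toNat + 1

theorem nbC_le (c : Co) : ‖evC c‖ ≤ (nbC c : ℝ) := by
  unfold nbC
  split_ifs with h
  · rw [h]; simp [evC]
  · have h0 : 0 ≤ c.1 ^ 2 + 3 * c.2 ^ 2 := by positivity
    have h1 : ‖evC c‖ ^ 2 = ((c.1 ^ 2 + 3 * c.2 ^ 2 : ℤ) : ℝ) := by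
      rw [← Complex.normSq_eq_norm_sq, Complex.normSq_apply]
      have hs : Real.sqrt 3 * Real.sqrt 3 = 3 := Real.mul_self_sqrt (by norm_num)
      unfold evC s3
      simp
      linear_combination ((c.2 : ℝ) ^ 2) * hs
    have h2 : (c.1 ^ 2 + 3 * c.2 ^ 2 : ℤ) = (((c.1 ^ 2 + 3 * c.2 ^ 2).toNat : ℕ) : ℤ) := (Int.toNat_of_nonneg h0).symm
    have h3 : (c.1 ^ 2 + 3 * c.2 ^ 2).toNat < (Nat.sqrt (c.1 ^ 2 + 3 * c.2 ^ 2).toNat + 1) ^ 2 := by
      have := Nat.lt_succ_sqrt' (c.1 ^ 2 + 3 * c.2 ^ 2).toNat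
      exact this
    have h4 : ((c.1 ^ 2 + 3 * c.2 ^ 2 : ℤ) : ℝ) ≤
        (((Nat.sqrt (c.1 ^ 2 + 3 * c.2 ^ 2).toNat + 1 : ℕ)) : ℝ) ^ 2 := by
      rw [h2]
      have : (((c.1 ^ 2 + 3 * c.2 ^ 2).toNat : ℕ) : ℝ) ≤ (((Nat.sqrt (c.1 ^ 2 + 3 * c.2 ^ 2).toNat + 1) ^ 2 : ℕ) : ℝ) := by
        exact_mod_cast h3.le
      push_cast at this ⊢
      exact this
    exact le_of_sq_le_sq' (by rw [h1]; exact h4) (norm_nonneg _) (by positivity)
where
  le_of_sq_le_sq' {x y : ℝ} (h : x ^ 2 ≤ y ^ 2) (_ : 0 ≤ x) (hy : 0 ≤ y) : x ≤ y := by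
    exact le_of_sq_le_sq h hy
  le_of_sq_le_sq {x y : ℝ} (h : x ^ 2 ≤ y ^ 2) (hy : 0 ≤ y) : x ≤ y := abs_le_of_sq_le_sq' h hy |>.2

/-- absolute values -/
def absP (P : Po) : List (ℕ × ℕ × ℚ) := P.map fun x => (x.1.1 + x.1.2.1, x.1.2.2.1 + x.1.2.2.2, (nbC x.2 : ℚ))

theorem evP_le {u v : ℂ} {a b : ℝ} (hu : ‖u‖ ≤ a) (hv : ‖v‖ ≤ b) : ∀ P : Po, ‖evP u v P‖ ≤ evR a b (absP P)
  | [] => by simp [absP, evR]
  | x :: P => by
    have ih := evP_le hu hv P
    have ha : 0 ≤ a := (norm_nonneg _).trans hu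
    have hb : 0 ≤ b := (norm_nonneg _).trans hv
    rw [evP_cons]
    have e : evR a b (absP (x :: P)) = (nbC x.2 : ℝ) * (a ^ (x.1.1 + x.1.2.1) * b ^ (x.1.2.2.1 + x.1.2.2.2))
        + evR a b (absP P) := by
      unfold absP evR
      rw [List.map_cons, List.map_cons, List.sum_cons]
      push_cast
      rfl
    rw [e]
    refine (norm_add_le _ _).trans (add_le_add ?_ ih)
    rw [norm_mul]
    have h1 : ‖evM u v x.1‖ ≤ a ^ (x.1.1 + x.1.2.1) * b ^ (x.1.2.2.1 + x.1.2.2.2) := by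
      unfold evM
      rw [norm_mul, norm_mul, norm_mul, norm_pow, norm_pow, norm_pow, norm_pow, Complex.norm_conj,
        Complex.norm_conj, mul_assoc, mul_assoc, ← mul_assoc, pow_add, pow_add]
      gcongr
    exact mul_le_mul (nbC_le _) h1 (norm_nonneg _) (by positivity)

theorem norm_uu (A : ℂ) (t : ℝ) : ‖uu A t‖ = ‖A‖ := by
  unfold uu; rw [norm_mul, norm_ee, mul_one]
theorem norm_vv (B : ℂ) (t : ℝ) : ‖vv B t‖ = ‖B‖ := by
  unfold vv; rw [norm_mul, norm_ee, mul_one]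

theorem W_le {a b X : ℝ} (ha : 0 ≤ a) (hb : 0 ≤ b) (hX : a + 3 / 2 * b ≤ X) (hX1 : X ≤ 1 / 4) {u v : ℂ}
    (hu : ‖u‖ ≤ a) (hv : ‖v‖ ≤ b) : ‖evP u v Wl‖ ≤ 25 / 24 := by
  have e : evP u v Wl = (1 : ℂ) + (-2 * ((starRingEnd ℂ) u * v) + -2 * (u * (starRingEnd ℂ) v)) := by
    unfold Wl
    simp only [evP_cons, evP_nil, evC, evM]
    push_cast
    ring
  rw [e]
  have h1 : ‖(1 : ℂ) + (-2 * ((starRingEnd ℂ) u * v) + -2 * (u * (starRingEnd ℂ) v))‖ ≤ 1 + (2 * (a * b) + 2 * (a * b)) := by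
    refine (norm_add_le _ _).trans (add_le_add (by simp) ((norm_add_le _ _).trans (add_le_add ?_ ?_)))
    · rw [norm_mul, norm_mul, norm_neg, Complex.norm_two, Complex.norm_conj]
      gcongr
    · rw [norm_mul, norm_mul, norm_neg, Complex.norm_two, Complex.norm_conj]
      gcongr
  refine h1.trans ?_
  nlinarith [sq_nonneg (a - 3 / 2 * b)]

theorem BT_le {a b X : ℝ} (ha : 0 ≤ a) (hb : 0 ≤ b) (hX : a + 3 / 2 * b ≤ X) {u v : ℂ}
    (hu : ‖u‖ ≤ a) (hv : ‖v‖ ≤ b) : ‖evP u v BTl‖ ≤ 919 * X ^ 2 := by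
  have h := evP_le hu hv BTl
  have e : absP BTl = [(0, 2, 102), (0, 2, 181), (0, 2, 30), (1, 1, 510), (1, 1, 768), (2, 0, 352), (1, 1, 316),
      (1, 1, 930), (2, 0, 133), (2, 0, 434)] := by decide +kernel
  rw [e] at h
  simp only [evR, List.map_cons, List.map_nil, List.sum_cons, List.sum_nil] at h
  refine h.trans ?_
  have h2 : (a + 3 / 2 * b) ^ 2 ≤ X ^ 2 := by gcongr
  push_cast
  nlinarith [mul_nonneg ha hb, sq_nonneg a, sq_nonneg b]

/-- coefficient of `a^(6-k) b^k` -/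
def cf (k : ℕ) (L : List (ℕ × ℕ × ℚ)) : ℚ := (L.map fun m => if m.2.1 = k then m.2.2 else 0).sum

theorem cf_cons (k : ℕ) (m : ℕ × ℕ × ℚ) (L : List (ℕ × ℕ × ℚ)) :
    cf k (m :: L) = (if m.2.1 = k then m.2.2 else 0) + cf k L := by
  unfold cf
  rw [List.map_cons, List.sum_cons]

theorem evR_cons (a b : ℝ) (m : ℕ × ℕ × ℚ) (L : List (ℕ × ℕ × ℚ)) :
    evR a b (m :: L) = (m.2.2 : ℝ) * (a ^ m.1 * b ^ m.2.1) + evR a b L := by
  unfold evR
  rw [List.map_cons, List.sum_cons]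

theorem evR_cf (a b : ℝ) : ∀ L : List (ℕ × ℕ × ℚ), (L.all fun m => decide (m.1 + m.2.1 = 6)) = true →
    evR a b L = ∑ k ∈ Finset.range 7, (cf k L : ℝ) * (a ^ (6 - k) * b ^ k)
  | [], _ => by simp [evR, cf]
  | m :: L, h => by
    rw [List.all_cons, Bool.and_eq_true, decide_eq_true_eq] at h
    rw [evR_cons, evR_cf a b L h.2]
    simp_rw [cf_cons]
    push_cast
    simp_rw [add_mul]
    rw [Finset.sum_add_distrib]
    congr 1
    rw [Finset.sum_eq_single m.2.1]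
    · rw [if_pos rfl]
      have : m.1 = 6 - m.2.1 := by omega
      rw [← this]
    · intro k _ hk
      rw [if_neg (Ne.symm hk)]
      simp
    · intro hk
      exact absurd (Finset.mem_range.2 (by omega)) hk

/-- reduction of the degree by `n` on `a ≤ ra`, `b ≤ rb` -/
def rd (ra rb : ℚ) : ℕ → ℕ → ℕ → ℚ → ℕ × ℕ × ℚ
  | 0, i, j, c => (i, j, c)
  | n + 1, 0, 0, c => (n + 1, 0, c)
  | n + 1, i + 1, 0, c => rd ra rb n i 0 (c * ra)
  | n + 1, 0, j + 1, c => rd ra rb n 0 j (c * rb)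
  | n + 1, i + 1, j + 1, c => if i ≤ j then rd ra rb n (i + 1) j (c * rb) else rd ra rb n i (j + 1) (c * ra)

theorem rd_ok {ra rb : ℚ} {a b : ℝ} (ha : 0 ≤ a) (hb : 0 ≤ b) (ha' : a ≤ ra) (hb' : b ≤ rb) :
    ∀ (n i j : ℕ) (c : ℚ), 0 ≤ c → n ≤ i + j → (c : ℝ) * (a ^ i * b ^ j) ≤
      ((rd ra rb n i j c).2.2 : ℝ) * (a ^ (rd ra rb n i j c).1 * b ^ (rd ra rb n i j c).2.1)
  | 0, i, j, c, _, _ => le_refl _
  | n + 1, 0, 0, c, _, h => by omega
  | n + 1, i + 1, 0, c, hc, h => by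
    have hra : (0 : ℚ) ≤ ra := by exact_mod_cast ha.trans ha'
    have := rd_ok ha hb ha' hb' n i 0 (c * ra) (mul_nonneg hc hra) (by omega)
    rw [rd]
    refine le_trans ?_ this
    have hc' : (0 : ℝ) ≤ c := by exact_mod_cast hc
    push_cast
    have : (c : ℝ) * (a ^ (i + 1) * b ^ 0) = c * a * (a ^ i * b ^ 0) := by ring
    rw [this]
    gcongr
  | n + 1, 0, j + 1, c, hc, h => by
    have hrb : (0 : ℚ) ≤ rb := by exact_mod_cast hb.trans hb'
    have := rd_ok ha hb ha' hb' n 0 j (c * rb) (mul_nonneg hc hrb) (by omega)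
    rw [rd]
    refine le_trans ?_ this
    have hc' : (0 : ℝ) ≤ c := by exact_mod_cast hc
    push_cast
    have : (c : ℝ) * (a ^ 0 * b ^ (j + 1)) = c * b * (a ^ 0 * b ^ j) := by ring
    rw [this]
    gcongr
  | n + 1, i + 1, j + 1, c, hc, h => by
    have hra : (0 : ℚ) ≤ ra := by exact_mod_cast ha.trans ha'
    have hrb : (0 : ℚ) ≤ rb := by exact_mod_cast hb.trans hb'
    have hc' : (0 : ℝ) ≤ c := by exact_mod_cast hc
    rw [rd]
    split_ifs with hij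
    · have := rd_ok ha hb ha' hb' n (i + 1) j (c * rb) (mul_nonneg hc hrb) (by omega)
      refine le_trans ?_ this
      push_cast
      have : (c : ℝ) * (a ^ (i + 1) * b ^ (j + 1)) = c * b * (a ^ (i + 1) * b ^ j) := by ring
      rw [this]
      gcongr
    · have := rd_ok ha hb ha' hb' n i (j + 1) (c * ra) (mul_nonneg hc hra) (by omega)
      refine le_trans ?_ this
      push_cast
      have : (c : ℝ) * (a ^ (i + 1) * b ^ (j + 1)) = c * a * (a ^ i * b ^ (j + 1)) := by ring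
      rw [this]
      gcongr

/-- the reduced list -/
def rdL (ra rb : ℚ) (L : List (ℕ × ℕ × ℚ)) : List (ℕ × ℕ × ℚ) :=
  (L.filter fun m => decide (m.2.2 ≠ 0)).map fun m => rd ra rb (m.1 + m.2.1 - 6) m.1 m.2.1 m.2.2

theorem rdL_ok {ra rb : ℚ} {a b : ℝ} (ha : 0 ≤ a) (hb : 0 ≤ b) (ha' : a ≤ ra) (hb' : b ≤ rb) :
    ∀ L : List (ℕ × ℕ × ℚ), (L.all fun m => decide (0 ≤ m.2.2)) = true → evR a b L ≤ evR a b (rdL ra rb L)
  | [], _ => le_refl _
  | m :: L, h => by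
    rw [List.all_cons, Bool.and_eq_true, decide_eq_true_eq] at h
    have ih := rdL_ok ha hb ha' hb' L h.2
    rw [evR_cons]
    unfold rdL at ih ⊢
    rw [List.filter_cons]
    by_cases hm : m.2.2 = 0
    · simp only [hm, ne_eq, not_true_eq_false, decide_false]
      push_cast
      rw [zero_mul, zero_add]
      exact ih
    · simp only [ne_eq, hm, not_false_eq_true, decide_true, if_true]
      rw [List.map_cons, evR_cons]
      exact add_le_add (rd_ok ha hb ha' hb' _ _ _ _ h.1 (by omega)) ih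

/-- homogeneous polynomial of degree 6 with given coefficients -/
def hom6 (v : List ℚ) : List (ℕ × ℕ × ℚ) := (List.range 7).map fun k => (6 - k, k, v.getD k 0)

theorem evR_hom6 (a b : ℝ) (v : List ℚ) :
    evR a b (hom6 v) = ∑ k ∈ Finset.range 7, ((v.getD k 0 : ℚ) : ℝ) * (a ^ (6 - k) * b ^ k) := by
  have h : hom6 v = [(6, 0, v.getD 0 0), (5, 1, v.getD 1 0), (4, 2, v.getD 2 0), (3, 3, v.getD 3 0),
      (2, 4, v.getD 4 0), (1, 5, v.getD 5 0), (0, 6, v.getD 6 0)] := rfl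
  rw [h]
  simp only [evR_cons]
  have h0 : evR a b [] = 0 := rfl
  rw [h0]
  simp only [Finset.sum_range_succ, Finset.sum_range_zero]
  ring

/-- the final check of a row -/
def chkD (ra rb Cx : ℚ) (D : Po) (v : List ℚ) : Bool :=
  (rdL ra rb (absP D)).all (fun m => decide (m.1 + m.2.1 = 6))
  && (List.range 7).all fun k => decide (cf k (rdL ra rb (absP D)) + Cx * ((Nat.choose 6 k : ℕ) * (3 / 2) ^ k) ≤ v.getD k 0)

theorem absP_nn (D : Po) : ((absP D).all fun m => decide (0 ≤ m.2.2)) = true := by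
  rw [List.all_eq_true]
  intro m hm
  unfold absP at hm
  rw [List.mem_map] at hm
  obtain ⟨x, _, rfl⟩ := hm
  simp

theorem chkD_ok {ra rb Cx : ℚ} {D : Po} {v : List ℚ} (h : chkD ra rb Cx D v = true) {u w : ℂ} {a b : ℝ}
    (hu : ‖u‖ ≤ a) (hw : ‖w‖ ≤ b) (ha' : a ≤ ra) (hb' : b ≤ rb) :
    ‖evP u w D‖ + Cx * (a + 3 / 2 * b) ^ 6 ≤ evR a b (hom6 v) := by
  have ha : 0 ≤ a := (norm_nonneg _).trans hu
  have hb : 0 ≤ b := (norm_nonneg _).trans hw
  unfold chkD at h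
  rw [Bool.and_eq_true] at h
  obtain ⟨h1, h2⟩ := h
  rw [List.all_eq_true] at h2
  have h3 := (evP_le hu hw D).trans (rdL_ok ha hb ha' hb' _ (absP_nn D))
  rw [evR_cf a b _ h1] at h3
  rw [evR_hom6]
  have h4 : (Cx : ℝ) * (a + 3 / 2 * b) ^ 6 =
      ∑ k ∈ Finset.range 7, (Cx : ℝ) * ((Nat.choose 6 k : ℕ) * (3 / 2) ^ k) * (a ^ (6 - k) * b ^ k) := by
    rw [add_comm a, add_pow, Finset.mul_sum]
    refine Finset.sum_congr rfl fun k _ => ?_
    rw [mul_pow]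
    ring
  rw [h4]
  refine (add_le_add h3 le_rfl).trans ?_
  rw [← Finset.sum_add_distrib]
  refine Finset.sum_le_sum fun k hk => ?_
  rw [← add_mul]
  refine mul_le_mul_of_nonneg_right ?_ (by positivity)
  have h5 := of_decide_eq_true (h2 k (List.mem_range.2 (Finset.mem_range.1 hk)))
  have h6 : ((cf k (rdL ra rb (absP D)) + Cx * ((Nat.choose 6 k : ℕ) * (3 / 2) ^ k) : ℚ) : ℝ) ≤ ((v.getD k 0 : ℚ) : ℝ) := by
    exact_mod_cast h5
  push_cast at h6 ⊢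
  exact h6

end Helper42.SH
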