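import Pool.Agent.Helper42.SH.El2

/-!
# Project RC, SHARP: the aligned moments of the base, one row from three runs of the fast moment program
-/

set_option autoImplicit false

open MeasureTheory Set Filter Metric

namespace Helper42.SH

open Helper49.LT hiding sg s3
open Helper49.RC (om)
open Helper44.GQ Helper49.Sharp
open Helper56.RC (fc)
open Pool.Agent.Helper35.RC
open Pool.Agent.Helper35.Cas
open Pool.Agent.Helper33.SH (PI z0I b0I ζ1 ζ2 om2 ZC cI om2_eq)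
open Pool.Agent.Helper20.RC (wR eM eD lk)
open Pool.Agent.Helper27.SH (evR)

/-- the exact part of one family -/
def Qs (Q1 Q2 Q3 : Po) : Po := addP (smP (1600, 0) Q1) (addP Q2 Q3)

theorem evP_Qs (u v : ℂ) (Q1 Q2 Q3 : Po) :
    evP u v (Qs Q1 Q2 Q3) = 1600 * evP u v Q1 + evP u v Q2 + evP u v Q3 := by
  unfold Qs
  rw [evP_add, evP_add, evP_sm, evC_int]
  push_cast
  ring

/-- the checks of one row -/
structure RowC (N K : ℕ) (G1 G2 G3 : ℚ) (m1 m2 m3 : List Mo) (L1 L2 L3 Q1 Q2 Q3 : Po) : Prop where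
  e1 : P1 N = L1
  e2 : P2 N = L2
  e3 : P3 N = L3
  c1 : chkF L1 Z1 zs zcs (1 - N) (1 + N) N 0 0 K G1 m1 Q1 = true
  c2 : chkF L2 Z1 zs zcs (-(N + 1)) (N + 1) N 0 0 K G2 m2 Q2 = true
  c3 : chkF L3 Z1 zs zcs (-(N - 1)) (N - 1) N 0 0 K G3 m3 Q3 = true

theorem nrm2 (N : ℕ) (x : ℂ) : ‖2 * (starRingEnd ℂ) om ^ N * x‖ = 2 * ‖x‖ := by
  rw [norm_mul, norm_mul, norm_pow, Complex.norm_conj, Pool.Agent.Helper33.SH.om_norm, one_pow, Complex.norm_two, mul_one]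

/-- one family -/
theorem half_ok {N K : ℕ} {G1 G2 G3 : ℚ} {m1 m2 m3 : List Mo} {L1 L2 L3 Q1 Q2 Q3 : Po}
    (h : RowC N K G1 G2 G3 m1 m2 m3 L1 L2 L3 Q1 Q2 Q3) (hG1 : 0 ≤ G1) (hG2 : 0 ≤ G2) (hG3 : 0 ≤ G3)
    {A : ℝ} {B : ℂ} {a b X : ℝ} (ha : |A| ≤ a) (hb : ‖B‖ ≤ b) (hX : a + 3 / 2 * b ≤ X) (hX1 : X ≤ 1 / 4) :
    ‖mean (J1 N A B) - evP A B (Qs Q1 Q2 Q3) / (3200 * 16 ^ K)‖ ≤
      (25 / 24 * G1 + 3 / 5 * X ^ 2 * (|1 - (N : ℝ)| * G2 + (1 + N) * G3)) * X ^ K := by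
  have ha0 : 0 ≤ a := (abs_nonneg _).trans ha
  have hb0 : 0 ≤ b := (norm_nonneg _).trans hb
  have hX0 : 0 ≤ X := by linarith
  have hXA : |A| + 3 / 2 * ‖B‖ ≤ X := by linarith
  have hz := z_lt hXA hX1
  have hZn : ∀ t, ‖evP (uu A t) (vv B t) Z1 / 4‖ ≤ X := fun t => by
    rw [Z1_eq', Pool.Agent.Helper33.SH.norm_ζ1]
    exact (Pool.Agent.Helper33.SH.norm_z0I A B t).trans hXA
  have hZ : ∀ t, ‖evP (uu A t) (vv B t) Z1 / 4‖ < 1 := fun t => (hZn t).trans_lt (by linarith)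
  have hu : ∀ t, ‖uu A t‖ ≤ a := fun t => by
    rw [norm_uu, Complex.norm_real, Real.norm_eq_abs]; exact ha
  have hv : ∀ t, ‖vv B t‖ ≤ b := fun t => by rw [norm_vv]; exact hb
  have hW : ∀ t, ‖evP (uu A t) (vv B t) Wl‖ ≤ 25 / 24 := fun t => W_le ha0 hb0 hX hX1 (hu t) (hv t)
  have hBT : ∀ t, ‖evP (uu A t) (vv B t) BTl‖ ≤ 919 * X ^ 2 := fun t => BT_le ha0 hb0 hX (hu t) (hv t)
  have hWB : ∀ t, ‖evP (uu A t) (vv B t) Wl * evP (uu A t) (vv B t) BTl‖ ≤ 25 / 24 * (919 * X ^ 2) := fun t => by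
    rw [norm_mul]
    exact mul_le_mul (hW t) (hBT t) (norm_nonneg _) (by norm_num)
  have M1 : ∀ t, ‖evP (uu A t) (vv B t) L1‖ ≤ 2 * (25 / 24) := fun t => by
    rw [← h.e1, ev1, nrm2]
    have := hW t
    linarith
  have M2 : ∀ t, ‖evP (uu A t) (vv B t) L2‖ ≤ |1 - (N : ℝ)| * (2 * (25 / 24 * (919 * X ^ 2))) := fun t => by
    rw [← h.e2, ev2, mul_assoc, norm_mul, nrm2]
    have e : ‖((1 : ℂ) - (N : ℂ))‖ = |1 - (N : ℝ)| := by
      have : ((1 : ℂ) - (N : ℂ)) = ((1 - (N : ℝ) : ℝ) : ℂ) := by push_cast; rfl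
      rw [this, Complex.norm_real, Real.norm_eq_abs]
    rw [e]
    refine mul_le_mul_of_nonneg_left ?_ (abs_nonneg _)
    have := hWB t
    linarith
  have M3 : ∀ t, ‖evP (uu A t) (vv B t) L3‖ ≤ (1 + (N : ℝ)) * (2 * (25 / 24 * (919 * X ^ 2))) := fun t => by
    rw [← h.e3, ev3]
    have e : (1 + (N : ℂ)) * (2 * ((starRingEnd ℂ) om ^ N * om)) * (evP (uu A t) (vv B t) Wl
        * (starRingEnd ℂ) (evP (uu A t) (vv B t) BTl)) = ((1 + (N : ℝ) : ℝ) : ℂ) * (2 * (starRingEnd ℂ) om ^ N * (om *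
        (evP (uu A t) (vv B t) Wl * (starRingEnd ℂ) (evP (uu A t) (vv B t) BTl)))) := by
      push_cast; ring
    rw [e, norm_mul, nrm2, norm_mul om, Pool.Agent.Helper33.SH.om_norm, one_mul, norm_mul (evP _ _ Wl),
      Complex.norm_conj, ← norm_mul, Complex.norm_real, Real.norm_eq_abs, abs_of_nonneg (by positivity)]
    refine mul_le_mul_of_nonneg_left ?_ (by positivity)
    have := hWB t
    linarith
  have r1 := momF A B L1 Z1 zs zcs (1 - N) (1 + N) N 0 0 K G1 m1 Q1 _ X zs_ok zcs_ok h.c1 M1 hZn (by linarith)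
  have r2 := momF A B L2 Z1 zs zcs (-(N + 1)) (N + 1) N 0 0 K G2 m2 Q2 _ X zs_ok zcs_ok h.c2 M2 hZn (by linarith)
  have r3 := momF A B L3 Z1 zs zcs (-(N - 1)) (N - 1) N 0 0 K G3 m3 Q3 _ X zs_ok zcs_ok h.c3 M3 hZn (by linarith)
  rw [J1_mean N A B hZ, evP_Qs, h.e1, h.e2, h.e3]
  have f1 : (fun t => ee (((-(N : ℤ) : ℤ) : ℝ) * t) * evP (uu A t) (vv B t) L1
      * Ph ((((1 - (N : ℤ) : ℤ)) : ℝ) / 2) ((((1 + (N : ℤ) : ℤ)) : ℝ) / 2) (evP (uu A t) (vv B t) Z1 / 4)) =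
      Tm A B L1 (1 - N) (1 + N) N := rfl
  have f2 : (fun t => ee (((-(N : ℤ) : ℤ) : ℝ) * t) * evP (uu A t) (vv B t) L2
      * Ph ((((-((N : ℤ) + 1) : ℤ)) : ℝ) / 2) (((((N : ℤ) + 1 : ℤ)) : ℝ) / 2) (evP (uu A t) (vv B t) Z1 / 4)) =
      Tm A B L2 (-(N + 1)) (N + 1) N := rfl
  have f3 : (fun t => ee (((-(N : ℤ) : ℤ) : ℝ) * t) * evP (uu A t) (vv B t) L3
      * Ph ((((-((N : ℤ) - 1) : ℤ)) : ℝ) / 2) (((((N : ℤ) - 1 : ℤ)) : ℝ) / 2) (evP (uu A t) (vv B t) Z1 / 4)) =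
      Tm A B L3 (-(N - 1)) (N - 1) N := rfl
  rw [f1] at r1
  rw [f2] at r2
  rw [f3] at r3
  set T1 := mean (Tm A B L1 (1 - N) (1 + N) N)
  set T2 := mean (Tm A B L2 (-(N + 1)) (N + 1) N)
  set T3 := mean (Tm A B L3 (-(N - 1)) (N - 1) N)
  have h16 : (16 : ℂ) ^ K ≠ 0 := pow_ne_zero _ (by norm_num)
  have e : 1 / 2 * T1 + 1 / 3200 * T2 + 1 / 3200 * T3 - (1600 * evP A B Q1 + evP A B Q2 + evP A B Q3) / (3200 * 16 ^ K)
      = 1 / 2 * (T1 - evP A B Q1 / 16 ^ K) + (1 / 3200 * (T2 - evP A B Q2 / 16 ^ K)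
        + 1 / 3200 * (T3 - evP A B Q3 / 16 ^ K)) := by
    field_simp
    ring
  rw [e]
  have n2 : ‖(1 / 2 : ℂ)‖ = 1 / 2 := by simp
  have n3 : ‖(1 / 3200 : ℂ)‖ = 1 / 3200 := by
    rw [norm_div, norm_one]
    have : ‖(3200 : ℂ)‖ = 3200 := by
      have := Complex.norm_real 3200
      push_cast at this
      rw [this]; norm_num
    rw [this]
  refine (norm_add_le _ _).trans ((add_le_add le_rfl (norm_add_le _ _)).trans ?_)
  rw [norm_mul, norm_mul, norm_mul, n2, n3]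
  have hG1' : (0 : ℝ) ≤ G1 := by exact_mod_cast hG1
  have hG2' : (0 : ℝ) ≤ G2 := by exact_mod_cast hG2
  have hG3' : (0 : ℝ) ≤ G3 := by exact_mod_cast hG3
  have hXK : 0 ≤ X ^ K := by positivity
  have s2 : 0 ≤ |1 - (N : ℝ)| * G2 * X ^ 2 * X ^ K := by positivity
  have s3 : 0 ≤ (1 + (N : ℝ)) * G3 * X ^ 2 * X ^ K := by positivity
  nlinarith [r1, r2, r3, s2, s3]

/-- **one row** -/
theorem row_ok {N K : ℕ} {G1 G2 G3 : ℚ} {m1 m2 m3 : List Mo} {L1 L2 L3 Q1 Q2 Q3 : Po}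
    (h : RowC N K G1 G2 G3 m1 m2 m3 L1 L2 L3 Q1 Q2 Q3) (hN : Even N) (hG1 : 0 ≤ G1) (hG2 : 0 ≤ G2) (hG3 : 0 ≤ G3)
    {A : ℝ} {B : ℂ} (c : ZC) {a b : ℝ} (ha : |A| ≤ a) (hb : ‖B‖ ≤ b) (hX1 : a + 3 / 2 * b ≤ 1 / 5) :
    ‖eM ((PI c A B).F1 (b0I A B) (z0I A B)) ((PI c A B).F2 (b0I A B) (z0I A B)) (PI c A B).ph1 (PI c A B).ph2 N
      - evP A B (addP (Qs Q1 Q2 Q3) (twP (Qs Q1 Q2 Q3))) / (3200 * 16 ^ K)‖ ≤
      2 * (25 / 24 * G1 + 3 / 125 * (|1 - (N : ℝ)| * G2 + (1 + N) * G3)) * (a + 3 / 2 * b) ^ K := by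
  have ha0 : 0 ≤ a := (abs_nonneg _).trans ha
  have hb0 : 0 ≤ b := (norm_nonneg _).trans hb
  set X := a + 3 / 2 * b with hXd
  have hXA : |A| + 3 / 2 * ‖B‖ ≤ X := by rw [hXd]; linarith
  have hX0 : 0 ≤ X := by positivity
  rw [eM_form A B c N hN hXA (by linarith)]
  have h1 := half_ok h hG1 hG2 hG3 (A := A) (B := B) ha hb (le_of_eq hXd.symm) (by linarith)
  have h2 := half_ok h hG1 hG2 hG3 (A := A) (B := (starRingEnd ℂ) B) ha (by rwa [Complex.norm_conj])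
    (le_of_eq hXd.symm) (by linarith)
  rw [evP_add, evP_tw, Complex.conj_ofReal]
  have e16 : (starRingEnd ℂ) (3200 * 16 ^ K : ℂ) = 3200 * 16 ^ K := by
    have := Complex.conj_ofReal (3200 * 16 ^ K)
    push_cast at this
    exact this
  have e : mean (J1 N A B) + (starRingEnd ℂ) (mean (J1 N A ((starRingEnd ℂ) B)))
      - (evP A B (Qs Q1 Q2 Q3) + (starRingEnd ℂ) (evP A ((starRingEnd ℂ) B) (Qs Q1 Q2 Q3))) / (3200 * 16 ^ K) =
      (mean (J1 N A B) - evP A B (Qs Q1 Q2 Q3) / (3200 * 16 ^ K))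
      + (starRingEnd ℂ) (mean (J1 N A ((starRingEnd ℂ) B)) - evP A ((starRingEnd ℂ) B) (Qs Q1 Q2 Q3) / (3200 * 16 ^ K)) := by
    rw [map_sub, map_div₀, e16]
    ring
  rw [e]
  refine (norm_add_le _ _).trans ?_
  rw [Complex.norm_conj]
  have hG2' : (0 : ℝ) ≤ G2 := by exact_mod_cast hG2
  have hG3' : (0 : ℝ) ≤ G3 := by exact_mod_cast hG3
  have hXX : X ^ 2 ≤ 1 / 25 := by nlinarith
  have s2 : 0 ≤ |1 - (N : ℝ)| * G2 + (1 + (N : ℝ)) * G3 := by positivity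
  have h3 : (25 / 24 * G1 + 3 / 5 * X ^ 2 * (|1 - (N : ℝ)| * G2 + (1 + N) * G3)) * X ^ K ≤
      (25 / 24 * G1 + 3 / 125 * (|1 - (N : ℝ)| * G2 + (1 + N) * G3)) * X ^ K := by
    refine mul_le_mul_of_nonneg_right ?_ (by positivity)
    have := mul_le_mul_of_nonneg_right hXX s2
    linarith
  linarith

/-- the final form of one row -/
theorem row_fin {N K : ℕ} {G1 G2 G3 : ℚ} {m1 m2 m3 : List Mo} {L1 L2 L3 Q1 Q2 Q3 : Po}
    (h : RowC N K G1 G2 G3 m1 m2 m3 L1 L2 L3 Q1 Q2 Q3) (hN : Even N) (hG1 : 0 ≤ G1) (hG2 : 0 ≤ G2) (hG3 : 0 ≤ G3)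
    (hK : 6 ≤ K) (e : Po) (v : List ℚ) (F : ℤ) (hF : (F : ℚ) * 25600 = 3200 * 16 ^ K) (Cx : ℚ)
    (hCx : 2 * (25 / 24 * G1 + 3 / 125 * (|1 - (N : ℚ)| * G2 + (1 + N) * G3)) * (1 / 5) ^ (K - 6) * (25600 * F) ≤ Cx)
    (hD : chkD (1 / 5) (1 / 8) Cx (addP (addP (Qs Q1 Q2 Q3) (twP (Qs Q1 Q2 Q3))) (smP (-F, 0) e)) v = true)
    {A : ℝ} {B : ℂ} (c : ZC) (hR : |A| + 8 / 5 * ‖B‖ ≤ 1 / 5) (w : List ℚ)
    (hw : (List.range 7).all (fun k => decide (v.getD k 0 ≤ 25600 * F * w.getD k 0)) = true) :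
    ‖eM ((PI c A B).F1 (b0I A B) (z0I A B)) ((PI c A B).F2 (b0I A B) (z0I A B)) (PI c A B).ph1 (PI c A B).ph2 N
      - evP A B e / 25600‖ ≤ evR |A| ‖B‖ (hom6 w) := by
  have hb0 := norm_nonneg B
  have ha0 := abs_nonneg A
  have h1 := row_ok h hN hG1 hG2 hG3 (A := A) (B := B) c le_rfl le_rfl (by linarith)
  set X := |A| + 3 / 2 * ‖B‖ with hX
  have hX0 : 0 ≤ X := by positivity
  have hX1 : X ≤ 1 / 5 := by rw [hX]; linarith
  have hD' := chkD_ok hD (u := (A : ℂ)) (w := B) (a := |A|) (b := ‖B‖) (by rw [Complex.norm_real, Real.norm_eq_abs])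
    le_rfl (by push_cast; linarith) (by push_cast; linarith)
  rw [evP_add, evP_sm, evC_int, ← hX] at hD'
  have hFR : (F : ℝ) * 25600 = 3200 * 16 ^ K := by
    have : (((F : ℚ) * 25600 : ℚ) : ℝ) = ((3200 * 16 ^ K : ℚ) : ℝ) := by rw [hF]
    push_cast at this
    exact this
  have hFC : (F : ℂ) * 25600 = 3200 * 16 ^ K := by
    have : (((F : ℝ) * 25600 : ℝ) : ℂ) = ((3200 * 16 ^ K : ℝ) : ℂ) := by rw [hFR]
    push_cast at this
    exact this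
  have hF0 : (0 : ℝ) < F := by
    have h16 : (0 : ℝ) < 16 ^ K := by positivity
    nlinarith
  have hF0' : (F : ℂ) ≠ 0 := by
    have := hF0.ne'
    exact_mod_cast this
  set S := evP A B (addP (Qs Q1 Q2 Q3) (twP (Qs Q1 Q2 Q3)))
  set em := eM ((PI c A B).F1 (b0I A B) (z0I A B)) ((PI c A B).F2 (b0I A B) (z0I A B)) (PI c A B).ph1
    (PI c A B).ph2 N
  have e2 : em - evP A B e / 25600 = (em - S / (3200 * 16 ^ K)) + (S + ((-F : ℤ) : ℂ) * evP A B e) / (F * 25600) := by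
    rw [← hFC]
    push_cast
    field_simp
    ring
  rw [e2]
  refine (norm_add_le _ _).trans ?_
  rw [norm_div]
  have nF : ‖(F : ℂ) * 25600‖ = F * 25600 := by
    have : (F : ℂ) * 25600 = (((F : ℝ) * 25600 : ℝ) : ℂ) := by push_cast; rfl
    rw [this, Complex.norm_real, Real.norm_eq_abs, abs_of_pos (by positivity)]
  rw [nF]
  have hcx : (2 * (25 / 24 * G1 + 3 / 125 * (|1 - (N : ℝ)| * G2 + (1 + N) * G3)) * (1 / 5) ^ (K - 6)
      * (25600 * F) : ℝ) ≤ Cx := by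
    have : ((2 * (25 / 24 * G1 + 3 / 125 * (|1 - (N : ℚ)| * G2 + (1 + N) * G3)) * (1 / 5) ^ (K - 6)
      * (25600 * F) : ℚ) : ℝ) ≤ (Cx : ℝ) := by exact_mod_cast hCx
    push_cast at this
    exact this
  have hG1' : (0 : ℝ) ≤ G1 := by exact_mod_cast hG1
  have hG2' : (0 : ℝ) ≤ G2 := by exact_mod_cast hG2
  have hG3' : (0 : ℝ) ≤ G3 := by exact_mod_cast hG3
  have hXK : X ^ K ≤ (1 / 5) ^ (K - 6) * X ^ 6 := by
    have : X ^ K = X ^ (K - 6) * X ^ 6 := by rw [← pow_add]; congr 1; omega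
    rw [this]
    exact mul_le_mul_of_nonneg_right (pow_le_pow_left₀ hX0 hX1 _) (by positivity)
  have h3 : 2 * (25 / 24 * G1 + 3 / 125 * (|1 - (N : ℝ)| * G2 + (1 + N) * G3)) * X ^ K ≤ Cx * X ^ 6 / (F * 25600) := by
    rw [le_div_iff₀ (by positivity)]
    have h4 : 2 * (25 / 24 * G1 + 3 / 125 * (|1 - (N : ℝ)| * G2 + (1 + N) * G3)) * X ^ K ≤
        2 * (25 / 24 * G1 + 3 / 125 * (|1 - (N : ℝ)| * G2 + (1 + N) * G3)) * ((1 / 5) ^ (K - 6) * X ^ 6) :=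
      mul_le_mul_of_nonneg_left hXK (by positivity)
    have h5 := mul_le_mul_of_nonneg_right h4 (show (0 : ℝ) ≤ F * 25600 by positivity)
    have h6 := mul_le_mul_of_nonneg_right hcx (show (0 : ℝ) ≤ X ^ 6 by positivity)
    linarith
  have h7 : evR |A| ‖B‖ (hom6 v) ≤ (F * 25600) * evR |A| ‖B‖ (hom6 w) := by
    rw [evR_hom6, evR_hom6, Finset.mul_sum]
    refine Finset.sum_le_sum fun k hk => ?_
    rw [List.all_eq_true] at hw
    have h8 := of_decide_eq_true (hw k (List.mem_range.2 (Finset.mem_range.1 hk)))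
    have h9 : ((v.getD k 0 : ℚ) : ℝ) ≤ 25600 * F * ((w.getD k 0 : ℚ) : ℝ) := by
      have : ((v.getD k 0 : ℚ) : ℝ) ≤ ((25600 * F * w.getD k 0 : ℚ) : ℝ) := by exact_mod_cast h8
      push_cast at this
      exact this
    have h10 := mul_le_mul_of_nonneg_right h9 (show (0 : ℝ) ≤ |A| ^ (6 - k) * ‖B‖ ^ k by positivity)
    linarith
  have h11 : ‖S + ((-F : ℤ) : ℂ) * evP A B e‖ / (F * 25600) + Cx * X ^ 6 / (F * 25600) ≤ evR |A| ‖B‖ (hom6 w) := by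
    rw [← add_div, div_le_iff₀ (by positivity)]
    linarith
  linarith

end Helper42.SH
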