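import Pool.Agent.Helper42.SH.Wts
import Pool.Agent.Helper20.SH.FRF
import Pool.Agent.Helper64.SH.FarU

/-!
# Project RC, SHARP, cell engine: the far rows `hFR` of a record

`FR_rec`: helper20's `FR_ok` for `cd R h len s` from one check `okFR` and the tails `TlE` with natural numbers
`nZ, nU, nE` over `2 ^ 112`; the weights and `b0, b1` are computed.
-/

set_option autoImplicit false

open MeasureTheory Set Filter Topology

namespace Helper42.SH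

open Helper49.Sharp Helper49.Cell
open Helper95.SH (CD nt pV rV sV Fw Fn)
open Helper70.SH (cd LocH Len)
open Pool.Agent.Helper56.TS (TI)
open Pool.Agent.Helper75.SH (WtR okW x2 x3 TSc FARR)
open Pool.Agent.Helper20.SH (FW TlE ZOk FOk)

/-- `(1 + 2 te / 10⁵)²` times `10 ^ 10` -/
def q2N (te : ℕ) : ℕ := Nat.mul (Nat.add 100000 (Nat.mul 2 te)) (Nat.add 100000 (Nat.mul 2 te))

/-- a square of an integer as a natural number -/
def sqN (x : ℤ) : ℕ := Nat.mul (Int.natAbs x) (Int.natAbs x)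

theorem sqN_eq (x : ℤ) : ((sqN x : ℕ) : ℝ) = (x : ℝ) ^ 2 := by
  have h : ((sqN x : ℕ) : ℤ) = x ^ 2 := by
    show ((Int.natAbs x * Int.natAbs x : ℕ) : ℤ) = x ^ 2
    push_cast
    rw [abs_mul_abs_self, pow_two]
  have h2 : ((((sqN x : ℕ) : ℤ)) : ℝ) = ((x ^ 2 : ℤ) : ℝ) := by rw [h]
  push_cast at h2
  exact h2

/-- the constant of the coordinate `0` -/
def b0N (R : Rec) (te aE aR nZ nU nE : ℕ) : ℕ :=
  Nat.succ (Nat.div (Nat.add (Nat.mul (Nat.mul (Nat.mul 17 aE) (q2N te)) (Nat.mul nE (sqN R.lam)))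
    (Nat.mul (Nat.mul 80000000000 aR) (Nat.add (Nat.mul (Nat.mul 8 (q2N te)) nZ) (Nat.mul (Nat.mul 4 (sqN R.mu1)) nU))))
    800000000000000000000000)

/-- the constant of the coordinates `p₀, p₂` -/
def b1N (te aE nE : ℕ) : ℕ := Nat.succ (Nat.div (Nat.mul (Nat.mul (Nat.mul 85 aE) (q2N te)) nE) 20000000000000)

/-- **the check of the far rows** -/
def okFR (R : Rec) (T : TI) (f : FW) (J1 J2 aN aE aR b r K0 : ℕ) : Bool :=
  bif f.okR R.k T.K T.L J1 J2 26 then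
    bif FW.okw aN aE aR then
      bif Nat.ble (Nat.add (sqN R.e1) (sqN R.e2)) (Nat.mul f.te f.te) then
        bif Nat.ble f.te 25000 then
          bif Nat.ble K0 T.K then R.okT b r
          else false
        else false
      else false
    else false
  else false

/-- the diagonal of the far rows of a record -/
def frD (R : Rec) (T : TI) (W : WtR) (f : FW) (aN aE aR nZ nU nE i : ℕ) : ℕ :=
  f.FRI T.K T.L aN (cXw T) (cYw R T W) (cZw R T W) (b0N R f.te aE aR nZ nU nE) (b1N f.te aE nE) i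

section

variable {R : Rec} {C : Crt} (h : R.ok C = true) {K0 : ℕ} (len : Len R K0) (s : ℕ) {T : TI} {W : WtR}
  (hW : okW R T W = true) {f : FW} {J1 J2 aN aE aR b r nZ nU nE : ℕ}

include h in
theorem zok_rec : ZOk (cd R h len s) where
  r := (Rec.ok_sound h).reg
  a0 := rfl
  i1 := (Rec.ok_sound h).i1
  i2 := (Rec.ok_sound h).i2
  e1 := rfl
  e2 := rfl

theorem eta_te {te : ℕ} (k : Nat.ble (Nat.add (sqN R.e1) (sqN R.e2)) (Nat.mul te te) = true) :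
    ‖R.par.eta‖ ≤ (te : ℝ) / 100000 := by
  have h1 : sqN R.e1 + sqN R.e2 ≤ te * te := Nat.le_of_ble_eq_true k
  have h2 : ((sqN R.e1 : ℕ) : ℝ) + ((sqN R.e2 : ℕ) : ℝ) ≤ (te : ℝ) * te := by exact_mod_cast h1
  rw [sqN_eq, sqN_eq] at h2
  refine le_of_sq_le_sq ?_ (by positivity)
  rw [Helper70.SH.eta_sq]
  have e : ((te : ℝ) / 100000) ^ 2 = (te : ℝ) * te / 10000000000 := by ring
  rw [e]
  have : (R.e1 : ℝ) * R.e1 + R.e2 * R.e2 ≤ (te : ℝ) * te := by linarith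
  linarith

include hW in
/-- **THE FAR ROWS OF A RECORD** -/
theorem FR_rec (k : okFR R T f J1 J2 aN aE aR b r K0 = true)
    (tl : TlE (cd R h len s) f.M ((nZ : ℝ) / 2 ^ 112) ((nU : ℝ) / 2 ^ 112) 0 ((nE : ℝ) / 2 ^ 112)) :
    ∀ (N : ℕ) (v : ℕ → ℝ), v 0 = 1 →
      FARR (cd R h len s) T.tsc ((W.bL : ℝ) / 1000) J1 J2 N (max T.K T.L) (pV T.K T.L v) (rV T.K T.L v) (sV T.K v) ≤
        ∑ i ∈ Finset.range (nt T.K T.L), (frD R T W f aN aE aR nZ nU nE i : ℝ) / (10 ^ 9 * 2 ^ 112) * v i ^ 2 := by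
  unfold okFR at k
  rw [bif_iff, bif_iff, bif_iff, bif_iff, bif_iff] at k
  obtain ⟨k1, k2, k3, k4, k5, k6⟩ := k
  obtain ⟨p1, p2, p3⟩ := okW_par hW
  have he := eta_te k3
  have hte : (f.te : ℝ) ≤ 25000 := by exact_mod_cast Nat.le_of_ble_eq_true k4
  have h4 : ‖R.par.eta‖ ≤ 1 / 4 := he.trans (by linarith)
  have hq : (1 + 2 * ‖R.par.eta‖) ^ 2 ≤ (q2N f.te : ℝ) / 10 ^ 10 := by
    have e : (q2N f.te : ℝ) / 10 ^ 10 = (1 + 2 * ((f.te : ℝ) / 100000)) ^ 2 := by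
      have : (q2N f.te : ℝ) = (100000 + 2 * (f.te : ℝ)) * (100000 + 2 * f.te) := by
        show (((100000 + 2 * f.te) * (100000 + 2 * f.te) : ℕ) : ℝ) = _
        push_cast
        ring
      rw [this]
      ring
    rw [e]
    have := norm_nonneg R.par.eta
    exact pow_le_pow_left₀ (by positivity) (by linarith) 2
  have hb0 : 2 ^ 112 * ((aE : ℝ) / 1000 * (17 / 8 * ((q2N f.te : ℝ) / 10 ^ 10) * ((nE : ℝ) / 2 ^ 112) *
      (cd R h len s).P.lam ^ 2) + (aR : ℝ) / 1000 * (2 * (4 * ((q2N f.te : ℝ) / 10 ^ 10) * ((nZ : ℝ) / 2 ^ 112)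
      + 2 * ((cd R h len s).mu1 ^ 2 * ((nU : ℝ) / 2 ^ 112) + (cd R h len s).mu2 ^ 2 * 0)))) ≤
      (b0N R f.te aE aR nZ nU nE : ℝ) := by
    have u := up_div (a := Nat.add (Nat.mul (Nat.mul (Nat.mul 17 aE) (q2N f.te)) (Nat.mul nE (sqN R.lam)))
      (Nat.mul (Nat.mul 80000000000 aR) (Nat.add (Nat.mul (Nat.mul 8 (q2N f.te)) nZ)
        (Nat.mul (Nat.mul 4 (sqN R.mu1)) nU)))) (d := 800000000000000000000000) (by norm_num)
    have e0 : (b0N R f.te aE aR nZ nU nE : ℝ) = (Nat.succ (Nat.div (Nat.add (Nat.mul (Nat.mul (Nat.mul 17 aE)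
      (q2N f.te)) (Nat.mul nE (sqN R.lam))) (Nat.mul (Nat.mul 80000000000 aR) (Nat.add (Nat.mul (Nat.mul 8
      (q2N f.te)) nZ) (Nat.mul (Nat.mul 4 (sqN R.mu1)) nU)))) 800000000000000000000000) : ℕ) := rfl
    rw [← e0] at u
    simp only [Nat.add_eq, Nat.mul_eq, Nat.cast_add, Nat.cast_mul, sqN_eq] at u
    have e1 : (cd R h len s).P.lam = (R.lam : ℝ) / 100000 := rfl
    have e2 : (cd R h len s).mu1 = (R.mu1 : ℝ) / 100000 := rfl
    rw [e1, e2]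
    push_cast at u
    have e3 : 2 ^ 112 * ((aE : ℝ) / 1000 * (17 / 8 * ((q2N f.te : ℝ) / 10 ^ 10) * ((nE : ℝ) / 2 ^ 112) *
      ((R.lam : ℝ) / 100000) ^ 2) + (aR : ℝ) / 1000 * (2 * (4 * ((q2N f.te : ℝ) / 10 ^ 10) * ((nZ : ℝ) / 2 ^ 112)
      + 2 * (((R.mu1 : ℝ) / 100000) ^ 2 * ((nU : ℝ) / 2 ^ 112) + (cd R h len s).mu2 ^ 2 * 0)))) =
      (17 * aE * (q2N f.te : ℝ) * (nE * (R.lam : ℝ) ^ 2) + 80000000000 * aR * (8 * (q2N f.te : ℝ) * nZ
        + 4 * (R.mu1 : ℝ) ^ 2 * nU)) / 800000000000000000000000 := by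
      rw [mul_zero]
      ring
    rw [e3, div_le_iff₀ (by norm_num)]
    exact u
  have hb1 : 2 ^ 112 * ((aE : ℝ) / 1000 * (85 / 2 * ((q2N f.te : ℝ) / 10 ^ 10) * ((nE : ℝ) / 2 ^ 112))) ≤
      (b1N f.te aE nE : ℝ) := by
    have u := up_div (a := Nat.mul (Nat.mul (Nat.mul 85 aE) (q2N f.te)) nE) (d := 20000000000000) (by norm_num)
    have e0 : (b1N f.te aE nE : ℝ) =
      (Nat.succ (Nat.div (Nat.mul (Nat.mul (Nat.mul 85 aE) (q2N f.te)) nE) 20000000000000) : ℕ) := rfl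
    rw [← e0] at u
    simp only [Nat.mul_eq, Nat.cast_mul] at u
    push_cast at u
    have e3 : 2 ^ 112 * ((aE : ℝ) / 1000 * (85 / 2 * ((q2N f.te : ℝ) / 10 ^ 10) * ((nE : ℝ) / 2 ^ 112))) =
      85 * aE * (q2N f.te : ℝ) * nE / 20000000000000 := by
      ring
    rw [e3, div_le_iff₀ (by norm_num)]
    exact u
  exact FW.FR_ok (D := cd R h len s) (c := T.tsc) (k := R.k) (d := (R.d : ℝ) / 100000) (ph := R.cb.ph) k1 rfl he
    (Nat.odd_iff.2 p1) (Nat.even_iff.2 p2) (Nat.le_of_ble_eq_true k5)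
    (fun n hn => Pool.Agent.Helper64.SH.fw_far k6 (by
      rw [← Int.natCast_natAbs]
      exact_mod_cast hn))
    (fun n hn => Pool.Agent.Helper64.SH.fn_far k6 (by
      rw [← Int.natCast_natAbs]
      have : 24 < n.natAbs := by omega
      exact_mod_cast this))
    ⟨zok_rec h len s, tl, FW.okw_sound k2, h4, hq⟩ (tz_pos hW) (y2 h len s hW).1 (y3 h len s hW).1 (cX_ok hW)
    (y2 h len s hW).2 (y3 h len s hW).2 hb0 hb1

include hW in
/-- the same with the tails over `2 ^ (2 w)`, `w = 56` -/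
theorem FR_rec2 (k : okFR R T f J1 J2 aN aE aR b r K0 = true) {w : ℕ} (hw : 2 * w = 112)
    (tl : TlE (cd R h len s) f.M ((nZ : ℝ) / 2 ^ (2 * w)) ((nU : ℝ) / 2 ^ (2 * w)) 0 ((nE : ℝ) / 2 ^ (2 * w))) :
    ∀ (N : ℕ) (v : ℕ → ℝ), v 0 = 1 →
      FARR (cd R h len s) T.tsc ((W.bL : ℝ) / 1000) J1 J2 N (max T.K T.L) (pV T.K T.L v) (rV T.K T.L v) (sV T.K v) ≤
        ∑ i ∈ Finset.range (nt T.K T.L), (frD R T W f aN aE aR nZ nU nE i : ℝ) / (10 ^ 9 * 2 ^ 112) * v i ^ 2 := by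
  rw [hw] at tl
  exact FR_rec h len s hW k tl

end

end Helper42.SH
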