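import Pool.Agent.Helper42.SH.Fast

/-!
# Project RC, SHARP: the powers of `4 ζ_1` and of its conjugate as literal lists
-/

set_option autoImplicit false

namespace Helper42.SH

open Pool.Agent.Helper35.Cas

/-- `4 ζ_1` -/
def Z1 : Po := [((1, 0, 0, 0), (2, -2)), ((0, 0, 1, 0), (2, -2)), ((0, 0, 0, 1), (-1, 1))]

def zs : List (List T3) := [
  [(0, (0, 0, 0, 0), (1, 0))],
  [(5, (0, 0, 0, 1), (-1, 1)), (-5, (0, 0, 1, 0), (2, -2)), (-3, (1, 0, 0, 0), (2, -2))],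
  [(10, (0, 0, 0, 2), (-2, -2)), (0, (0, 0, 1, 1), (8, 8)), (-10, (0, 0, 2, 0), (-8, -8)), (2, (1, 0, 0, 1), (8, 8)), (-8, (1, 0, 1, 0), (-16, -16)), (-6, (2, 0, 0, 0), (-8, -8))],
  [(15, (0, 0, 0, 3), (8, 0)), (5, (0, 0, 1, 2), (-48, 0)), (-5, (0, 0, 2, 1), (96, 0)), (-15, (0, 0, 3, 0), (-64, 0)), (7, (1, 0, 0, 2), (-48, 0)), (-3, (1, 0, 1, 1), (192, 0)), (-13, (1, 0, 2, 0), (-192, 0)), (-1, (2, 0, 0, 1), (96, 0)), (-11, (2, 0, 1, 0), (-192, 0)), (-9, (3, 0, 0, 0), (-64, 0))],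
  [(20, (0, 0, 0, 4), (-8, 8)), (10, (0, 0, 1, 3), (64, -64)), (0, (0, 0, 2, 2), (-192, 192)), (-10, (0, 0, 3, 1), (256, -256)), (-20, (0, 0, 4, 0), (-128, 128)), (12, (1, 0, 0, 3), (64, -64)), (2, (1, 0, 1, 2), (-384, 384)), (-8, (1, 0, 2, 1), (768, -768)), (-18, (1, 0, 3, 0), (-512, 512)), (4, (2, 0, 0, 2), (-192, 192)), (-6, (2, 0, 1, 1), (768, -768)), (-16, (2, 0, 2, 0), (-768, 768)), (-4, (3, 0, 0, 1), (256, -256)), (-14, (3, 0, 1, 0), (-512, 512)), (-12, (4, 0, 0, 0), (-128, 128))],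
  [(25, (0, 0, 0, 5), (-16, -16)), (15, (0, 0, 1, 4), (160, 160)), (5, (0, 0, 2, 3), (-640, -640)), (-5, (0, 0, 3, 2), (1280, 1280)), (-15, (0, 0, 4, 1), (-1280, -1280)), (-25, (0, 0, 5, 0), (512, 512)), (17, (1, 0, 0, 4), (160, 160)), (7, (1, 0, 1, 3), (-1280, -1280)), (-3, (1, 0, 2, 2), (3840, 3840)), (-13, (1, 0, 3, 1), (-5120, -5120)), (-23, (1, 0, 4, 0), (2560, 2560)), (9, (2, 0, 0, 3), (-640, -640)), (-1, (2, 0, 1, 2), (3840, 3840)), (-11, (2, 0, 2, 1), (-7680, -7680)), (-21, (2, 0, 3, 0), (5120, 5120)), (1, (3, 0, 0, 2), (1280, 1280)), (-9, (3, 0, 1, 1), (-5120, -5120)), (-19, (3, 0, 2, 0), (5120, 5120)), (-7, (4, 0, 0, 1), (-1280, -1280)), (-17, (4, 0, 1, 0), (2560, 2560)), (-15, (5, 0, 0, 0), (512, 512))],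
  [(30, (0, 0, 0, 6), (64, 0)), (20, (0, 0, 1, 5), (-768, 0)), (10, (0, 0, 2, 4), (3840, 0)), (0, (0, 0, 3, 3), (-10240, 0)), (-10, (0, 0, 4, 2), (15360, 0)), (-20, (0, 0, 5, 1), (-12288, 0)), (-30, (0, 0, 6, 0), (4096, 0)), (22, (1, 0, 0, 5), (-768, 0)), (12, (1, 0, 1, 4), (7680, 0)), (2, (1, 0, 2, 3), (-30720, 0)), (-8, (1, 0, 3, 2), (61440, 0)), (-18, (1, 0, 4, 1), (-61440, 0)), (-28, (1, 0, 5, 0), (24576, 0)), (14, (2, 0, 0, 4), (3840, 0)), (4, (2, 0, 1, 3), (-30720, 0)), (-6, (2, 0, 2, 2), (92160, 0)), (-16, (2, 0, 3, 1), (-122880, 0)), (-26, (2, 0, 4, 0), (61440, 0)), (6, (3, 0, 0, 3), (-10240, 0)), (-4, (3, 0, 1, 2), (61440, 0)), (-14, (3, 0, 2, 1), (-122880, 0)), (-24, (3, 0, 3, 0), (81920, 0)), (-2, (4, 0, 0, 2), (15360, 0)), (-12, (4, 0, 1, 1), (-61440, 0)), (-22, (4, 0, 2, 0), (61440, 0)), (-10, (5, 0, 0, 1), (-12288, 0)), (-20, (5, 0, 1, 0),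 (24576, 0)), (-18, (6, 0, 0, 0), (4096, 0))],
  [(35, (0, 0, 0, 7), (-64, 64)), (25, (0, 0, 1, 6), (896, -896)), (15, (0, 0, 2, 5), (-5376, 5376)), (5, (0, 0, 3, 4), (17920, -17920)), (-5, (0, 0, 4, 3), (-35840, 35840)), (-15, (0, 0, 5, 2), (43008, -43008)), (-25, (0, 0, 6, 1), (-28672, 28672)), (-35, (0, 0, 7, 0), (8192, -8192)), (27, (1, 0, 0, 6), (896, -896)), (17, (1, 0, 1, 5), (-10752, 10752)), (7, (1, 0, 2, 4), (53760, -53760)), (-3, (1, 0, 3, 3), (-143360, 143360)), (-13, (1, 0, 4, 2), (215040, -215040)), (-23, (1, 0, 5, 1), (-172032, 172032)), (-33, (1, 0, 6, 0), (57344, -57344)), (19, (2, 0, 0, 5), (-5376, 5376)), (9, (2, 0, 1, 4), (53760, -53760)), (-1, (2, 0, 2, 3), (-215040, 215040)), (-11, (2, 0, 3, 2), (430080, -430080)), (-21, (2, 0, 4, 1), (-430080, 430080)), (-31, (2, 0, 5, 0), (172032, -172032)), (11, (3, 0, 0, 4), (17920, -17920)), (1,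 (3, 0, 1, 3), (-143360, 143360)), (-9, (3, 0, 2, 2), (430080, -430080)), (-19, (3, 0, 3, 1), (-573440, 573440)), (-29, (3, 0, 4, 0), (286720, -286720)), (3, (4, 0, 0, 3), (-35840, 35840)), (-7, (4, 0, 1, 2), (215040, -215040)), (-17, (4, 0, 2, 1), (-430080, 430080)), (-27, (4, 0, 3, 0), (286720, -286720)), (-5, (5, 0, 0, 2), (43008, -43008)), (-15, (5, 0, 1, 1), (-172032, 172032)), (-25, (5, 0, 2, 0), (172032, -172032)), (-13, (6, 0, 0, 1), (-28672, 28672)), (-23, (6, 0, 1, 0), (57344, -57344)), (-21, (7, 0, 0, 0), (8192, -8192))],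
  [(40, (0, 0, 0, 8), (-128, -128)), (30, (0, 0, 1, 7), (2048, 2048)), (20, (0, 0, 2, 6), (-14336, -14336)), (10, (0, 0, 3, 5), (57344, 57344)), (0, (0, 0, 4, 4), (-143360, -143360)), (-10, (0, 0, 5, 3), (229376, 229376)), (-20, (0, 0, 6, 2), (-229376, -229376)), (-30, (0, 0, 7, 1), (131072, 131072)), (-40, (0, 0, 8, 0), (-32768, -32768)), (32, (1, 0, 0, 7), (2048, 2048)), (22, (1, 0, 1, 6), (-28672, -28672)), (12, (1, 0, 2, 5), (172032, 172032)), (2, (1, 0, 3, 4), (-573440, -573440)), (-8, (1, 0, 4, 3), (1146880, 1146880)), (-18, (1, 0, 5, 2), (-1376256, -1376256)), (-28, (1, 0, 6, 1), (917504, 917504)), (-38, (1, 0, 7, 0), (-262144, -262144)), (24, (2, 0, 0, 6), (-14336, -14336)), (14, (2, 0, 1, 5), (172032, 172032)), (4, (2, 0, 2, 4), (-860160, -860160)), (-6, (2, 0, 3, 3), (2293760, 2293760)), (-16, (2, 0, 4, 2), (-3440640, -3440640)), (-26, (2, 0,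 5, 1), (2752512, 2752512)), (-36, (2, 0, 6, 0), (-917504, -917504)), (16, (3, 0, 0, 5), (57344, 57344)), (6, (3, 0, 1, 4), (-573440, -573440)), (-4, (3, 0, 2, 3), (2293760, 2293760)), (-14, (3, 0, 3, 2), (-4587520, -4587520)), (-24, (3, 0, 4, 1), (4587520, 4587520)), (-34, (3, 0, 5, 0), (-1835008, -1835008)), (8, (4, 0, 0, 4), (-143360, -143360)), (-2, (4, 0, 1, 3), (1146880, 1146880)), (-12, (4, 0, 2, 2), (-3440640, -3440640)), (-22, (4, 0, 3, 1), (4587520, 4587520)), (-32, (4, 0, 4, 0), (-2293760, -2293760)), (0, (5, 0, 0, 3), (229376, 229376)), (-10, (5, 0, 1, 2), (-1376256, -1376256)), (-20, (5, 0, 2, 1), (2752512, 2752512)), (-30, (5, 0, 3, 0), (-1835008, -1835008)), (-8, (6, 0, 0, 2), (-229376, -229376)), (-18, (6, 0, 1, 1), (917504, 917504)), (-28, (6, 0, 2, 0), (-917504, -917504)), (-16, (7, 0, 0, 1), (131072, 131072)), (-26, (7, 0, 1, 0), (-262144,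 -262144)), (-24, (8, 0, 0, 0), (-32768, -32768))],
  [(45, (0, 0, 0, 9), (512, 0)), (35, (0, 0, 1, 8), (-9216, 0)), (25, (0, 0, 2, 7), (73728, 0)), (15, (0, 0, 3, 6), (-344064, 0)), (5, (0, 0, 4, 5), (1032192, 0)), (-5, (0, 0, 5, 4), (-2064384, 0)), (-15, (0, 0, 6, 3), (2752512, 0)), (-25, (0, 0, 7, 2), (-2359296, 0)), (-35, (0, 0, 8, 1), (1179648, 0)), (-45, (0, 0, 9, 0), (-262144, 0)), (37, (1, 0, 0, 8), (-9216, 0)), (27, (1, 0, 1, 7), (147456, 0)), (17, (1, 0, 2, 6), (-1032192, 0)), (7, (1, 0, 3, 5), (4128768, 0)), (-3, (1, 0, 4, 4), (-10321920, 0)), (-13, (1, 0, 5, 3), (16515072, 0)), (-23, (1, 0, 6, 2), (-16515072, 0)), (-33, (1, 0, 7, 1), (9437184, 0)), (-43, (1, 0, 8, 0), (-2359296, 0)), (29, (2, 0, 0, 7), (73728, 0)), (19, (2, 0, 1, 6), (-1032192, 0)), (9, (2, 0, 2, 5), (6193152, 0)), (-1, (2, 0, 3, 4), (-20643840, 0)), (-11, (2, 0, 4, 3), (41287680,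 0)), (-21, (2, 0, 5, 2), (-49545216, 0)), (-31, (2, 0, 6, 1), (33030144, 0)), (-41, (2, 0, 7, 0), (-9437184, 0)), (21, (3, 0, 0, 6), (-344064, 0)), (11, (3, 0, 1, 5), (4128768, 0)), (1, (3, 0, 2, 4), (-20643840, 0)), (-9, (3, 0, 3, 3), (55050240, 0)), (-19, (3, 0, 4, 2), (-82575360, 0)), (-29, (3, 0, 5, 1), (66060288, 0)), (-39, (3, 0, 6, 0), (-22020096, 0)), (13, (4, 0, 0, 5), (1032192, 0)), (3, (4, 0, 1, 4), (-10321920, 0)), (-7, (4, 0, 2, 3), (41287680, 0)), (-17, (4, 0, 3, 2), (-82575360, 0)), (-27, (4, 0, 4, 1), (82575360, 0)), (-37, (4, 0, 5, 0), (-33030144, 0)), (5, (5, 0, 0, 4), (-2064384, 0)), (-5, (5, 0, 1, 3), (16515072, 0)), (-15, (5, 0, 2, 2), (-49545216, 0)), (-25, (5, 0, 3, 1), (66060288, 0)), (-35, (5, 0, 4, 0), (-33030144, 0)), (-3, (6, 0, 0, 3), (2752512, 0)), (-13, (6, 0, 1, 2), (-16515072, 0)), (-23, (6, 0, 2, 1), (33030144, 0)), (-33,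 (6, 0, 3, 0), (-22020096, 0)), (-11, (7, 0, 0, 2), (-2359296, 0)), (-21, (7, 0, 1, 1), (9437184, 0)), (-31, (7, 0, 2, 0), (-9437184, 0)), (-19, (8, 0, 0, 1), (1179648, 0)), (-29, (8, 0, 1, 0), (-2359296, 0)), (-27, (9, 0, 0, 0), (-262144, 0))]]

def zcs : List (List T3) := [
  [(0, (0, 0, 0, 0), (1, 0))],
  [(5, (0, 0, 0, 1), (2, 2)), (-5, (0, 0, 1, 0), (-1, -1)), (3, (0, 1, 0, 0), (2, 2))],
  [(10, (0, 0, 0, 2), (-8, 8)), (0, (0, 0, 1, 1), (8, -8)), (-10, (0, 0, 2, 0), (-2, 2)), (8, (0, 1, 0, 1), (-16, 16)), (-2, (0, 1, 1, 0), (8, -8)), (6, (0, 2, 0, 0), (-8, 8))],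
  [(15, (0, 0, 0, 3), (-64, 0)), (5, (0, 0, 1, 2), (96, 0)), (-5, (0, 0, 2, 1), (-48, 0)), (-15, (0, 0, 3, 0), (8, 0)), (13, (0, 1, 0, 2), (-192, 0)), (3, (0, 1, 1, 1), (192, 0)), (-7, (0, 1, 2, 0), (-48, 0)), (11, (0, 2, 0, 1), (-192, 0)), (1, (0, 2, 1, 0), (96, 0)), (9, (0, 3, 0, 0), (-64, 0))],
  [(20, (0, 0, 0, 4), (-128, -128)), (10, (0, 0, 1, 3), (256, 256)), (0, (0, 0, 2, 2), (-192, -192)), (-10, (0, 0, 3, 1), (64, 64)), (-20, (0, 0, 4, 0), (-8, -8)), (18, (0, 1, 0, 3), (-512, -512)), (8, (0, 1, 1, 2), (768, 768)), (-2, (0, 1, 2, 1), (-384, -384)), (-12, (0, 1, 3, 0), (64, 64)), (16, (0, 2, 0, 2), (-768, -768)), (6, (0, 2, 1, 1), (768, 768)), (-4, (0, 2, 2, 0), (-192, -192)), (14, (0, 3, 0, 1), (-512, -512)), (4, (0, 3, 1, 0), (256, 256)), (12, (0, 4, 0, 0), (-128, -128))],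
  [(25, (0, 0, 0, 5), (512, -512)), (15, (0, 0, 1, 4), (-1280, 1280)), (5, (0, 0, 2, 3), (1280, -1280)), (-5, (0, 0, 3, 2), (-640, 640)), (-15, (0, 0, 4, 1), (160, -160)), (-25, (0, 0, 5, 0), (-16, 16)), (23, (0, 1, 0, 4), (2560, -2560)), (13, (0, 1, 1, 3), (-5120, 5120)), (3, (0, 1, 2, 2), (3840, -3840)), (-7, (0, 1, 3, 1), (-1280, 1280)), (-17, (0, 1, 4, 0), (160, -160)), (21, (0, 2, 0, 3), (5120, -5120)), (11, (0, 2, 1, 2), (-7680, 7680)), (1, (0, 2, 2, 1), (3840, -3840)), (-9, (0, 2, 3, 0), (-640, 640)), (19, (0, 3, 0, 2), (5120, -5120)), (9, (0, 3, 1, 1), (-5120, 5120)), (-1, (0, 3, 2, 0), (1280, -1280)), (17, (0, 4, 0, 1), (2560, -2560)), (7, (0, 4, 1, 0), (-1280, 1280)), (15, (0, 5, 0, 0), (512, -512))],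
  [(30, (0, 0, 0, 6), (4096, 0)), (20, (0, 0, 1, 5), (-12288, 0)), (10, (0, 0, 2, 4), (15360, 0)), (0, (0, 0, 3, 3), (-10240, 0)), (-10, (0, 0, 4, 2), (3840, 0)), (-20, (0, 0, 5, 1), (-768, 0)), (-30, (0, 0, 6, 0), (64, 0)), (28, (0, 1, 0, 5), (24576, 0)), (18, (0, 1, 1, 4), (-61440, 0)), (8, (0, 1, 2, 3), (61440, 0)), (-2, (0, 1, 3, 2), (-30720, 0)), (-12, (0, 1, 4, 1), (7680, 0)), (-22, (0, 1, 5, 0), (-768, 0)), (26, (0, 2, 0, 4), (61440, 0)), (16, (0, 2, 1, 3), (-122880, 0)), (6, (0, 2, 2, 2), (92160, 0)), (-4, (0, 2, 3, 1), (-30720, 0)), (-14, (0, 2, 4, 0), (3840, 0)), (24, (0, 3, 0, 3), (81920, 0)), (14, (0, 3, 1, 2), (-122880, 0)), (4, (0, 3, 2, 1), (61440, 0)), (-6, (0, 3, 3, 0), (-10240, 0)), (22, (0, 4, 0, 2), (61440, 0)), (12, (0, 4, 1, 1), (-61440, 0)), (2, (0, 4, 2, 0), (15360, 0)), (20, (0, 5, 0, 1), (24576, 0)), (10, (0, 5, 1, 0), (-12288,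 0)), (18, (0, 6, 0, 0), (4096, 0))],
  [(35, (0, 0, 0, 7), (8192, 8192)), (25, (0, 0, 1, 6), (-28672, -28672)), (15, (0, 0, 2, 5), (43008, 43008)), (5, (0, 0, 3, 4), (-35840, -35840)), (-5, (0, 0, 4, 3), (17920, 17920)), (-15, (0, 0, 5, 2), (-5376, -5376)), (-25, (0, 0, 6, 1), (896, 896)), (-35, (0, 0, 7, 0), (-64, -64)), (33, (0, 1, 0, 6), (57344, 57344)), (23, (0, 1, 1, 5), (-172032, -172032)), (13, (0, 1, 2, 4), (215040, 215040)), (3, (0, 1, 3, 3), (-143360, -143360)), (-7, (0, 1, 4, 2), (53760, 53760)), (-17, (0, 1, 5, 1), (-10752, -10752)), (-27, (0, 1, 6, 0), (896, 896)), (31, (0, 2, 0, 5), (172032, 172032)), (21, (0, 2, 1, 4), (-430080, -430080)), (11, (0, 2, 2, 3), (430080, 430080)), (1, (0, 2, 3, 2), (-215040, -215040)), (-9, (0, 2, 4, 1), (53760, 53760)), (-19, (0, 2, 5, 0), (-5376, -5376)), (29, (0, 3, 0, 4), (286720, 286720)), (19, (0, 3, 1,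 3), (-573440, -573440)), (9, (0, 3, 2, 2), (430080, 430080)), (-1, (0, 3, 3, 1), (-143360, -143360)), (-11, (0, 3, 4, 0), (17920, 17920)), (27, (0, 4, 0, 3), (286720, 286720)), (17, (0, 4, 1, 2), (-430080, -430080)), (7, (0, 4, 2, 1), (215040, 215040)), (-3, (0, 4, 3, 0), (-35840, -35840)), (25, (0, 5, 0, 2), (172032, 172032)), (15, (0, 5, 1, 1), (-172032, -172032)), (5, (0, 5, 2, 0), (43008, 43008)), (23, (0, 6, 0, 1), (57344, 57344)), (13, (0, 6, 1, 0), (-28672, -28672)), (21, (0, 7, 0, 0), (8192, 8192))],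
  [(40, (0, 0, 0, 8), (-32768, 32768)), (30, (0, 0, 1, 7), (131072, -131072)), (20, (0, 0, 2, 6), (-229376, 229376)), (10, (0, 0, 3, 5), (229376, -229376)), (0, (0, 0, 4, 4), (-143360, 143360)), (-10, (0, 0, 5, 3), (57344, -57344)), (-20, (0, 0, 6, 2), (-14336, 14336)), (-30, (0, 0, 7, 1), (2048, -2048)), (-40, (0, 0, 8, 0), (-128, 128)), (38, (0, 1, 0, 7), (-262144, 262144)), (28, (0, 1, 1, 6), (917504, -917504)), (18, (0, 1, 2, 5), (-1376256, 1376256)), (8, (0, 1, 3, 4), (1146880, -1146880)), (-2, (0, 1, 4, 3), (-573440, 573440)), (-12, (0, 1, 5, 2), (172032, -172032)), (-22, (0, 1, 6, 1), (-28672, 28672)), (-32, (0, 1, 7, 0), (2048, -2048)), (36, (0, 2, 0, 6), (-917504, 917504)), (26, (0, 2, 1, 5), (2752512, -2752512)), (16, (0, 2, 2, 4), (-3440640, 3440640)), (6, (0, 2, 3, 3), (2293760, -2293760)), (-4, (0, 2, 4, 2), (-860160, 860160)), (-14, (0, 2,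 5, 1), (172032, -172032)), (-24, (0, 2, 6, 0), (-14336, 14336)), (34, (0, 3, 0, 5), (-1835008, 1835008)), (24, (0, 3, 1, 4), (4587520, -4587520)), (14, (0, 3, 2, 3), (-4587520, 4587520)), (4, (0, 3, 3, 2), (2293760, -2293760)), (-6, (0, 3, 4, 1), (-573440, 573440)), (-16, (0, 3, 5, 0), (57344, -57344)), (32, (0, 4, 0, 4), (-2293760, 2293760)), (22, (0, 4, 1, 3), (4587520, -4587520)), (12, (0, 4, 2, 2), (-3440640, 3440640)), (2, (0, 4, 3, 1), (1146880, -1146880)), (-8, (0, 4, 4, 0), (-143360, 143360)), (30, (0, 5, 0, 3), (-1835008, 1835008)), (20, (0, 5, 1, 2), (2752512, -2752512)), (10, (0, 5, 2, 1), (-1376256, 1376256)), (0, (0, 5, 3, 0), (229376, -229376)), (28, (0, 6, 0, 2), (-917504, 917504)), (18, (0, 6, 1, 1), (917504, -917504)), (8, (0, 6, 2, 0), (-229376, 229376)), (26, (0, 7, 0, 1), (-262144, 262144)), (16, (0, 7, 1, 0), (131072, -131072)), (24,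 (0, 8, 0, 0), (-32768, 32768))],
  [(45, (0, 0, 0, 9), (-262144, 0)), (35, (0, 0, 1, 8), (1179648, 0)), (25, (0, 0, 2, 7), (-2359296, 0)), (15, (0, 0, 3, 6), (2752512, 0)), (5, (0, 0, 4, 5), (-2064384, 0)), (-5, (0, 0, 5, 4), (1032192, 0)), (-15, (0, 0, 6, 3), (-344064, 0)), (-25, (0, 0, 7, 2), (73728, 0)), (-35, (0, 0, 8, 1), (-9216, 0)), (-45, (0, 0, 9, 0), (512, 0)), (43, (0, 1, 0, 8), (-2359296, 0)), (33, (0, 1, 1, 7), (9437184, 0)), (23, (0, 1, 2, 6), (-16515072, 0)), (13, (0, 1, 3, 5), (16515072, 0)), (3, (0, 1, 4, 4), (-10321920, 0)), (-7, (0, 1, 5, 3), (4128768, 0)), (-17, (0, 1, 6, 2), (-1032192, 0)), (-27, (0, 1, 7, 1), (147456, 0)), (-37, (0, 1, 8, 0), (-9216, 0)), (41, (0, 2, 0, 7), (-9437184, 0)), (31, (0, 2, 1, 6), (33030144, 0)), (21, (0, 2, 2, 5), (-49545216, 0)), (11, (0, 2, 3, 4), (41287680, 0)), (1, (0, 2, 4, 3), (-20643840, 0)), (-9,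 (0, 2, 5, 2), (6193152, 0)), (-19, (0, 2, 6, 1), (-1032192, 0)), (-29, (0, 2, 7, 0), (73728, 0)), (39, (0, 3, 0, 6), (-22020096, 0)), (29, (0, 3, 1, 5), (66060288, 0)), (19, (0, 3, 2, 4), (-82575360, 0)), (9, (0, 3, 3, 3), (55050240, 0)), (-1, (0, 3, 4, 2), (-20643840, 0)), (-11, (0, 3, 5, 1), (4128768, 0)), (-21, (0, 3, 6, 0), (-344064, 0)), (37, (0, 4, 0, 5), (-33030144, 0)), (27, (0, 4, 1, 4), (82575360, 0)), (17, (0, 4, 2, 3), (-82575360, 0)), (7, (0, 4, 3, 2), (41287680, 0)), (-3, (0, 4, 4, 1), (-10321920, 0)), (-13, (0, 4, 5, 0), (1032192, 0)), (35, (0, 5, 0, 4), (-33030144, 0)), (25, (0, 5, 1, 3), (66060288, 0)), (15, (0, 5, 2, 2), (-49545216, 0)), (5, (0, 5, 3, 1), (16515072, 0)), (-5, (0, 5, 4, 0), (-2064384, 0)), (33, (0, 6, 0, 3), (-22020096, 0)), (23, (0, 6, 1, 2), (33030144, 0)), (13, (0, 6, 2, 1), (-16515072, 0)), (3, (0, 6, 3, 0), (2752512,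 0)), (31, (0, 7, 0, 2), (-9437184, 0)), (21, (0, 7, 1, 1), (9437184, 0)), (11, (0, 7, 2, 0), (-2359296, 0)), (29, (0, 8, 0, 1), (-2359296, 0)), (19, (0, 8, 1, 0), (1179648, 0)), (27, (0, 9, 0, 0), (-262144, 0))]]

theorem zs_ok : chkPW Z1 [((0, 0, 0, 0), (1, 0))] zs = true := by decide +kernel

theorem zcs_ok : chkPW (cjP Z1) [((0, 0, 0, 0), (1, 0))] zcs = true := by decide +kernel

end Helper42.SH
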