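import Pool.Agent.Helper33.SH.W
import Pool.Agent.Helper42.SH.Pows

/-!
# Project RC, SHARP: the aligned moments of the base, exact formula

`eM = m(A, B) + conj (m(A, conj B))`, `m(A, B) = mean (J1 N A B)`, `J1` is the density of the first family.
-/

set_option autoImplicit false

open MeasureTheory Set Filter Metric

namespace Helper42.SH

open Helper49.LT hiding sg s3
open Helper49.RC (om)
open Helper44.GQ Helper49.Sharp
open Helper56.RC (fc)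
open Pool.Agent.Helper35.RC
open Pool.Agent.Helper35.Cas
open Pool.Agent.Helper33.SH (PI z0I b0I ζ1 ζ2 om2 ZC)
open Pool.Agent.Helper20.RC (wR eM eD lk)

theorem one_ne {ζ : ℂ} (h : ‖ζ‖ < 1) : 1 + ζ ≠ 0 := by
  intro h0
  have : ζ = -1 := by linear_combination h0
  rw [this] at h
  simp at h

theorem Ph_mul (a b c d : ℝ) {ζ : ℂ} (h : ‖ζ‖ < 1) : Ph a b ζ * Ph c d ζ = Ph (a + c) (b + d) ζ := by
  have h1 := one_ne h
  unfold Ph
  rw [Complex.ofReal_add, Complex.ofReal_add, Complex.cpow_add _ _ h1, Complex.cpow_add _ _ h1, map_mul]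
  ring

theorem Ph_swap (a b : ℝ) (ζ : ℂ) : (starRingEnd ℂ) (Ph a b ζ) = Ph b a ζ := by
  unfold Ph
  rw [map_mul, Complex.conj_conj]
  ring

theorem Ph_zero (ζ : ℂ) : Ph 0 0 ζ = 1 := by
  unfold Ph
  simp

theorem Ph_pow (a b : ℝ) {ζ : ℂ} (h : ‖ζ‖ < 1) (n : ℕ) : Ph a b ζ ^ n = Ph (n * a) (n * b) ζ := by
  induction n with
  | zero => simp [Ph_zero]
  | succ n ih =>
    rw [pow_succ, ih, Ph_mul _ _ _ _ h]
    congr 1 <;> push_cast <;> ring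

theorem Ph_lin (ζ : ℂ) : Ph 1 0 ζ = 1 + ζ := by
  unfold Ph
  simp

theorem Ph_unit {ζ : ℂ} (h : ‖ζ‖ < 1) : (1 + ζ) / (‖1 + ζ‖ : ℂ) = Ph (1 / 2) (-(1 / 2)) ζ := by
  have hF := one_ne h
  have hp : 0 < ‖1 + ζ‖ := norm_pos_iff.2 hF
  have h1 : Ph (1 / 2) (1 / 2) ζ = (‖1 + ζ‖ : ℂ) := by
    unfold Ph
    rw [Complex.mul_conj, Complex.normSq_eq_norm_sq, Complex.norm_cpow_of_ne_zero hF]
    simp only [Complex.ofReal_re, Complex.ofReal_im, mul_zero, Real.exp_zero, div_one]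
    rw [← Real.rpow_natCast, ← Real.rpow_mul hp.le]
    norm_num
  rw [div_eq_iff (by exact_mod_cast hp.ne'), ← h1, Ph_mul _ _ _ _ h, ← Ph_lin]
  congr 1 <;> norm_num

theorem Ph_carg (a b : ℝ) {ζ : ℂ} (h : ‖ζ‖ < 1) : Ph a b ((starRingEnd ℂ) ζ) = (starRingEnd ℂ) (Ph a b ζ) := by
  have hs : (1 + ζ).arg ≠ Real.pi := by
    have := Complex.mem_slitPlane_of_norm_lt_one h
    exact (Complex.mem_slitPlane_iff_arg.1 this).1
  have key : ∀ c : ℝ, (1 + (starRingEnd ℂ) ζ) ^ (c : ℂ) = (starRingEnd ℂ) ((1 + ζ) ^ (c : ℂ)) := by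
    intro c
    have h1 : 1 + (starRingEnd ℂ) ζ = (starRingEnd ℂ) (1 + ζ) := by rw [map_add, map_one]
    rw [h1, Complex.conj_cpow _ _ hs, Complex.conj_ofReal]
  unfold Ph
  rw [key, key, map_mul]

/-- the density of one family in the moving frame -/
theorem eD_form (N : ℕ) (w : ℝ) {ω β ζ : ℂ} {t φ θ : ℝ} {g : ℝ → ℂ} {ph : ℝ → ℝ} (hω : ω * (starRingEnd ℂ) ω = 1)
    (hζ : ‖ζ‖ < 1) (hg : g θ = (w : ℂ) * (ee t * (ω * (1 + ζ) + β))) (hph : ph θ = φ)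
    (hφ : ee φ = ee t * (ω * ((1 + ζ) / (‖1 + ζ‖ : ℂ)))) :
    eD g ph N θ = ee (-((N : ℝ) * t)) * ((w : ℂ) * (starRingEnd ℂ) ω ^ N * Ph ((1 - N) / 2) ((1 + N) / 2) ζ
      + (1 - N) / 2 * β * (w : ℂ) * (starRingEnd ℂ) ω ^ (N + 1) * Ph (-((N + 1) / 2)) ((N + 1) / 2) ζ
      + (1 + N) / 2 * (starRingEnd ℂ) β * (w : ℂ) * ((starRingEnd ℂ) ω ^ N * ω)
          * Ph (-((N - 1) / 2)) ((N - 1) / 2) ζ) := by
  have he : ee (-φ) = ee (-t) * ((starRingEnd ℂ) ω * Ph (-(1 / 2)) (1 / 2) ζ) := by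
    rw [ee_neg, hφ, map_mul, map_mul, Ph_unit hζ, Ph_swap, ee_neg]
  have hN : ee (-((N : ℝ) * φ)) = ee (-φ) ^ N := by
    rw [ee_pow]
    congr 1
    ring
  have hNt : ee (-((N : ℝ) * t)) = ee (-t) ^ N := by
    rw [ee_pow]
    congr 1
    ring
  have htt : ee t * ee (-t) = 1 := by rw [← ee_add]; simp [ee]
  set u : ℂ := Ph (-(1 / 2)) (1 / 2) ζ with hu
  set x : ℂ := g θ * ee (-ph θ) with hx
  have hx1 : x = (w : ℂ) * ((ω * (1 + ζ) + β) * ((starRingEnd ℂ) ω * u)) := by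
    rw [hx, hph, hg, he]
    linear_combination ((w : ℂ) * (ω * (1 + ζ) + β) * ((starRingEnd ℂ) ω * u)) * htt
  have hxc : (starRingEnd ℂ) x = (w : ℂ) * (((starRingEnd ℂ) ω * (1 + (starRingEnd ℂ) ζ) + (starRingEnd ℂ) β)
      * (ω * Ph (1 / 2) (-(1 / 2)) ζ)) := by
    rw [hx1]
    simp only [map_mul, map_add, map_one, Complex.conj_ofReal, Complex.conj_conj]
    rw [hu, Ph_swap]
  have hri : ((x.re : ℂ) - Complex.I * ((N : ℝ) : ℂ) * (x.im : ℂ)) = (1 - N) / 2 * x + (1 + N) / 2 * (starRingEnd ℂ) x := by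
    apply Complex.ext
    · simp
      ring
    · simp
      ring
  unfold eD
  rw [← hx, hri, hph, hN, he, mul_pow, mul_pow, ← hNt, hxc, hx1]
  have p0 : u ^ N = Ph (-(N / 2)) (N / 2) ζ := by
    rw [hu, Ph_pow _ _ hζ]
    congr 1 <;> ring
  have p1 : (1 + ζ) * u * u ^ N = Ph ((1 - N) / 2) ((1 + N) / 2) ζ := by
    rw [p0, hu, ← Ph_lin, Ph_mul _ _ _ _ hζ, Ph_mul _ _ _ _ hζ]
    congr 1 <;> ring
  have p2 : u * u ^ N = Ph (-((N + 1) / 2)) ((N + 1) / 2) ζ := by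
    rw [p0, hu, Ph_mul _ _ _ _ hζ]
    congr 1 <;> ring
  have hc1 : 1 + (starRingEnd ℂ) ζ = Ph 0 1 ζ := by
    rw [← Ph_swap, Ph_lin, map_add, map_one]
  have p3 : (1 + (starRingEnd ℂ) ζ) * Ph (1 / 2) (-(1 / 2)) ζ * u ^ N = Ph ((1 - N) / 2) ((1 + N) / 2) ζ := by
    rw [p0, hc1, Ph_mul _ _ _ _ hζ, Ph_mul _ _ _ _ hζ]
    congr 1 <;> ring
  have p4 : Ph (1 / 2) (-(1 / 2)) ζ * u ^ N = Ph (-((N - 1) / 2)) ((N - 1) / 2) ζ := by
    rw [p0, Ph_mul _ _ _ _ hζ]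
    congr 1 <;> ring
  rw [← p2, ← p4]
  have hω2 : (ω * (1 + ζ) + β) * ((starRingEnd ℂ) ω * u) * u ^ N = (1 + ζ) * u * u ^ N
      + β * (starRingEnd ℂ) ω * (u * u ^ N) := by
    linear_combination ((1 + ζ) * u * u ^ N) * hω
  have hω3 : ((starRingEnd ℂ) ω * (1 + (starRingEnd ℂ) ζ) + (starRingEnd ℂ) β) * (ω * Ph (1 / 2) (-(1 / 2)) ζ)
      * u ^ N = (1 + (starRingEnd ℂ) ζ) * Ph (1 / 2) (-(1 / 2)) ζ * u ^ N
      + (starRingEnd ℂ) β * ω * (Ph (1 / 2) (-(1 / 2)) ζ * u ^ N) := by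
    linear_combination ((1 + (starRingEnd ℂ) ζ) * Ph (1 / 2) (-(1 / 2)) ζ * u ^ N) * hω
  rw [p1] at hω2
  rw [p3] at hω3
  push_cast
  linear_combination (ee (-((N : ℝ) * t)) * (w : ℂ) * (starRingEnd ℂ) ω ^ N * ((1 - N) / 2)) * hω2
    + (ee (-((N : ℝ) * t)) * (w : ℂ) * (starRingEnd ℂ) ω ^ N * ((1 + N) / 2)) * hω3

end Helper42.SH
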