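import Pool.Agent.Helper35.SH.Mom

/-!
# Project RC, SHARP: a fast version of the moment theorem

The terms of frequency `L` of `P Σ c_ij Z^i (conj Z)^j` are found by comparing frequencies (no insertion of the
other terms); the powers of `Z` and `conj Z` are literal lists with the frequencies in front.
-/

set_option autoImplicit false

open MeasureTheory Set Filter Metric

namespace Helper42.SH

open Helper49.LT hiding sg s3
open Pool.Agent.Helper35.RC
open Pool.Agent.Helper35.Cas

/-- term with its frequency -/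
abbrev T3 := ℤ × Mo × Co

/-- the polynomial of a list of terms with frequencies -/
def unF (L : List T3) : Po := L.map fun x => x.2

/-- the frequencies are right -/
def okF (L : List T3) : Bool := L.all fun x => decide (x.1 = frq x.2.1)

/-- products of one term with a list -/
def ft (tgt : ℤ) (m : Mo) (c : Co) : List T3 → Po → Po
  | [], acc => acc
  | z :: q, acc =>
    if z.1 = tgt then ft tgt m c q (ins (mulM m z.2.1) (mulC c z.2.2) acc) else ft tgt m c q acc

/-- products of two lists with one term -/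
def fm (tgt : ℤ) (m : Mo) (c : Co) : List T3 → List T3 → Po → Po
  | [], _, acc => acc
  | x :: p, q, acc => fm tgt m c p q (ft (tgt - x.1) (mulM m x.2.1) (mulC c x.2.2) q acc)

/-- loop over the power of `conj Z` -/
def fj (tgt : ℤ) (m : Mo) (c : Co) (bp q : ℤ) (s K i : ℕ) (zi : List T3) : ℕ → List (List T3) → ℕ → Po → Po
  | 0, _, _, acc => acc
  | _ + 1, [], _, acc => acc
  | n + 1, zj :: Ls, j, acc =>
    if (i + j) % 2 = s then
      fj tgt m c bp q s K i zi n Ls (j + 1)
        (fm tgt m (mulC (bp * bi q j * 16 ^ (K - (i + j)), 0) c) zi zj acc)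
    else fj tgt m c bp q s K i zi n Ls (j + 1) acc

/-- loop over the power of `Z` -/
def fi (tgt : ℤ) (m : Mo) (c : Co) (p q : ℤ) (s K : ℕ) (zcs : List (List T3)) :
    ℕ → List (List T3) → ℕ → Po → Po
  | 0, _, _, acc => acc
  | _ + 1, [], _, acc => acc
  | n + 1, zi :: Ls, i, acc =>
    fi tgt m c p q s K zcs n Ls (i + 1) (fj tgt m c (bi p i) q s K i zi (n + 1) zcs 0 acc)

/-- loop over the terms of `P` -/
def fP (L p q : ℤ) (s K : ℕ) (zs zcs : List (List T3)) : Po → Po → Po
  | [], acc => acc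
  | y :: P, acc => fP L p q s K zs zcs P (fi (L - frq y.1) y.1 y.2 p q s K zcs K zs 0 acc)

/-- the functional -/
noncomputable def mL (A B : ℂ) (L : ℤ) (F : ℂ → ℂ → ℂ) : ℂ :=
  mean fun t => ee (((-L : ℤ) : ℝ) * t) * F (uu A t) (vv B t)

/-- continuity of a function of `u, v` -/
def CC (F : ℂ → ℂ → ℂ) : Prop := Continuous fun p : ℂ × ℂ => F p.1 p.2

theorem cont_uv (A B : ℂ) : Continuous fun t : ℝ => (uu A t, vv B t) := by
  have h := continuous_ee
  unfold uu vv
  fun_prop

theorem CC.comp' {F : ℂ → ℂ → ℂ} (h : CC F) (A B : ℂ) : Continuous fun t : ℝ => F (uu A t) (vv B t) :=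
  h.comp (cont_uv A B)

theorem CC.eM (m : Mo) : CC fun u v => evM u v m := by
  unfold CC evM
  fun_prop

theorem CC.eP : ∀ p : Po, CC fun u v => evP u v p
  | [] => by unfold CC; simp only [evP_nil]; exact continuous_const
  | x :: p => by
    have h1 := CC.eM x.1
    have h2 := CC.eP p
    unfold CC at *
    simp only [evP_cons]
    exact (continuous_const.mul h1).add h2

theorem CC.mul {F G : ℂ → ℂ → ℂ} (h : CC F) (k : CC G) : CC fun u v => F u v * G u v := by
  unfold CC at *
  exact h.mul k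

theorem CC.add {F G : ℂ → ℂ → ℂ} (h : CC F) (k : CC G) : CC fun u v => F u v + G u v := by
  unfold CC at *
  exact h.add k

theorem CC.con (c : ℂ) : CC fun _ _ => c := continuous_const

theorem mL_add (A B : ℂ) (L : ℤ) {F G : ℂ → ℂ → ℂ} (h : CC F) (k : CC G) :
    mL A B L (fun u v => F u v + G u v) = mL A B L F + mL A B L G := by
  unfold mL
  have c0 : Continuous fun t : ℝ => ee (((-L : ℤ) : ℝ) * t) := continuous_ee.comp (by fun_prop)
  have h1 := mean_add (F := fun t => ee (((-L : ℤ) : ℝ) * t) * F (uu A t) (vv B t))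
    (G := fun t => ee (((-L : ℤ) : ℝ) * t) * G (uu A t) (vv B t))
    (c0.mul (h.comp' A B)) (c0.mul (k.comp' A B))
  rw [← h1]
  congr 1
  funext t
  ring

theorem mL_term (A B : ℂ) (L : ℤ) (m : Mo) (c : Co) :
    mL A B L (fun u v => evC c * evM u v m) = if frq m = L then evC c * evM A B m else 0 := by
  have h := mean_ee_evP A B (-L) [(m, c)]
  unfold mL
  have e : (fun t => ee (((-L : ℤ) : ℝ) * t) * evP (uu A t) (vv B t) [(m, c)]) =
      fun t => ee (((-L : ℤ) : ℝ) * t) * (evC c * evM (uu A t) (vv B t) m) := by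
    funext t
    rw [evP_cons, evP_nil, add_zero]
  rw [e] at h
  rw [h]
  unfold fl
  rw [neg_neg]
  split_ifs with h1
  · rw [evP_cons]; simp [fl]
  · simp [fl]

theorem frq_mul (m n : Mo) : frq (mulM m n) = frq m + frq n := by
  unfold frq mulM
  push_cast
  ring

theorem ft_ok (A B : ℂ) (L : ℤ) (m : Mo) (c : Co) : ∀ (q : List T3) (acc : Po), okF q = true →
    evP A B (ft (L - frq m) m c q acc) = evP A B acc
      + mL A B L (fun u v => evC c * evM u v m * evP u v (unF q))
  | [], acc, _ => by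
    simp only [ft, unF, List.map_nil, evP_nil, mul_zero]
    unfold mL
    simp [mean]
  | z :: q, acc, h => by
    unfold okF at h
    rw [List.all_cons, Bool.and_eq_true, decide_eq_true_eq] at h
    obtain ⟨h1, h2⟩ := h
    have e : (fun u v => evC c * evM u v m * evP u v (unF (z :: q))) = fun u v =>
        evC (mulC c z.2.2) * evM u v (mulM m z.2.1) + evC c * evM u v m * evP u v (unF q) := by
      funext u v
      unfold unF
      rw [List.map_cons, evP_cons, evC_mul, evM_mul]
      ring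
    rw [e, mL_add A B L ((CC.con _).mul (CC.eM _)) (((CC.con _).mul (CC.eM _)).mul (CC.eP _)), mL_term, frq_mul,
      ft]
    by_cases hz : z.1 = L - frq m
    · rw [if_pos hz, if_pos (by rw [← h1, hz]; ring), ft_ok A B L m c q _ h2, evP_ins]
      ring
    · rw [if_neg hz, if_neg (by rw [← h1]; intro h3; exact hz (by linarith)), ft_ok A B L m c q _ h2]
      ring

theorem fm_ok (A B : ℂ) (L : ℤ) (m : Mo) (c : Co) (q : List T3) (hq : okF q = true) :
    ∀ (p : List T3) (acc : Po), okF p = true →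
    evP A B (fm (L - frq m) m c p q acc) = evP A B acc
      + mL A B L (fun u v => evC c * evM u v m * (evP u v (unF p) * evP u v (unF q)))
  | [], acc, _ => by
    simp only [fm, unF, List.map_nil, evP_nil, zero_mul, mul_zero]
    unfold mL
    simp [mean]
  | x :: p, acc, h => by
    unfold okF at h
    rw [List.all_cons, Bool.and_eq_true, decide_eq_true_eq] at h
    obtain ⟨h1, h2⟩ := h
    have e : (fun u v => evC c * evM u v m * (evP u v (unF (x :: p)) * evP u v (unF q))) = fun u v =>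
        evC (mulC c x.2.2) * evM u v (mulM m x.2.1) * evP u v (unF q)
        + evC c * evM u v m * (evP u v (unF p) * evP u v (unF q)) := by
      funext u v
      unfold unF
      rw [List.map_cons, evP_cons, evC_mul, evM_mul]
      ring
    rw [e, mL_add A B L (((CC.con _).mul (CC.eM _)).mul (CC.eP _))
      (((CC.con _).mul (CC.eM _)).mul ((CC.eP _).mul (CC.eP _))), fm, fm_ok A B L m c q hq p _ h2]
    have e2 : L - frq m - x.1 = L - frq (mulM m x.2.1) := by rw [frq_mul, h1]; ring
    rw [e2, ft_ok A B L (mulM m x.2.1) (mulC c x.2.2) q acc hq]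
    ring

/-- the lists are the powers of `f` -/
def PW (f : ℂ → ℂ → ℂ) : List (List T3) → ℕ → Prop
  | [], _ => True
  | z :: Ls, j => okF z = true ∧ (∀ u v, evP u v (unF z) = f u v ^ j) ∧ PW f Ls (j + 1)

theorem fj_ok (A B : ℂ) (L : ℤ) (m : Mo) (c : Co) (bp q : ℤ) (s K i : ℕ) (zi : List T3) (hz : okF zi = true)
    (f : ℂ → ℂ → ℂ) (hf : CC f) : ∀ (n : ℕ) (Ls : List (List T3)) (j : ℕ) (acc : Po), PW f Ls j → n ≤ Ls.length →
    evP A B (fj (L - frq m) m c bp q s K i zi n Ls j acc) = evP A B acc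
      + mL A B L (fun u v => evC c * evM u v m * (evP u v (unF zi) * ∑ k ∈ Finset.range n,
        (if (i + (j + k)) % 2 = s then ((bp * bi q (j + k) * 16 ^ (K - (i + (j + k))) : ℤ) : ℂ) * f u v ^ (j + k)
          else 0)))
  | 0, Ls, j, acc, _, _ => by
    simp only [fj, Finset.range_zero, Finset.sum_empty, mul_zero]
    unfold mL
    simp [mean]
  | n + 1, [], j, acc, _, h => by simp at h
  | n + 1, z :: Ls, j, acc, hP, hn => by
    obtain ⟨h1, h2, h3⟩ := hP
    have hn' : n ≤ Ls.length := by simpa using hn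
    have hcS : CC fun u v => ∑ k ∈ Finset.range n,
        (if (i + (j + 1 + k)) % 2 = s then
          ((bp * bi q (j + 1 + k) * 16 ^ (K - (i + (j + 1 + k))) : ℤ) : ℂ) * f u v ^ (j + 1 + k)
          else 0) := by
      unfold CC at *
      refine continuous_finsetSum _ fun k _ => ?_
      split_ifs
      · exact continuous_const.mul (hf.pow _)
      · exact continuous_const
    have hsum : ∀ u v, ∑ k ∈ Finset.range (n + 1),
        (if (i + (j + k)) % 2 = s then ((bp * bi q (j + k) * 16 ^ (K - (i + (j + k))) : ℤ) : ℂ) * f u v ^ (j + k)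
          else 0) = (∑ k ∈ Finset.range n,
        (if (i + (j + 1 + k)) % 2 = s then
          ((bp * bi q (j + 1 + k) * 16 ^ (K - (i + (j + 1 + k))) : ℤ) : ℂ) * f u v ^ (j + 1 + k)
          else 0)) + (if (i + j) % 2 = s then ((bp * bi q j * 16 ^ (K - (i + j)) : ℤ) : ℂ) * f u v ^ j else 0) := by
      intro u v
      rw [Finset.sum_range_succ']
      simp only [add_zero]
      congr 1
      refine Finset.sum_congr rfl fun k _ => ?_
      rw [show j + (k + 1) = j + 1 + k by ring]
    rw [fj]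
    split_ifs with hs
    · rw [fj_ok A B L m c bp q s K i zi hz f hf n Ls (j + 1) _ h3 hn',
        fm_ok A B L m (mulC (bp * bi q j * 16 ^ (K - (i + j)), 0) c) z h1 zi acc hz]
      have e : (fun u v => evC c * evM u v m * (evP u v (unF zi) * ∑ k ∈ Finset.range (n + 1),
        (if (i + (j + k)) % 2 = s then ((bp * bi q (j + k) * 16 ^ (K - (i + (j + k))) : ℤ) : ℂ) * f u v ^ (j + k)
          else 0))) = fun u v =>
          evC (mulC (bp * bi q j * 16 ^ (K - (i + j)), 0) c) * evM u v m * (evP u v (unF zi) * evP u v (unF z))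
          + evC c * evM u v m * (evP u v (unF zi) * ∑ k ∈ Finset.range n,
        (if (i + (j + 1 + k)) % 2 = s then
          ((bp * bi q (j + 1 + k) * 16 ^ (K - (i + (j + 1 + k))) : ℤ) : ℂ) * f u v ^ (j + 1 + k)
          else 0)) := by
        funext u v
        rw [hsum, if_pos hs, h2, evC_mul, evC_int]
        ring
      rw [e, mL_add A B L (((CC.con _).mul (CC.eM _)).mul ((CC.eP _).mul (CC.eP _)))
        (((CC.con _).mul (CC.eM _)).mul ((CC.eP _).mul hcS))]
      ring
    · rw [fj_ok A B L m c bp q s K i zi hz f hf n Ls (j + 1) _ h3 hn']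
      have e : (fun u v => evC c * evM u v m * (evP u v (unF zi) * ∑ k ∈ Finset.range (n + 1),
        (if (i + (j + k)) % 2 = s then ((bp * bi q (j + k) * 16 ^ (K - (i + (j + k))) : ℤ) : ℂ) * f u v ^ (j + k)
          else 0))) = fun u v => evC c * evM u v m * (evP u v (unF zi) * ∑ k ∈ Finset.range n,
        (if (i + (j + 1 + k)) % 2 = s then
          ((bp * bi q (j + 1 + k) * 16 ^ (K - (i + (j + 1 + k))) : ℤ) : ℂ) * f u v ^ (j + 1 + k)
          else 0)) := by
        funext u v
        rw [hsum, if_neg hs, add_zero]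
      rw [e]

theorem PW.length_drop {f : ℂ → ℂ → ℂ} : ∀ {Ls : List (List T3)} {j : ℕ}, PW f Ls j →
    ∀ z ∈ Ls, okF z = true
  | [], _, _ => by simp
  | x :: Ls, j, h => by
    intro z hz
    rcases List.mem_cons.1 hz with h1 | h1
    · rw [h1]; exact h.1
    · exact PW.length_drop h.2.2 z h1

theorem fi_ok (A B : ℂ) (L : ℤ) (m : Mo) (c : Co) (p q : ℤ) (s K : ℕ) (zcs : List (List T3))
    (f g : ℂ → ℂ → ℂ) (hf : CC f) (hg : CC g) (hc : PW g zcs 0) : ∀ (n : ℕ) (Ls : List (List T3)) (i : ℕ) (acc : Po),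
    PW f Ls i → n ≤ Ls.length → n ≤ zcs.length →
    evP A B (fi (L - frq m) m c p q s K zcs n Ls i acc) = evP A B acc
      + mL A B L (fun u v => evC c * evM u v m * ∑ a ∈ Finset.range n, (f u v ^ (i + a) *
        ∑ b ∈ Finset.range (n - a), (if (i + a + b) % 2 = s then
          ((bi p (i + a) * bi q b * 16 ^ (K - (i + a + b)) : ℤ) : ℂ) * g u v ^ b else 0)))
  | 0, Ls, i, acc, _, _, _ => by
    simp only [fi, Finset.range_zero, Finset.sum_empty, mul_zero]
    unfold mL
    simp [mean]
  | n + 1, [], i, acc, _, h, _ => by simp at h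
  | n + 1, z :: Ls, i, acc, hP, hn, hn2 => by
    obtain ⟨h1, h2, h3⟩ := hP
    have hn' : n ≤ Ls.length := by simpa using hn
    rw [fi, fi_ok A B L m c p q s K zcs f g hf hg hc n Ls (i + 1) _ h3 hn' (by omega),
      fj_ok A B L m c (bi p i) q s K i z h1 g hg (n + 1) zcs 0 acc hc hn2]
    have c1 : CC fun u v => f u v ^ i * ∑ k ∈ Finset.range (n + 1),
        (if (i + (0 + k)) % 2 = s then ((bi p i * bi q (0 + k) * 16 ^ (K - (i + (0 + k))) : ℤ) : ℂ)
          * g u v ^ (0 + k) else 0) := by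
      unfold CC at *
      refine (hf.pow _).mul (continuous_finsetSum _ fun k _ => ?_)
      split_ifs
      · exact continuous_const.mul (hg.pow _)
      · exact continuous_const
    have c2 : CC fun u v => ∑ a ∈ Finset.range n, (f u v ^ (i + 1 + a) *
        ∑ b ∈ Finset.range (n - a), (if (i + 1 + a + b) % 2 = s then
          ((bi p (i + 1 + a) * bi q b * 16 ^ (K - (i + 1 + a + b)) : ℤ) : ℂ) * g u v ^ b else 0)) := by
      unfold CC at *
      refine continuous_finsetSum _ fun a _ => (hf.pow _).mul (continuous_finsetSum _ fun k _ => ?_)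
      split_ifs
      · exact continuous_const.mul (hg.pow _)
      · exact continuous_const
    have e : (fun u v => evC c * evM u v m * ∑ a ∈ Finset.range (n + 1), (f u v ^ (i + a) *
        ∑ b ∈ Finset.range (n + 1 - a), (if (i + a + b) % 2 = s then
          ((bi p (i + a) * bi q b * 16 ^ (K - (i + a + b)) : ℤ) : ℂ) * g u v ^ b else 0))) = fun u v =>
        evC c * evM u v m * (evP u v (unF z) * ∑ k ∈ Finset.range (n + 1),
        (if (i + (0 + k)) % 2 = s then ((bi p i * bi q (0 + k) * 16 ^ (K - (i + (0 + k))) : ℤ) : ℂ)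
          * g u v ^ (0 + k) else 0))
        + evC c * evM u v m * ∑ a ∈ Finset.range n, (f u v ^ (i + 1 + a) *
        ∑ b ∈ Finset.range (n - a), (if (i + 1 + a + b) % 2 = s then
          ((bi p (i + 1 + a) * bi q b * 16 ^ (K - (i + 1 + a + b)) : ℤ) : ℂ) * g u v ^ b else 0)) := by
      funext u v
      rw [Finset.sum_range_succ', h2, mul_add, add_comm]
      congr 1
      · congr 1
        simp only [add_zero, Nat.sub_zero, zero_add]
      · congr 1
        refine Finset.sum_congr rfl fun a _ => ?_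
        rw [show i + (a + 1) = i + 1 + a by ring, show n + 1 - (a + 1) = n - a by omega]
    rw [e, mL_add A B L]
    · have e3 : (fun u v => evC c * evM u v m * (evP u v (unF z) * ∑ k ∈ Finset.range (n + 1),
        (if (i + (0 + k)) % 2 = s then ((bi p i * bi q (0 + k) * 16 ^ (K - (i + (0 + k))) : ℤ) : ℂ)
          * g u v ^ (0 + k) else 0))) = fun u v => evC c * evM u v m * (evP u v (unF z) *
          ∑ k ∈ Finset.range (n + 1), (if (i + (0 + k)) % 2 = s then
            ((bi p i * bi q (0 + k) * 16 ^ (K - (i + (0 + k))) : ℤ) : ℂ) * g u v ^ (0 + k) else 0)) := rfl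
      ring
    · have : (fun u v => evC c * evM u v m * (evP u v (unF z) * ∑ k ∈ Finset.range (n + 1),
        (if (i + (0 + k)) % 2 = s then ((bi p i * bi q (0 + k) * 16 ^ (K - (i + (0 + k))) : ℤ) : ℂ)
          * g u v ^ (0 + k) else 0))) = fun u v => evC c * evM u v m * (f u v ^ i *
          ∑ k ∈ Finset.range (n + 1), (if (i + (0 + k)) % 2 = s then
            ((bi p i * bi q (0 + k) * 16 ^ (K - (i + (0 + k))) : ℤ) : ℂ) * g u v ^ (0 + k) else 0)) := by
        funext u v
        rw [h2]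
      rw [this]
      exact ((CC.con _).mul (CC.eM _)).mul c1
    · exact ((CC.con _).mul (CC.eM _)).mul c2

theorem fP_ok (A B : ℂ) (L : ℤ) (p q : ℤ) (s K : ℕ) (zs zcs : List (List T3))
    (f g : ℂ → ℂ → ℂ) (hf : CC f) (hg : CC g) (hc : PW g zcs 0) (hz : PW f zs 0)
    (h1 : K ≤ zs.length) (h2 : K ≤ zcs.length) : ∀ (P acc : Po),
    evP A B (fP L p q s K zs zcs P acc) = evP A B acc
      + mL A B L (fun u v => evP u v P * ∑ a ∈ Finset.range K, (f u v ^ a *
        ∑ b ∈ Finset.range (K - a), (if (a + b) % 2 = s then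
          ((bi p a * bi q b * 16 ^ (K - (a + b)) : ℤ) : ℂ) * g u v ^ b else 0)))
  | [], acc => by
    simp only [fP, evP_nil, zero_mul]
    unfold mL
    simp [mean]
  | y :: P, acc => by
    have c2 : CC fun u v => ∑ a ∈ Finset.range K, (f u v ^ a *
        ∑ b ∈ Finset.range (K - a), (if (a + b) % 2 = s then
          ((bi p a * bi q b * 16 ^ (K - (a + b)) : ℤ) : ℂ) * g u v ^ b else 0)) := by
      unfold CC at *
      refine continuous_finsetSum _ fun a _ => (hf.pow _).mul (continuous_finsetSum _ fun k _ => ?_)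
      split_ifs
      · exact continuous_const.mul (hg.pow _)
      · exact continuous_const
    rw [fP, fP_ok A B L p q s K zs zcs f g hf hg hc hz h1 h2 P,
      fi_ok A B L y.1 y.2 p q s K zcs f g hf hg hc K zs 0 acc hz h1 h2]
    have e : (fun u v => evP u v (y :: P) * ∑ a ∈ Finset.range K, (f u v ^ a *
        ∑ b ∈ Finset.range (K - a), (if (a + b) % 2 = s then
          ((bi p a * bi q b * 16 ^ (K - (a + b)) : ℤ) : ℂ) * g u v ^ b else 0))) = fun u v =>
        evC y.2 * evM u v y.1 * (∑ a ∈ Finset.range K, (f u v ^ a *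
        ∑ b ∈ Finset.range (K - a), (if (a + b) % 2 = s then
          ((bi p a * bi q b * 16 ^ (K - (a + b)) : ℤ) : ℂ) * g u v ^ b else 0)))
        + evP u v P * ∑ a ∈ Finset.range K, (f u v ^ a *
        ∑ b ∈ Finset.range (K - a), (if (a + b) % 2 = s then
          ((bi p a * bi q b * 16 ^ (K - (a + b)) : ℤ) : ℂ) * g u v ^ b else 0)) := by
      funext u v
      rw [evP_cons]
      ring
    rw [e, mL_add A B L (((CC.con _).mul (CC.eM _)).mul c2) ((CC.eP _).mul c2)]
    simp only [zero_add]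
    ring

/-- the double sum is the sum of the homogeneous parts -/
theorem sum_TT (p q : ℤ) (s K : ℕ) (hp : chkB p K = true) (hq : chkB q K = true) (ζ Z Zc : ℂ) (hZ : Z = 4 * ζ)
    (hZc : Zc = 4 * (starRingEnd ℂ) ζ) :
    ∑ a ∈ Finset.range K, (Z ^ a * ∑ b ∈ Finset.range (K - a), (if (a + b) % 2 = s then
          ((bi p a * bi q b * 16 ^ (K - (a + b)) : ℤ) : ℂ) * Zc ^ b else 0)) =
    16 ^ K * ∑ k ∈ (Finset.range K).filter (fun k => k % 2 = s), TT ((p : ℝ) / 2) ((q : ℝ) / 2) k ζ := by
  rw [Finset.sum_filter]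
  obtain ⟨g, hg⟩ : ∃ g : ℕ → ℕ → ℂ, g = fun i j : ℕ => if (i + j) % 2 = s then
        ((cb ((p : ℝ) / 2) i * cb ((q : ℝ) / 2) j : ℝ) : ℂ) * (ζ ^ i * (starRingEnd ℂ) ζ ^ j) else 0 := ⟨_, rfl⟩
  have e1 : ∀ k ∈ Finset.range K, (if k % 2 = s then TT ((p : ℝ) / 2) ((q : ℝ) / 2) k ζ else 0) =
      ∑ i ∈ Finset.range (k + 1), g i (k - i) := by
    intro k _
    rw [hg]
    unfold TT
    rw [Finset.Nat.sum_antidiagonal_eq_sum_range_succ_mk]
    split_ifs with h
    · refine Finset.sum_congr rfl fun i hi => ?_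
      have : i + (k - i) = k := by have := Finset.mem_range.1 hi; omega
      simp only
      rw [this, if_pos h]
    · symm
      refine Finset.sum_eq_zero fun i hi => ?_
      have : i + (k - i) = k := by have := Finset.mem_range.1 hi; omega
      simp only
      rw [this, if_neg h]
  rw [Finset.sum_congr rfl e1, Finset.sum_range_diag_flip K g, Finset.mul_sum, hg]
  refine Finset.sum_congr rfl fun a ha => ?_
  rw [Finset.mul_sum, Finset.mul_sum]
  refine Finset.sum_congr rfl fun b hb => ?_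
  have ha' := Finset.mem_range.1 ha
  have hb' := Finset.mem_range.1 hb
  beta_reduce
  by_cases h : (a + b) % 2 = s
  · rw [if_pos h, if_pos h]
    push_cast
    rw [bi_ok hp ha', bi_ok hq (by omega), hZ, hZc, mul_pow, mul_pow]
    have e : (16 : ℂ) ^ K = 4 ^ a * 4 ^ a * (4 ^ b * 4 ^ b) * 16 ^ (K - (a + b)) := by
      rw [← mul_pow, ← mul_pow, show (4 : ℂ) * 4 = 16 by norm_num, ← pow_add, ← pow_add]
      congr 1
      omega
    rw [e]
    ring
  · rw [if_neg h, if_neg h, mul_zero, mul_zero]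

/-- check of the powers -/
def chkPW (Z : Po) : Po → List (List T3) → Bool
  | _, [] => true
  | cur, z :: Ls => okF z && (dels ((unF z).map fun x => x.1) cur == [])
      && (tb ((unF z).map fun x => x.1) cur == unF z) && chkPW Z (mulP Z (unF z)) Ls

theorem chkPW_ok (Z : Po) : ∀ (Ls : List (List T3)) (cur : Po) (j : ℕ), chkPW Z cur Ls = true →
    (∀ u v, evP u v cur = evP u v Z ^ j) → PW (fun u v => evP u v Z) Ls j
  | [], _, _, _, _ => trivial
  | z :: Ls, cur, j, h, hc => by
    unfold chkPW at h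
    simp only [Bool.and_eq_true, beq_iff_eq] at h
    obtain ⟨⟨⟨h1, h2⟩, h3⟩, h4⟩ := h
    have h5 : ∀ u v, evP u v (unF z) = evP u v Z ^ j := by
      intro u v
      rw [← h3, ← evP_tb u v _ cur h2, hc]
    refine ⟨h1, h5, chkPW_ok Z Ls _ (j + 1) h4 fun u v => ?_⟩
    rw [evP_mul, h5, pow_succ]
    ring

/-- all finite checks -/
def chkF (P Z : Po) (zs zcs : List (List T3)) (p q L : ℤ) (sP s K : ℕ) (G : ℚ) (ms : List Mo) (Q : Po) : Bool :=
  decide (s < 2) && (K % 2 == s) && ((sP + L.natAbs) % 2 == s) && parP sP P && parP 1 Z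
  && decide (|(p : ℚ) / 2| ≤ 11 / 2) && decide (|(q : ℚ) / 2| ≤ 11 / 2)
  && chkE ((p : ℚ) / 2) ((q : ℚ) / 2) G K && chkB p K && chkB q K
  && decide (K ≤ zs.length) && decide (K ≤ zcs.length)
  && (dels ms (fP L p q s K zs zcs P []) == []) && (tb ms (fP L p q s K zs zcs P []) == Q)

/-- **THE MOMENT THEOREM**, fast version (`L` is the frequency which is kept) -/
theorem momF (A B : ℂ) (P Z : Po) (zs zcs : List (List T3)) (p q L : ℤ) (sP s K : ℕ) (G : ℚ) (ms : List Mo)
    (Q : Po) (M X : ℝ) (hzs : chkPW Z [((0, 0, 0, 0), (1, 0))] zs = true)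
    (hzcs : chkPW (cjP Z) [((0, 0, 0, 0), (1, 0))] zcs = true)
    (hc : chkF P Z zs zcs p q L sP s K G ms Q = true)
    (hM : ∀ t, ‖evP (uu A t) (vv B t) P‖ ≤ M) (hX : ∀ t, ‖evP (uu A t) (vv B t) Z / 4‖ ≤ X) (hX1 : X ≤ 2 / 5) :
    ‖mean (fun t => ee (((-L : ℤ) : ℝ) * t) * evP (uu A t) (vv B t) P
        * Ph ((p : ℝ) / 2) ((q : ℝ) / 2) (evP (uu A t) (vv B t) Z / 4)) - evP A B Q / 16 ^ K‖
      ≤ G * M * X ^ K := by
  unfold chkF at hc
  simp only [Bool.and_eq_true, decide_eq_true_eq, beq_iff_eq] at hc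
  obtain ⟨⟨⟨⟨⟨⟨⟨⟨⟨⟨⟨⟨⟨hs, hK⟩, hsl⟩, hP⟩, hZ⟩, hp⟩, hq⟩, hE⟩, hbp⟩, hbq⟩, hl1⟩, hl2⟩, hd⟩, ht⟩ := hc
  have one_ev : ∀ u v : ℂ, evP u v [((0, 0, 0, 0), (1, 0))] = 1 := by
    intro u v
    simp [evC, evM]
  have pz := chkPW_ok Z zs _ 0 hzs fun u v => by rw [one_ev, pow_zero]
  have pc := chkPW_ok (cjP Z) zcs _ 0 hzcs fun u v => by rw [one_ev, pow_zero]
  set ζ : ℝ → ℂ := fun t => evP (uu A t) (vv B t) Z / 4 with hζ
  have hζc : Continuous ζ := (cont_evP A B Z).div_const 4
  have hζ1 : ∀ t, ‖ζ t‖ < 1 := fun t => (hX t).trans_lt (by linarith)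
  have hζp : ∀ t, ζ (t + Real.pi) = -ζ t := by
    intro t
    simp only [hζ]
    rw [uu_pi, vv_pi, evP_neg _ _ 1 Z hZ]
    ring
  set l : ℤ := -L with hl
  have hsl' : (sP + l.natAbs) % 2 = s := by rw [hl, Int.natAbs_neg]; exact hsl
  have c0 : Continuous fun t : ℝ => ee ((l : ℝ) * t) := continuous_ee.comp (by fun_prop)
  set a : ℝ := (p : ℝ) / 2 with ha
  set b : ℝ := (q : ℝ) / 2 with hb
  have ha' : (((p : ℚ) / 2 : ℚ) : ℝ) = a := by push_cast; rfl
  have hb' : (((q : ℚ) / 2 : ℚ) : ℝ) = b := by push_cast; rfl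
  set F : ℝ → ℂ := fun t => ee ((l : ℝ) * t) * evP (uu A t) (vv B t) P * Ph a b (ζ t) with hF
  have hFc : Continuous F := (c0.mul (cont_evP A B P)).mul (cont_Ph a b hζc hζ1)
  have hFp : ∀ t, F (t + 2 * Real.pi) = F t := by
    intro t
    simp only [hF, hζ]
    rw [Pool.Agent.Helper35.Cas.ee_per, uu_per, vv_per]
  have hF2 : ∀ t, F (t + Real.pi) = (-1) ^ s * (ee ((l : ℝ) * t) * evP (uu A t) (vv B t) P * Ph a b (-ζ t)) := by
    intro t
    simp only [hF]
    rw [Pool.Agent.Helper35.Cas.ee_pi, uu_pi, vv_pi, evP_neg _ _ sP P hP, hζp]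
    have e : (-1 : ℂ) ^ s = (-1) ^ sP * (-1) ^ l.natAbs := by
      rw [← pow_add, ← Nat.div_add_mod (sP + l.natAbs) 2, hsl', pow_add, pow_mul]
      norm_num
    rw [e]
    ring
  have hFc2 : Continuous fun t => F (t + Real.pi) := hFc.comp (by fun_prop)
  have hmean : mean F = mean (fun t => ee ((l : ℝ) * t) * evP (uu A t) (vv B t) P * pp s a b (ζ t)) := by
    have h1 : mean (fun t => F t + F (t + Real.pi)) = 2 * mean F := by
      rw [mean_add hFc hFc2, mean_shift hFp]; ring
    have h2 : (fun t => F t + F (t + Real.pi)) =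
        fun t => 2 * (ee ((l : ℝ) * t) * evP (uu A t) (vv B t) P * pp s a b (ζ t)) := by
      funext t
      rw [hF2]
      simp only [hF, pp]
      ring
    rw [h2, mean_const_mul] at h1
    exact (mul_left_cancel₀ two_ne_zero h1).symm
  -- the exact part
  have hex : mean (fun t => ee ((l : ℝ) * t) * evP (uu A t) (vv B t) P
      * ∑ k ∈ (Finset.range K).filter (fun k => k % 2 = s), TT a b k (ζ t)) = evP A B Q / 16 ^ K := by
    have h0 := fP_ok A B L p q s K zs zcs (fun u v => evP u v Z) (fun u v => evP u v (cjP Z)) (CC.eP Z)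
      (CC.eP (cjP Z)) pc pz hl1 hl2 P []
    rw [evP_nil, zero_add] at h0
    have h16 : (16 : ℂ) ^ K ≠ 0 := pow_ne_zero _ (by norm_num)
    have h1 : (fun t => ee ((l : ℝ) * t) * evP (uu A t) (vv B t) P
        * ∑ k ∈ (Finset.range K).filter (fun k => k % 2 = s), TT a b k (ζ t)) =
        fun t => (1 / 16 ^ K : ℂ) * (ee ((l : ℝ) * t) * (evP (uu A t) (vv B t) P *
          ∑ a ∈ Finset.range K, (evP (uu A t) (vv B t) Z ^ a *
        ∑ b ∈ Finset.range (K - a), (if (a + b) % 2 = s then
          ((bi p a * bi q b * 16 ^ (K - (a + b)) : ℤ) : ℂ) * evP (uu A t) (vv B t) (cjP Z) ^ b else 0)))) := by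
      funext t
      have h3 := sum_TT p q s K hbp hbq (ζ t) (evP (uu A t) (vv B t) Z) (evP (uu A t) (vv B t) (cjP Z))
        (by simp only [hζ]; ring) (by
          simp only [hζ]
          rw [evP_cj, map_div₀]
          have e4 : (starRingEnd ℂ) 4 = 4 := by
            have := Complex.conj_ofReal 4
            push_cast at this
            exact this
          rw [e4]
          ring)
      rw [h3, ← ha, ← hb]
      field_simp
    rw [h1, mean_const_mul]
    have h2 : mL A B L (fun u v => evP u v P * ∑ a ∈ Finset.range K, (evP u v Z ^ a *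
        ∑ b ∈ Finset.range (K - a), (if (a + b) % 2 = s then
          ((bi p a * bi q b * 16 ^ (K - (a + b)) : ℤ) : ℂ) * evP u v (cjP Z) ^ b else 0))) = evP A B Q := by
      rw [← h0, evP_tb A B ms _ hd, ht]
    unfold mL at h2
    rw [h2]
    ring
  have hTc : Continuous fun t => ∑ k ∈ (Finset.range K).filter (fun k => k % 2 = s), TT a b k (ζ t) := by
    refine continuous_finsetSum _ fun k _ => ?_
    unfold TT
    refine continuous_finsetSum _ fun ij _ => ?_
    exact continuous_const.mul ((hζc.pow _).mul ((Complex.continuous_conj.comp hζc).pow _))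
  have hpc : Continuous fun t => pp s a b (ζ t) := by
    unfold pp
    have hn : ∀ t, ‖(fun t => -ζ t) t‖ < 1 := fun t => by rw [norm_neg]; exact hζ1 t
    exact ((cont_Ph a b hζc hζ1).add (continuous_const.mul (cont_Ph a b hζc.neg hn))).div_const 2
  have hdiff : mean F - evP A B Q / 16 ^ K = mean (fun t => ee ((l : ℝ) * t) * evP (uu A t) (vv B t) P
      * (pp s a b (ζ t) - ∑ k ∈ (Finset.range K).filter (fun k => k % 2 = s), TT a b k (ζ t))) := by
    rw [hmean, ← hex]
    have h1 := mean_add (F := fun t => ee ((l : ℝ) * t) * evP (uu A t) (vv B t) P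
      * (pp s a b (ζ t) - ∑ k ∈ (Finset.range K).filter (fun k => k % 2 = s), TT a b k (ζ t)))
      (G := fun t => ee ((l : ℝ) * t) * evP (uu A t) (vv B t) P
      * ∑ k ∈ (Finset.range K).filter (fun k => k % 2 = s), TT a b k (ζ t))
      ((c0.mul (cont_evP A B P)).mul (hpc.sub hTc)) ((c0.mul (cont_evP A B P)).mul hTc)
    have h2 : (fun t => ee ((l : ℝ) * t) * evP (uu A t) (vv B t) P
      * (pp s a b (ζ t) - ∑ k ∈ (Finset.range K).filter (fun k => k % 2 = s), TT a b k (ζ t))
      + ee ((l : ℝ) * t) * evP (uu A t) (vv B t) P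
      * ∑ k ∈ (Finset.range K).filter (fun k => k % 2 = s), TT a b k (ζ t)) =
      fun t => ee ((l : ℝ) * t) * evP (uu A t) (vv B t) P * pp s a b (ζ t) := by
      funext t; ring
    rw [h2] at h1
    rw [h1]; ring
  rw [hdiff]
  refine mean_norm fun t => ?_
  have hr := pp_rem ((p : ℚ) / 2) ((q : ℚ) / 2) G s K hs hK hp hq hE (ζ t) ((hX t).trans hX1)
  rw [ha', hb'] at hr
  rw [norm_mul, norm_mul, norm_ee, one_mul]
  have hM0 : 0 ≤ M := (norm_nonneg _).trans (hM t)
  have hX0 : 0 ≤ X := (norm_nonneg _).trans (hX t)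
  have hG0 : (0 : ℝ) ≤ G * ‖ζ t‖ ^ K := (norm_nonneg _).trans hr
  calc ‖evP (uu A t) (vv B t) P‖ * ‖pp s a b (ζ t) - ∑ k ∈ (Finset.range K).filter (fun k => k % 2 = s),
        TT a b k (ζ t)‖ ≤ M * (G * ‖ζ t‖ ^ K) := mul_le_mul (hM t) hr (norm_nonneg _) hM0
    _ ≤ M * (G * X ^ K) := by
        refine mul_le_mul_of_nonneg_left ?_ hM0
        rcases eq_or_lt_of_le (norm_nonneg (ζ t)) with h0 | h0
        · by_cases hK0 : K = 0
          · rw [hK0, pow_zero, pow_zero]
          · rw [← h0, zero_pow hK0, mul_zero]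
            by_contra hneg
            push Not at hneg
            have : (G : ℝ) < 0 := by
              by_contra hG
              push Not at hG
              have := mul_nonneg hG (pow_nonneg hX0 K)
              linarith
            have h5 := pp_rem ((p : ℚ) / 2) ((q : ℚ) / 2) G s K hs hK hp hq hE (1 / 5)
              (by norm_num)
            have h6 : (0 : ℝ) ≤ G * ‖(1 / 5 : ℂ)‖ ^ K := (norm_nonneg _).trans h5
            have h7 : 0 < ‖(1 / 5 : ℂ)‖ ^ K := pow_pos (by norm_num) K
            nlinarith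
        · have hG : (0 : ℝ) ≤ G := by
            by_contra hneg
            push Not at hneg
            have := mul_neg_of_neg_of_pos hneg (pow_pos h0 K)
            linarith
          exact mul_le_mul_of_nonneg_left (pow_le_pow_left₀ (norm_nonneg _) (hX t) K) hG
    _ = G * M * X ^ K := by ring

end Helper42.SH
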