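import Pool.Agent.Helper43.CL.HGrows
import Pool.Agent.Helper95.SH.Err

/-!
# Project RC, SHARP, cell engine: the finite form `HFv` of a cell as a sum of named pieces
-/

set_option autoImplicit false

open MeasureTheory Set Filter Topology

namespace Helper42.SH

open Helper49.LT hiding sg
open Helper49.RC (om)
open Helper95.RC
open Helper95.SH
open Helper49.Sharp
open Helper56.RC (fc)
open Helper41.SH (IA inv trp)
open Helper38.SH (O1F O1F_eq mI linO)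
open Helper30.SH (ZL)
open Pool.Agent.Helper20.RC (lk)
open Pool.Agent.Helper64.SH (rwN)
open Helper55.SH (cv zA zB wt2)
open Helper43.CL (Fm BR2 LoE HG_rows)

section

variable (c : CD) (K L : ℕ)

/-- **THE RIGHT SIDE OF THE HEAD/TAIL THEOREM** (all rows of the head with the window `max K L`) -/
noncomputable def HFv (k1 J1 J2 : ℕ) (al : ℕ → ℝ) (alI tz t2 t3 : ℝ) (PT FR : (ℕ → ℝ) → ℝ) (v : ℕ → ℝ) : ℝ :=
  HG c (max K L) (pV K L v) (rV K L v) (sV K v)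
    - 2 / c.P.nu * ∑ k ∈ Finset.range k1, al k * ((lk k ^ 2 - 1) *
      ‖qk c (max K L) (pV K L v) (rV K L v) (sV K v) k‖ ^ 2)
    - 2 / c.P.nu * (alI * PT v)
    - 1 / tz * ∑ j ∈ Finset.range J1, (‖Xr c (max K L) (pV K L v) (rV K L v) (sV K v) ((K : ℤ) + 2 + 2 * j)‖ ^ 2
      + ‖Xr c (max K L) (pV K L v) (rV K L v) (sV K v) (-((K : ℤ) + 2 + 2 * j))‖ ^ 2)
    - 2 / t2 * ∑ j ∈ Finset.range J2, ‖Yr c (max K L) (pV K L v) (rV K L v) (sV K v) ((L : ℤ) + 2 + 2 * j)‖ ^ 2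
    - 2 / t3 * ∑ j ∈ Finset.range J2, ‖Zr c (max K L) (pV K L v) (rV K L v) (sV K v) ((L : ℤ) + 2 + 2 * j)‖ ^ 2
    - FR v

end

/-! ### the pieces of `HG` (`L = 2 H`) -/

section

variable (c : CD) (K H N : ℕ) (v : ℕ → ℝ)

/-- the block `O1` (linear and constant part included) -/
noncomputable def gO1 : ℝ := O1F c.P N (pV K (2 * H) v) (rV K (2 * H) v)

/-- the product pair -/
noncomputable def gPR : ℝ := 2 * (H0A c.P (pV K (2 * H) v) (rV K (2 * H) v) + c.P.lam) *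
  e0I c.P c.Th1 c.Th1' c.Th2 c.Th2' N (pV K (2 * H) v) (rV K (2 * H) v) (sV K v)

/-- the linear parts of the moments and of `mu`: one affine functional -/
noncomputable def gLIN : ℝ := 2 * ZL c.P N (pV K (2 * H) v) (rV K (2 * H) v) (sV K v)
  + c.mu1 * rwN N (fc c.P.u1) (fc c.P.u2) (pV K (2 * H) v) (rV K (2 * H) v) (sV K v)
  + c.mu2 * rwN N (fc c.d1) (fc c.d2) (pV K (2 * H) v) (rV K (2 * H) v) (sV K v)
  + (c.mu1 + c.mu2) * ((pV K (2 * H) v 0).re - 2 - 1 / 5)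

/-- the form `NF` -/
noncomputable def gNF : ℝ := NF c.P.ps (N + 3) (C1 c.P (pV K (2 * H) v) (rV K (2 * H) v) (sV K v))
  (C2 c.P (pV K (2 * H) v) (rV K (2 * H) v) (sV K v))

/-- the quadratic local part of `z` -/
noncomputable def gLO : ℝ := ∑ j ∈ Finset.range (K + 1),
  ((zA K (Fm c) (zes c (sV K v)) j).re * (zB K (zes c (sV K v)) j).re
    + (zA K (Fm c) (zes c (sV K v)) j).im * (zB K (zes c (sV K v)) j).im)

/-- the four band forms -/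
noncomputable def gBP : ℝ := BR2 H (9 - c.P.cs + 3 / 4 * (c.mu1 + c.mu2)) (((9 - c.P.cs : ℝ) : ℂ) * c.P.eta)
  (pV K (2 * H) v)
noncomputable def gBR : ℝ := BR2 H (9 - c.P.cs) (((9 - c.P.cs : ℝ) : ℂ) * c.P.eta) (rV K (2 * H) v)
noncomputable def gZP : ℝ := -BR2 H (c.L.p2 * (c.P.m - c.P.lam) + c.L.p2 * (c.mu1 / 2))
  (((c.L.p2 * (c.P.m - c.P.lam) : ℝ) : ℂ) * c.P.eta) (zep c (pV K (2 * H) v))
noncomputable def gZR : ℝ := -BR2 H (c.L.p3 * (c.P.m - c.P.lam) + c.L.p3 * (c.mu1 / 2))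
  (((c.L.p3 * (c.P.m - c.P.lam) : ℝ) : ℂ) * c.P.eta) (zer c (rV K (2 * H) v))

/-- the price polynomial -/
noncomputable def gQ : ℝ := -c.Q (sV K v (-3)) (sV K v (-5))

/-- the rows of (D2) -/
noncomputable def gD2 (k1 : ℕ) (al : ℕ → ℝ) : ℝ := -(2 / c.P.nu * ∑ k ∈ Finset.range k1, al k * ((lk k ^ 2 - 1) *
  ‖qk c N (pV K (2 * H) v) (rV K (2 * H) v) (sV K v) k‖ ^ 2))

/-- the rows of the collar -/
noncomputable def gX (J1 : ℕ) (tz : ℝ) : ℝ := -(1 / tz * ∑ j ∈ Finset.range J1,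
  (‖Xr c N (pV K (2 * H) v) (rV K (2 * H) v) (sV K v) ((K : ℤ) + 2 + 2 * j)‖ ^ 2
    + ‖Xr c N (pV K (2 * H) v) (rV K (2 * H) v) (sV K v) (-((K : ℤ) + 2 + 2 * j))‖ ^ 2))
noncomputable def gY (J2 : ℕ) (t2 : ℝ) : ℝ := -(2 / t2 * ∑ j ∈ Finset.range J2,
  ‖Yr c N (pV K (2 * H) v) (rV K (2 * H) v) (sV K v) (((2 * H : ℕ) : ℤ) + 2 + 2 * j)‖ ^ 2)
noncomputable def gZ (J2 : ℕ) (t3 : ℝ) : ℝ := -(2 / t3 * ∑ j ∈ Finset.range J2,
  ‖Zr c N (pV K (2 * H) v) (rV K (2 * H) v) (sV K v) (((2 * H : ℕ) : ℤ) + 2 + 2 * j)‖ ^ 2)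

end

/-- the diagonal part -/
noncomputable def gDG (nu alI : ℝ) (PT FR : (ℕ → ℝ) → ℝ) (v : ℕ → ℝ) : ℝ := -(2 / nu * (alI * PT v) + FR v)

/-- **`HFv` IS THE SUM OF THE PIECES** -/
theorem HFv_split {c : CD} (ok : c.OK) (h0 : c.P.a0 = fun _ => 0) (e : LoE c) {K H : ℕ} (hK : ¬ Even K)
    (k1 : c.K0 ≤ K) (k2 : c.K0 ≤ 2 * H) (kD J1 J2 : ℕ) (al : ℕ → ℝ) (alI tz t2 t3 : ℝ) (PT FR : (ℕ → ℝ) → ℝ)
    (v : ℕ → ℝ) :
    HFv c K (2 * H) kD J1 J2 al alI tz t2 t3 PT FR v =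
      gNF c K H (max K (2 * H)) v + (gO1 c K H (max K (2 * H)) v + (gPR c K H (max K (2 * H)) v
      + (gLIN c K H (max K (2 * H)) v
      + (gLO c K v + (gBP c K H v + (gBR c K H v + (gZP c K H v + (gZR c K H v + (gQ c K v
      + (gX c K H (max K (2 * H)) v J1 tz + (gY c K H (max K (2 * H)) v J2 t2 + (gZ c K H (max K (2 * H)) v J2 t3
      + (gD2 c K H (max K (2 * H)) v kD al + gDG c.P.nu alI PT FR v))))))))))))) := by
  unfold HFv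
  rw [HG_rows ok h0 e hK (le_max_left _ _) (le_max_right _ _) k1 k2 v]
  have e1 : gO1 c K H (max K (2 * H)) v = _ :=
    O1F_eq (P := c.P) (even_two_mul H) (le_max_right K (2 * H)) (hV_sup _ _ _) (hV_sup _ _ _)
  rw [e1]
  unfold gNF gPR gLIN gLO gBP gBR gZP gZR gQ gD2 gX gY gZ gDG
  ring

end Helper42.SH
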