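import Pool.Agent.Helper42.SH.El3

/-!
# Project RC, SHARP: the aligned moment `e_0` of the base (generated)
-/

set_option autoImplicit false
set_option maxRecDepth 1000000

namespace Helper42.SH

open Pool.Agent.Helper35.Cas
open Pool.Agent.Helper27.SH (evR)
open Pool.Agent.Helper33.SH (PI z0I b0I ZC)
open Pool.Agent.Helper20.RC (eM)

def L1_0 : Po :=
  [((0, 0, 0, 0), (2, 0)), ((0, 1, 1, 0), (-4, 0)), ((1, 0, 0, 1), (-4, 0))]

def Q1_0 : Po :=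
  [((0, 0, 0, 0), (8589934592, 0)), ((0, 0, 1, 1), (1610612736, 0)), ((1, 1, 0, 0), (2147483648, 0)), ((0, 0, 2, 2), (1283457024, 0)), ((1, 1, 1, 1), (-4966055936, 0)), ((2, 2, 0, 0), (134217728, 0)), ((0, 0, 3, 3), (794296320, 0)), ((1, 1, 2, 2), (-5869928448, 0)), ((2, 2, 1, 1), (-1249902592, 0)), ((3, 3, 0, 0), (33554432, 0)), ((0, 5, 3, 0), (1069547520, -335544320)), ((1, 1, 3, 3), (-4951375872, 0)), ((2, 2, 2, 2), (-1686110208, 0)), ((3, 3, 1, 1), (-570425344, 0)), ((5, 0, 0, 3), (1069547520, 335544320))]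

def M1_0 : List Mo :=
  [(0, 0, 0, 0), (0, 0, 1, 1), (1, 1, 0, 0), (0, 0, 2, 2), (1, 1, 1, 1), (2, 2, 0, 0), (0, 0, 3, 3), (1, 1, 2, 2), (2, 2, 1, 1), (3, 3, 0, 0), (0, 5, 3, 0), (1, 1, 3, 3), (2, 2, 2, 2), (3, 3, 1, 1), (5, 0, 0, 3)]

def L2_0 : Po :=
  [((1, 0, 0, 3), (278, 170)), ((1, 0, 1, 2), (-360, -360)), ((1, 0, 2, 1), (-118, -10)), ((1, 1, 0, 2), (-1788, -564)), ((1, 1, 1, 1), (-992, -992)), ((1, 2, 0, 1), (1144, 472)), ((2, 0, 0, 2), (1176, 264)), ((2, 0, 1, 1), (2700, 1476)), ((2, 1, 0, 1), (264, 264)), ((3, 0, 0, 1), (-1320, -648)), ((0, 1, 1, 2), (278, 170)), ((0, 1, 2, 1), (-360, -360)), ((0, 1, 3, 0), (-118, -10)), ((0, 2, 1, 1), (-1788, -564)), ((0, 2, 2, 0), (-2168, -1256)), ((0, 3, 1, 0), (1144, 472)), ((1, 1, 2, 0), (2700, 1476)), ((1, 2, 1, 0), (264, 264)), ((2, 1, 1, 0), (-1320, -648)), ((0, 0, 0, 2), (-139, -85)), ((0, 0, 1, 1), (180, 180)), ((0, 0,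 2, 0), (59, 5)), ((0, 1, 0, 1), (894, 282)), ((0, 1, 1, 0), (1084, 628)), ((0, 2, 0, 0), (-572, -236)), ((1, 0, 0, 1), (-588, -132)), ((1, 0, 1, 0), (-1350, -738)), ((1, 1, 0, 0), (-132, -132)), ((2, 0, 0, 0), (660, 324))]

def Q2_0 : Po :=
  [((0, 0, 1, 1), (773094113280, 773094113280)), ((1, 1, 0, 0), (-566935683072, -566935683072)), ((0, 0, 2, 2), (-876575981568, 162000797696)), ((1, 1, 1, 1), (-7070589911040, -5575941292032)), ((2, 2, 0, 0), (470298918912, 702227152896)), ((0, 0, 3, 3), (-1024374865920, -347330314240)), ((1, 1, 2, 2), (9429483257856, -1178616201216)), ((2, 2, 1, 1), (-3903454183424, 227767484416)), ((3, 3, 0, 0), (181730803712, -267093278720)), ((0, 0, 4, 4), (14742650880, -913661952000)), ((0, 5, 3, 0), (-1372955082752, 344025202688)), ((1, 1, 3, 3), (15120555048960, 4662750085120)), ((2, 2, 2, 2), (-9363196477440, -4336713203712)), ((3, 3, 1, 1), (5982704893952,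 -962659876864)), ((4, 4, 0, 0), (72393687040, -58804142080)), ((5, 0, 0, 3), (3073334312960, -1746105532416)), ((0, 5, 4, 1), (387218145280, 3020360253440)), ((1, 1, 4, 4), (-4555395563520, 7562092871680)), ((1, 6, 3, 0), (-475978006528, 776004960256)), ((2, 2, 3, 3), (-14266222510080, 619173642240)), ((3, 3, 2, 2), (8829722951680, 12934688276480)), ((4, 4, 1, 1), (-2316346327040, 1066443735040)), ((5, 0, 1, 4), (9755636531200, 5529959137280)), ((6, 1, 0, 3), (1457680023552, 4930865725440))]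

def M2_0 : List Mo :=
  [(0, 0, 1, 1), (1, 1, 0, 0), (0, 0, 2, 2), (1, 1, 1, 1), (2, 2, 0, 0), (0, 0, 3, 3), (1, 1, 2, 2), (2, 2, 1, 1), (3, 3, 0, 0), (0, 0, 4, 4), (0, 5, 3, 0), (1, 1, 3, 3), (2, 2, 2, 2), (3, 3, 1, 1), (4, 4, 0, 0), (5, 0, 0, 3), (0, 5, 4, 1), (1, 1, 4, 4), (1, 6, 3, 0), (2, 2, 3, 3), (3, 3, 2, 2), (4, 4, 1, 1), (5, 0, 1, 4), (6, 1, 0, 3)]

def L3_0 : Po :=
  [((1, 0, 2, 1), (278, -170)), ((1, 0, 1, 2), (-360, 360)), ((1, 0, 0, 3), (-118, 10)), ((2, 0, 1, 1), (-1788, 564)), ((2, 0, 0, 2), (-2168, 1256)), ((3, 0, 0, 1), (1144, -472)), ((1, 1, 1, 1), (-992, 992)), ((1, 1, 0, 2), (2700, -1476)), ((2, 1, 0, 1), (264, -264)), ((1, 2, 0, 1), (-1320, 648)), ((0, 1, 3, 0), (278, -170)), ((0, 1, 2, 1), (-360, 360)), ((0, 1, 1, 2), (-118, 10)), ((1, 1, 2, 0), (-1788, 564)), ((2, 1, 1, 0), (1144, -472)), ((0, 2, 2, 0), (1176, -264)), ((0, 2, 1, 1), (2700, -1476)),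 ((1, 2, 1, 0), (264, -264)), ((0, 3, 1, 0), (-1320, 648)), ((0, 0, 2, 0), (-139, 85)), ((0, 0, 1, 1), (180, -180)), ((0, 0, 0, 2), (59, -5)), ((1, 0, 1, 0), (894, -282)), ((1, 0, 0, 1), (1084, -628)), ((2, 0, 0, 0), (-572, 236)), ((0, 1, 1, 0), (-588, 132)), ((0, 1, 0, 1), (-1350, 738)), ((1, 1, 0, 0), (-132, 132)), ((0, 2, 0, 0), (660, -324))]

def Q3_0 : Po :=
  [((0, 0, 1, 1), (773094113280, -773094113280)), ((1, 1, 0, 0), (-566935683072, 566935683072)), ((0, 0, 2, 2), (-876575981568, -162000797696)), ((1, 1, 1, 1), (-7070589911040, 5575941292032)), ((2, 2, 0, 0), (470298918912, -702227152896)), ((0, 0, 3, 3), (-1024374865920, 347330314240)), ((1, 1, 2, 2), (9429483257856, 1178616201216)), ((2, 2, 1, 1), (-3903454183424, -227767484416)), ((3, 3, 0, 0), (181730803712, 267093278720)), ((0, 0, 4, 4), (14742650880, 913661952000)), ((0, 5, 3, 0), (3073334312960, 1746105532416)),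 ((1, 1, 3, 3), (15120555048960, -4662750085120)), ((2, 2, 2, 2), (-9363196477440, 4336713203712)), ((3, 3, 1, 1), (5982704893952, 962659876864)), ((4, 4, 0, 0), (72393687040, 58804142080)), ((5, 0, 0, 3), (-1372955082752, -344025202688)), ((0, 5, 4, 1), (9755636531200, -5529959137280)), ((1, 1, 4, 4), (-4555395563520, -7562092871680)), ((1, 6, 3, 0), (1457680023552, -4930865725440)), ((2, 2, 3, 3), (-14266222510080, -619173642240)), ((3, 3, 2, 2), (8829722951680, -12934688276480)), ((4, 4, 1, 1), (-2316346327040, -1066443735040)), ((5, 0, 1, 4), (387218145280, -3020360253440)), ((6, 1, 0, 3), (-475978006528, -776004960256))]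

def M3_0 : List Mo :=
  [(0, 0, 1, 1), (1, 1, 0, 0), (0, 0, 2, 2), (1, 1, 1, 1), (2, 2, 0, 0), (0, 0, 3, 3), (1, 1, 2, 2), (2, 2, 1, 1), (3, 3, 0, 0), (0, 0, 4, 4), (0, 5, 3, 0), (1, 1, 3, 3), (2, 2, 2, 2), (3, 3, 1, 1), (4, 4, 0, 0), (5, 0, 0, 3), (0, 5, 4, 1), (1, 1, 4, 4), (1, 6, 3, 0), (2, 2, 3, 3), (3, 3, 2, 2), (4, 4, 1, 1), (5, 0, 1, 4), (6, 1, 0, 3)]

theorem e1_0 : P1 ((0 : ℕ) : ℤ) = L1_0 := by decide +kernel

theorem e2_0 : P2 ((0 : ℕ) : ℤ) = L2_0 := by decide +kernel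

theorem e3_0 : P3 ((0 : ℕ) : ℤ) = L3_0 := by decide +kernel

theorem c1_0 : chkF L1_0 Z1 zs zcs (1 - (0 : ℕ)) (1 + (0 : ℕ)) ((0 : ℕ) : ℤ) 0 0 8 1 M1_0 Q1_0 = true := by
  decide +kernel

theorem c2_0 : chkF L2_0 Z1 zs zcs (-((0 : ℕ) + 1)) ((0 : ℕ) + 1) ((0 : ℕ) : ℤ) 0 0 8 1 M2_0 Q2_0 = true := by
  decide +kernel

theorem c3_0 : chkF L3_0 Z1 zs zcs (-((0 : ℕ) - 1)) ((0 : ℕ) - 1) ((0 : ℕ) : ℤ) 0 0 8 1 M3_0 Q3_0 = true := by
  decide +kernel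

theorem row_0 : RowC 0 8 1 1 1 M1_0 M2_0 M3_0 L1_0 L2_0 L3_0 Q1_0 Q2_0 Q3_0 where
  e1 := e1_0
  e2 := e2_0
  e3 := e3_0
  c1 := c1_0
  c2 := c2_0
  c3 := c3_0

/-- numbers of the row -/
def v_0 : List ℚ := [2043981557576, 10782910533600, 60948462484591, 82578152202417, 110616884150516, 54588484576350, 15203793799449]

/-- bound of the error, coefficients of `A^(6-k) |B|^k` -/
def w_0 : List ℚ := [3 / 20, 79 / 100, 111 / 25, 601 / 100, 161 / 20, 199 / 50, 111 / 100]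

theorem d_0 : chkD (1 / 5) (1 / 8) 1198101170400 (addP (addP (Qs Q1_0 Q2_0 Q3_0) (twP (Qs Q1_0 Q2_0 Q3_0)))
    (smP (-536870912, 0) (Pool.Agent.Helper33.GM.eP 0))) v_0 = true := by
  decide +kernel

/-- **row `l = 0`** -/
theorem el_0 {A : ℝ} {B : ℂ} (c : ZC) (hR : |A| + 8 / 5 * ‖B‖ ≤ 1 / 5) :
    ‖eM ((PI c A B).F1 (b0I A B) (z0I A B)) ((PI c A B).F2 (b0I A B) (z0I A B)) (PI c A B).ph1 (PI c A B).ph2
      ((0 : ℕ) : ℝ) - evP A B (Pool.Agent.Helper33.GM.eP 0) / 25600‖ ≤ evR |A| ‖B‖ (hom6 w_0) := by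
  refine row_fin row_0 (by decide) (by norm_num) (by norm_num) (by norm_num) (by norm_num) _ v_0 536870912 (by norm_num) 1198101170400 ?_
    d_0 c hR w_0 (by decide +kernel)
  norm_num

end Helper42.SH
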