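import Pool.Agent.Helper75.SH.HTR

/-!
# Project RC, SHARP, cell engine: the three weights of the collar rows as natural numbers over `10 ^ 9`

`cXw T ≥ 10⁹ / tz`, `cYw R T W ≥ 10⁹ · 2 / (t2 - x2)`, `cZw R T W ≥ 10⁹ · 2 / (t3 - x3)`: computed, no check but `okW`.
-/

set_option autoImplicit false

open MeasureTheory Set Filter Topology

namespace Helper42.SH

open Helper49.Sharp Helper49.Cell
open Helper70.SH (cd LocH Len)
open Pool.Agent.Helper56.TS (TI)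
open Pool.Agent.Helper75.SH (WtR okW x2 x3 TSc)

/-- `e1² + e2²` -/
def e2I (R : Rec) : ℤ := R.e1 * R.e1 + R.e2 * R.e2

def den2 (R : Rec) (T : TI) (W : WtR) : ℤ :=
  (T.t2 : ℤ) * ((T.L : ℤ) - 1) * R.nu * 100000 - (100 * W.bL - T.be : ℤ) * (R.e1 * R.e1 + R.e2 * R.e2)
def den3 (R : Rec) (T : TI) (W : WtR) : ℤ :=
  (T.t3 : ℤ) * (4 * ((T.L : ℤ) - 1)) * R.nu * 100000 - (100 * W.bL - T.be : ℤ) * (R.e1 * R.e1 + R.e2 * R.e2) * T.L

def cXw (T : TI) : ℕ := Nat.succ (Nat.div 100000000000000 T.tz)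
def cYw (R : Rec) (T : TI) (W : WtR) : ℕ :=
  Nat.succ (Nat.div (Nat.mul 20000000000000000000 (Int.toNat (((T.L : ℤ) - 1) * R.nu))) (Int.toNat (den2 R T W)))
def cZw (R : Rec) (T : TI) (W : WtR) : ℕ :=
  Nat.succ (Nat.div (Nat.mul 80000000000000000000 (Int.toNat (((T.L : ℤ) - 1) * R.nu))) (Int.toNat (den3 R T W)))

/-- rounding up -/
theorem up_div {a d : ℕ} (h : 0 < d) : (a : ℝ) ≤ (Nat.succ (Nat.div a d) : ℕ) * d := by
  have h1 : a < d * (a / d + 1) := Nat.lt_mul_div_succ a h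
  have h2 : a ≤ (a / d + 1) * d := by rw [mul_comm]; exact h1.le
  exact_mod_cast h2

section

variable {R : Rec} {C : Crt} (h : R.ok C = true) {K0 : ℕ} (len : Len R K0) (s : ℕ) {T : TI} {W : WtR}
  (hW : okW R T W = true)

include hW in
theorem okW_num : 0 < T.tz ∧ 14 ≤ T.L ∧
    (100 * W.bL - T.be : ℤ) * (R.e1 * R.e1 + R.e2 * R.e2) < (T.t2 : ℤ) * ((T.L : ℤ) - 1) * R.nu * 100000 ∧
    (100 * W.bL - T.be : ℤ) * (R.e1 * R.e1 + R.e2 * R.e2) * T.L < (T.t3 : ℤ) * (4 * ((T.L : ℤ) - 1)) * R.nu * 100000 := by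
  have hW' := hW
  unfold okW at hW'
  rw [bif_iff] at hW'
  obtain ⟨-, h2⟩ := hW'
  obtain ⟨g1, g2, g3, g4, g5, g6, g7, g8, g8', g9, g10, g11, g12, g13, g14, g15, g16, g17, g18, g19, g20, g21⟩ :=
    of_decide_eq_true h2
  exact ⟨g19, by omega, g20, g21⟩

include hW in
theorem okW_par : T.K % 2 = 1 ∧ T.L % 2 = 0 ∧ 14 ≤ T.K := by
  have hW' := hW
  unfold okW at hW'
  rw [bif_iff] at hW'
  obtain ⟨-, h2⟩ := hW'
  obtain ⟨g1, g2, g3, g4, g5, g6, g7, g8, g8', g9, g10, g11, g12, g13, g14, g15, g16, g17, g18, g19, g20, g21⟩ :=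
    of_decide_eq_true h2
  exact ⟨g9, g10, by omega⟩

include h in
theorem nu_pos : 0 < R.nu := by
  have k := Rec.ok_sound h
  have hν : (0 : ℝ) < R.nu := by
    have := k.nu0
    have e : R.cb.nu = (R.nu : ℝ) / 100000 := rfl
    rw [e] at this
    by_contra hc
    rw [not_lt] at hc
    linarith
  exact_mod_cast hν

include hW in
theorem tz_pos : 0 < T.tsc.tz := by
  have h1 := (okW_num hW).1
  show (0 : ℝ) < (T.tz : ℝ) / 100000
  have : (0 : ℝ) < T.tz := by exact_mod_cast h1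
  positivity

include hW in
/-- **the weight of `X`** -/
theorem cX_ok : 1 / T.tsc.tz ≤ (cXw T : ℝ) / 10 ^ 9 := by
  have h1 := (okW_num hW).1
  have h2 : (0 : ℝ) < T.tz := by exact_mod_cast h1
  show 1 / ((T.tz : ℝ) / 100000) ≤ _
  rw [div_le_div_iff₀ (by positivity) (by norm_num)]
  have h3 := up_div (a := 100000000000000) h1
  push_cast at h3
  have e : (cXw T : ℝ) = ((Nat.succ (Nat.div 100000000000000 T.tz) : ℕ) : ℝ) := rfl
  rw [e]
  push_cast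
  linarith

include h hW in
theorem y2 : 0 < T.tsc.t2 - x2 T.tsc (cd R h len s) ((W.bL : ℝ) / 1000) ∧
    2 / (T.tsc.t2 - x2 T.tsc (cd R h len s) ((W.bL : ℝ) / 1000)) ≤ (cYw R T W : ℝ) / 10 ^ 9 := by
  obtain ⟨-, l1, g20, -⟩ := okW_num hW
  have nu0 := nu_pos h
  have hν : (0 : ℝ) < R.nu := by exact_mod_cast nu0
  have hL : (0 : ℝ) < (T.L : ℝ) - 1 := by
    have : (14 : ℝ) ≤ T.L := by exact_mod_cast l1
    linarith
  have d0 : 0 < den2 R T W := by unfold den2; linarith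
  have d0' : (0 : ℝ) < (den2 R T W : ℤ) := by exact_mod_cast d0
  have e0 : T.tsc.t2 - x2 T.tsc (cd R h len s) ((W.bL : ℝ) / 1000) =
      ((den2 R T W : ℤ) : ℝ) / (10000000000 * (((T.L : ℝ) - 1) * R.nu)) := by
    show (T.t2 : ℝ) / 100000 - ((W.bL : ℝ) / 1000 - (T.be : ℝ) / 100000) * ‖R.par.eta‖ ^ 2
      / (((T.L : ℝ) - 1) * ((R.nu : ℝ) / 100000)) = _
    rw [Helper70.SH.eta_sq]
    unfold den2
    push_cast
    field_simp
    ring
  rw [e0]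
  refine ⟨by positivity, ?_⟩
  have hn : 0 < Int.toNat (den2 R T W) := by omega
  have h3 := up_div (a := Nat.mul 20000000000000000000 (Int.toNat (((T.L : ℤ) - 1) * R.nu))) hn
  have c1 : ((Int.toNat (den2 R T W) : ℕ) : ℝ) = ((den2 R T W : ℤ) : ℝ) := by
    have : ((Int.toNat (den2 R T W) : ℕ) : ℤ) = den2 R T W := Int.toNat_of_nonneg d0.le
    exact_mod_cast this
  have c2 : ((Int.toNat (((T.L : ℤ) - 1) * R.nu) : ℕ) : ℝ) = ((T.L : ℝ) - 1) * R.nu := by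
    have p : 0 ≤ ((T.L : ℤ) - 1) * R.nu := mul_nonneg (by omega) nu0.le
    have : ((Int.toNat (((T.L : ℤ) - 1) * R.nu) : ℕ) : ℤ) = ((T.L : ℤ) - 1) * R.nu := Int.toNat_of_nonneg p
    exact_mod_cast this
  rw [c1, Nat.mul_eq, Nat.cast_mul, c2] at h3
  have h4 : (20000000000000000000 : ℝ) * (((T.L : ℝ) - 1) * R.nu) ≤ (cYw R T W : ℝ) * ((den2 R T W : ℤ) : ℝ) := by
    unfold cYw
    exact_mod_cast h3
  rw [div_div_eq_mul_div, div_le_div_iff₀ d0' (by norm_num)]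
  linarith

include h hW in
theorem y3 : 0 < T.tsc.t3 - x3 T.tsc (cd R h len s) ((W.bL : ℝ) / 1000) ∧
    2 / (T.tsc.t3 - x3 T.tsc (cd R h len s) ((W.bL : ℝ) / 1000)) ≤ (cZw R T W : ℝ) / 10 ^ 9 := by
  obtain ⟨-, l1, -, g21⟩ := okW_num hW
  have nu0 := nu_pos h
  have hν : (0 : ℝ) < R.nu := by exact_mod_cast nu0
  have hL : (0 : ℝ) < (T.L : ℝ) - 1 := by
    have : (14 : ℝ) ≤ T.L := by exact_mod_cast l1
    linarith
  have d0 : 0 < den3 R T W := by unfold den3; linarith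
  have d0' : (0 : ℝ) < (den3 R T W : ℤ) := by exact_mod_cast d0
  have e0 : T.tsc.t3 - x3 T.tsc (cd R h len s) ((W.bL : ℝ) / 1000) =
      ((den3 R T W : ℤ) : ℝ) / (40000000000 * (((T.L : ℝ) - 1) * R.nu)) := by
    show (T.t3 : ℝ) / 100000 - ((W.bL : ℝ) / 1000 - (T.be : ℝ) / 100000) * ‖R.par.eta‖ ^ 2 * (T.L : ℝ)
      / (4 * ((T.L : ℝ) - 1) * ((R.nu : ℝ) / 100000)) = _
    rw [Helper70.SH.eta_sq]
    unfold den3
    push_cast
    field_simp
    ring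
  rw [e0]
  refine ⟨by positivity, ?_⟩
  have hn : 0 < Int.toNat (den3 R T W) := by omega
  have h3 := up_div (a := Nat.mul 80000000000000000000 (Int.toNat (((T.L : ℤ) - 1) * R.nu))) hn
  have c1 : ((Int.toNat (den3 R T W) : ℕ) : ℝ) = ((den3 R T W : ℤ) : ℝ) := by
    have : ((Int.toNat (den3 R T W) : ℕ) : ℤ) = den3 R T W := Int.toNat_of_nonneg d0.le
    exact_mod_cast this
  have c2 : ((Int.toNat (((T.L : ℤ) - 1) * R.nu) : ℕ) : ℝ) = ((T.L : ℝ) - 1) * R.nu := by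
    have p : 0 ≤ ((T.L : ℤ) - 1) * R.nu := mul_nonneg (by omega) nu0.le
    have : ((Int.toNat (((T.L : ℤ) - 1) * R.nu) : ℕ) : ℤ) = ((T.L : ℤ) - 1) * R.nu := Int.toNat_of_nonneg p
    exact_mod_cast this
  rw [c1, Nat.mul_eq, Nat.cast_mul, c2] at h3
  have h4 : (80000000000000000000 : ℝ) * (((T.L : ℝ) - 1) * R.nu) ≤ (cZw R T W : ℝ) * ((den3 R T W : ℤ) : ℝ) := by
    unfold cZw
    exact_mod_cast h3
  rw [div_div_eq_mul_div, div_le_div_iff₀ d0' (by norm_num)]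
  linarith

end

end Helper42.SH
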